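import Mathlib
import Pool.Agent.Lib.MP_b525bf_ag.CanonEtale

/-!
Flat base change for graded families.
-/

set_option autoImplicit false

namespace Pool.Agent.MP_b525bf_ag_h5

open Pool.Agent.MP_b525bf_ag AddMonoidAlgebra TensorProduct

variable {k K : Type} [Field k] [Field K] [Algebra k K]

/-- The map from a ring to the degree zero part. -/
noncomputable def baseMap (N : Fam k K ℤ) (A : Type) [CommRing A] [Algebra k A] [Algebra A K]
    [IsScalarTower k A K] (h : ∀ a : A, algebraMap A K a ∈ N.s 0) : A →ₐ[k] N.alg where
  toFun a := N.el (h a)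
  map_one' := Subtype.ext (by rw [Fam.coe_el, map_one]; rfl)
  map_mul' a b := Subtype.ext (by simp)
  map_zero' := Subtype.ext (by simp)
  map_add' a b := Subtype.ext (by simp [single_add])
  commutes' c := by
    refine Subtype.ext ?_
    change single 0 (algebraMap A K (algebraMap k A c)) = algebraMap k (AddMonoidAlgebra K ℤ) c
    rw [AddMonoidAlgebra.coe_algebraMap, ← IsScalarTower.algebraMap_apply]; rfl

/-- Flat base change: the graded algebra of the extended family is the tensor product. -/
theorem base_change {A B : Type} [CommRing A] [CommRing B] [Algebra k A] [Algebra k B]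
    [Algebra A B] [Algebra A K] [Algebra B K] [IsScalarTower k A K] [IsScalarTower k B K]
    [IsScalarTower A B K] [IsScalarTower k A B] (hinjA : Function.Injective (algebraMap A K))
    (hinj : Function.Injective (algebraMap B K)) (hflat : Module.Flat A B)
    (NA NB : Fam k K ℤ) (hA : ∀ n, ∀ z ∈ NA.s n, ∃ a : A, algebraMap A K a = z)
    (hA0 : ∀ a : A, algebraMap A K a ∈ NA.s 0)
    (hB0 : ∀ b : B, algebraMap B K b ∈ NB.s 0) (hle : ∀ n, NA.s n ≤ NB.s n)
    (hgen : ∀ n, NB.s n ≤
      Submodule.span k {z | ∃ b : B, ∃ x ∈ NA.s n, z = algebraMap B K b * x})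
    (α : A) (hα0 : α ≠ 0) (hα : ∀ n : ℤ, ∃ d : ℕ, algebraMap A K α ^ d ∈ NA.s n) :
    ∃ (_ : Algebra A NA.alg) (_ : IsScalarTower k A NA.alg) (_ : Algebra NA.alg NB.alg)
      (_ : IsScalarTower k NA.alg NB.alg),
      (∀ r : NA.alg, ((algebraMap NA.alg NB.alg r : NB.alg) : AddMonoidAlgebra K ℤ) = r) ∧
      Nonempty (NA.alg ⊗[A] B ≃ₐ[NA.alg] NB.alg) := by
  classical
  have hinc : NA.alg ≤ NB.alg := fun G hG a => hle a (hG a)
  let i2 : Algebra A NA.alg := (baseMap NA A hA0).toAlgebra
  let i3 : Algebra NA.alg NB.alg := (Subalgebra.inclusion hinc).toAlgebra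
  let i4 : Algebra A NB.alg := ((Subalgebra.inclusion hinc).comp (baseMap NA A hA0)).toAlgebra
  have i7 : IsScalarTower k A NA.alg := IsScalarTower.of_algebraMap_eq
    fun c => ((baseMap NA A hA0).commutes c).symm
  have i5 : IsScalarTower k NA.alg NB.alg := IsScalarTower.of_algebraMap_eq
    fun c => Subtype.ext rfl
  have i6 : IsScalarTower A NA.alg NB.alg := IsScalarTower.of_algebraMap_eq
    fun c => rfl
  let g : B →ₐ[A] NB.alg :=
    { (baseMap NB B hB0).toRingHom with
      commutes' := fun a => by
        refine Subtype.ext ?_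
        change single 0 (algebraMap B K (algebraMap A B a)) = single 0 (algebraMap A K a)
        rw [← IsScalarTower.algebraMap_apply] }
  let m : NA.alg ⊗[A] B →ₐ[NA.alg] NB.alg :=
    Algebra.TensorProduct.lift (Algebra.ofId _ _) g fun _ _ => Commute.all _ _
  have hm : ∀ r b, m (r ⊗ₜ b) = Subalgebra.inclusion hinc r * baseMap NB B hB0 b := by
    intro r b
    simp only [m]
    rw [Algebra.TensorProduct.lift_tmul]
    rfl
  have hbij : Function.Bijective m := by
    constructor
    · rw [injective_iff_map_eq_zero]
      intro z hz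
      obtain ⟨S, hS⟩ := TensorProduct.exists_finset z
      let N : Finset ℤ := S.biUnion fun i => (i.1 : AddMonoidAlgebra K ℤ).coeff.support
      choose dd hdd using hα
      obtain ⟨d, hd⟩ : ∃ d : ℕ, ∀ n ∈ N, dd n ≤ d :=
        ⟨N.sup dd, fun n hn => Finset.le_sup (f := dd) hn⟩
      have hαd : ∀ n ∈ N, algebraMap A K α ^ d ∈ NA.s n := by
        intro n hn
        have h1 := NA.mul' (hA0 (α ^ (d - dd n))) (hdd n)
        rw [map_pow, ← pow_add, Nat.sub_add_cancel (hd n hn), zero_add] at h1
        exact h1
      let e : ℤ → NA.alg := fun n =>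
        if h : n ∈ N then NA.el (hαd n h) else 0
      let αd : A := α ^ d
      have hαdK : algebraMap A K αd = algebraMap A K α ^ d := map_pow _ _ _
      have hcoef : ∀ (r : NA.alg) (n : ℤ), ∃ a : A, algebraMap A K a =
          (r : AddMonoidAlgebra K ℤ).coeff n := fun r n => hA n _ (r.2 n)
      choose cf hcf using hcoef
      have hexp : ∀ r : NA.alg, (∀ n, (r : AddMonoidAlgebra K ℤ).coeff n ≠ 0 → n ∈ N) →
          αd • r = ∑ n ∈ N, cf r n • e n := by
        intro r hr
        refine Subtype.ext ?_
        rw [AddSubmonoidClass.coe_finsetSum]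
        rw [Algebra.smul_def]
        change single 0 (algebraMap A K αd) * (r : AddMonoidAlgebra K ℤ) = _
        have h1 : (r : AddMonoidAlgebra K ℤ) =
            ∑ n ∈ N, single n ((r : AddMonoidAlgebra K ℤ).coeff n) := by
          conv_lhs => rw [Fam.eq_sum (r : AddMonoidAlgebra K ℤ)]
          refine Finset.sum_subset ?_ ?_
          · intro n hn
            exact hr n (by simpa using hn)
          · intro n _ hn
            rw [Finsupp.notMem_support_iff] at hn
            rw [hn, single_zero]
        conv_lhs => rw [h1]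
        rw [Finset.mul_sum]
        refine Finset.sum_congr rfl fun n hn => ?_
        rw [single_mul_single, zero_add, Algebra.smul_def]
        simp only [e, dif_pos hn]
        change single n _ = single 0 (algebraMap A K (cf r n)) * single n (algebraMap A K α ^ d)
        rw [single_mul_single, zero_add, mul_comm, hcf, hαdK]
      have hsupp : ∀ i ∈ S, ∀ n, (i.1 : AddMonoidAlgebra K ℤ).coeff n ≠ 0 → n ∈ N := by
        intro i hi n hn
        simp only [N, Finset.mem_biUnion]
        exact ⟨i, hi, by simpa using hn⟩
      have hkill : αd • z = 0 := by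
        have h1 : αd • z = ∑ n ∈ N, e n ⊗ₜ[A] (∑ i ∈ S, cf i.1 n • i.2) := by
          rw [hS, Finset.smul_sum]
          have h2 : ∀ i ∈ S, αd • (i.1 ⊗ₜ[A] i.2) =
              ∑ n ∈ N, e n ⊗ₜ[A] (cf i.1 n • i.2) := by
            intro i hi
            rw [TensorProduct.smul_tmul', hexp i.1 (hsupp i hi), TensorProduct.sum_tmul]
            refine Finset.sum_congr rfl fun n _ => ?_
            rw [TensorProduct.smul_tmul]
          rw [Finset.sum_congr rfl h2, Finset.sum_comm]
          refine Finset.sum_congr rfl fun n _ => ?_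
          rw [TensorProduct.tmul_sum]
        rw [h1]
        refine Finset.sum_eq_zero fun n _ => ?_
        have h3 : (∑ i ∈ S, cf i.1 n • i.2 : B) = 0 := by
          have h4 : (m z : AddMonoidAlgebra K ℤ).coeff n = 0 := by rw [hz]; rfl
          rw [hS, map_sum, AddSubmonoidClass.coe_finsetSum] at h4
          refine hinj ?_
          rw [map_sum, map_zero]
          rw [coeff_sum, Finsupp.finsetSum_apply] at h4
          rw [← h4]
          refine Finset.sum_congr rfl fun i _ => ?_
          rw [hm, Algebra.smul_def, map_mul, ← IsScalarTower.algebraMap_apply, hcf]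
          change ((i.1 : AddMonoidAlgebra K ℤ).coeff n) * (algebraMap B K i.2) =
            ((i.1 : AddMonoidAlgebra K ℤ) * single 0 (algebraMap B K i.2)).coeff n
          rw [coeff_mul_single_eq_coeff_mul n (by intro _ _; simp)]
        rw [h3, TensorProduct.tmul_zero]
      have hinj' : Function.Injective fun r : NA.alg => αd • r := by
        intro r r' h
        have h' : αd • r = αd • r' := h
        rw [Algebra.smul_def, Algebra.smul_def] at h'
        refine mul_left_cancel₀ ?_ h'
        intro h0
        have h1 : (algebraMap A NA.alg αd : AddMonoidAlgebra K ℤ) = 0 := by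
          rw [h0]; rfl
        change single 0 (algebraMap A K αd) = (0 : AddMonoidAlgebra K ℤ) at h1
        rw [AddMonoidAlgebra.single_eq_zero] at h1
        have h2 : αd = 0 := hinjA (by rw [h1, map_zero])
        have : IsDomain A := hinjA.isDomain (algebraMap A K)
        exact pow_ne_zero _ hα0 h2
      have hflat' := Module.Flat.rTensor_preserves_injective_linearMap (M := B)
        (LinearMap.lsmul A NA.alg αd) hinj'
      apply hflat'
      rw [map_zero]
      have h5 : ∀ z : NA.alg ⊗[A] B,
          LinearMap.rTensor B (LinearMap.lsmul A NA.alg αd) z = αd • z := by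
        intro z
        induction z with
        | zero => simp
        | tmul r b => rw [LinearMap.rTensor_tmul, TensorProduct.smul_tmul']; rfl
        | add x y hx hy => rw [map_add, hx, hy, smul_add]
      rw [h5, hkill]
    · intro G
      have : G ∈ m.range := by
        refine Fam.alg_induction NB (p := fun G => G ∈ m.range) (zero_mem _)
          (fun _ _ h h' => add_mem h h') ?_ G
        intro a x hx
        have hxF := hgen a hx
        have key : ∀ y ∈ Submodule.span k {z | ∃ b : B, ∃ x ∈ NA.s a, z = algebraMap B K b * x},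
            ∃ hy : y ∈ NB.s a, NB.el hy ∈ m.range := by
          intro y hy
          refine Submodule.span_induction ?_ ?_ ?_ ?_ hy
          · rintro _ ⟨b, y, hy, rfl⟩
            have h1 : algebraMap B K b * y ∈ NB.s a := by
              have := NB.mul' (hB0 b) (hle a hy)
              rwa [zero_add] at this
            refine ⟨h1, NA.el hy ⊗ₜ b, ?_⟩
            refine (hm _ _).trans ?_
            refine Subtype.ext ?_
            change single a y * single 0 (algebraMap B K b) = single a (algebraMap B K b * y)
            rw [single_mul_single, add_zero, mul_comm]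
          · refine ⟨Submodule.zero_mem _, ?_⟩
            rw [show NB.el (Submodule.zero_mem (NB.s a)) = 0 from
              Subtype.ext (by simp)]
            exact zero_mem _
          · rintro u v _ _ ⟨hu, hu'⟩ ⟨hv, hv'⟩
            refine ⟨Submodule.add_mem _ hu hv, ?_⟩
            rw [show NB.el (Submodule.add_mem _ hu hv) =
              NB.el hu + NB.el hv from Subtype.ext (by simp [single_add])]
            exact add_mem hu' hv'
          · rintro c u _ ⟨hu, hu'⟩
            refine ⟨Submodule.smul_mem _ c hu, ?_⟩
            rw [show NB.el (Submodule.smul_mem _ c hu) =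
              algebraMap NA.alg NB.alg (algebraMap k _ c) * NB.el hu from by
                rw [← IsScalarTower.algebraMap_apply, ← Algebra.smul_def]
                exact Subtype.ext (smul_single c a u).symm]
            exact mul_mem (Subalgebra.algebraMap_mem _ _) hu'
        exact (key x hxF).2
      exact this
  exact ⟨i2, i7, i3, i5, fun _ => rfl, ⟨AlgEquiv.ofBijective m hbij⟩⟩

theorem smooth_of_tensor {A B R R' : Type} [CommRing A] [CommRing B] [CommRing R] [CommRing R']
    [Algebra A B] [Algebra A R] [Algebra R R'] [Algebra.Smooth A B] (e : R ⊗[A] B ≃ₐ[R] R') :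
    Algebra.Smooth R R' := Algebra.Smooth.of_equiv e

theorem smooth_fg_of_base_change {A B : Type} [CommRing A] [CommRing B] [Algebra k A] [Algebra k B]
    [Algebra A B] [Algebra A K] [Algebra B K] [IsScalarTower k A K] [IsScalarTower k B K]
    [IsScalarTower A B K] [IsScalarTower k A B] (hinjA : Function.Injective (algebraMap A K))
    (hinj : Function.Injective (algebraMap B K)) [Algebra.Smooth A B]
    (NA NB : Fam k K ℤ) (hA : ∀ n, ∀ z ∈ NA.s n, ∃ a : A, algebraMap A K a = z)
    (hA0 : ∀ a : A, algebraMap A K a ∈ NA.s 0)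
    (hB0 : ∀ b : B, algebraMap B K b ∈ NB.s 0) (hle : ∀ n, NA.s n ≤ NB.s n)
    (hgen : ∀ n, NB.s n ≤
      Submodule.span k {z | ∃ b : B, ∃ x ∈ NA.s n, z = algebraMap B K b * x})
    (α : A) (hα0 : α ≠ 0) (hα : ∀ n : ℤ, ∃ d : ℕ, algebraMap A K α ^ d ∈ NA.s n)
    (hfg : Algebra.FiniteType k NA.alg) (hsm : Algebra.FormallySmooth k NA.alg) :
    Algebra.FiniteType k NB.alg ∧ Algebra.FormallySmooth k NB.alg := by
  obtain ⟨i1, i2, i3, i4, -, ⟨e⟩⟩ := base_change hinjA hinj inferInstance NA NB hA hA0 hB0 hle hgen
    α hα0 hα
  have h1 : Algebra.FiniteType A B := inferInstance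
  have h2 : Algebra.FiniteType NA.alg (NA.alg ⊗[A] B) := inferInstance
  have h3 : Algebra.FiniteType NA.alg NB.alg := Algebra.FiniteType.equiv h2 e
  exact ⟨Algebra.FiniteType.trans hfg h3,
    formallySmooth_of_tensor (A := A) (B := B) hsm e⟩

end Pool.Agent.MP_b525bf_ag_h5
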