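import Pool.Agent.Lib.MP_b525bf_ag.DefsLocal

/-!
Nondegenerate weighted homogeneous leading forms of an automorphism at a fixed point.
-/

set_option autoImplicit false

namespace Pool.Agent.MP_b525bf_ag_h5

open Pool.Agent.MP_b525bf_ag MvPolynomial

/-- The ideal generated by the monomials `∏ x i ^ α i` of weight `∑ α i * w i ≥ a`. -/
def wIdeal {B : Type} [CommRing B] {n : ℕ} (x : Fin n → B) (w : Fin n → ℕ) (a : ℕ) : Ideal B :=
  Ideal.span {y | ∃ α : Fin n → ℕ, a ≤ ∑ i, α i * w i ∧ y = ∏ i, x i ^ α i}

/-- The endomorphism `τ` of `L` has, with respect to the étale coordinates `x i` with weights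
`w i ≥ 0`, the weighted homogeneous leading forms `g i` of degree `w i + e`: `τ (x i) - x i` is
`g i` evaluated at `x`, up to monomials of higher weight. The coordinates of positive weight vanish
at the prime ideal `P`, and over the residue field of `P` they vanish at all common zeros of the
leading forms. -/
structure LeadingAt (k : Type) {L : Type} [Field k] [CommRing L] [Algebra k L] (τ : L →+* L)
    (P : Ideal L) (e : ℕ) {n : ℕ} (x : Fin n → L) (w : Fin n → ℕ)
    (g : Fin n → MvPolynomial (Fin n) L) : Prop where
  etale : (aeval x : MvPolynomial (Fin n) k →ₐ[k] L).toRingHom.Etale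
  center : ∀ i, 0 < w i → x i ∈ P
  homog : ∀ i, (g i).IsWeightedHomogeneous w (w i + e)
  lead : ∀ i, τ (x i) - x i - eval x (g i) ∈ wIdeal x w (w i + e + 1)
  nondeg : ∀ i, 0 < w i → X i ∈ (Ideal.span (Set.range g) ⊔ P.map C).radical

/-- The automorphism `σ` of the `k`-algebra `B` has nondegenerate weighted homogeneous leading
forms at the prime ideal `P`: the point `P` has a `σ`-invariant affine open neighbourhood
`Spec B[1/f]` with étale coordinates `x 0, …, x (n - 1)`, weights `w i ≥ 0`, an integer `e ≥ 1` and
leading forms `g i` which are weighted homogeneous of degree `w i + e` as in `LeadingAt`. -/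
def Nondegenerate {k B : Type} [Field k] [CommRing B] [Algebra k B] (σ : B ≃ₐ[k] B)
    (P : Ideal B) : Prop :=
  ∃ (f : B) (hf : σ f = f), f ∉ P ∧
    ∃ (n e : ℕ) (x : Fin n → Localization.Away f) (w : Fin n → ℕ)
      (g : Fin n → MvPolynomial (Fin n) (Localization.Away f)), 0 < e ∧
      LeadingAt k (awayMap σ f hf) (P.map (algebraMap B (Localization.Away f))) e x w g

end Pool.Agent.MP_b525bf_ag_h5
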