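import Mathlib
import Pool.Agent.Lib.MP_b525bf_ag_h5.Base
import Pool.Agent.Lib.MP_b525bf_ag_h5.Defs
import Pool.Agent.Lib.MP_b525bf_ag_helper53.Rees

/-!
Weighted filtrations by monomials in étale coordinates.
-/

set_option autoImplicit false

namespace Pool.Agent.MP_b525bf_ag_h5

open Pool.Agent.MP_b525bf_ag AddMonoidAlgebra

section ideal

variable {B : Type} [CommRing B] {n : ℕ} {x : Fin n → B} {w : Fin n → ℕ}

lemma wIdeal_zero : wIdeal x w 0 = ⊤ := by
  rw [Ideal.eq_top_iff_one]
  exact Ideal.subset_span ⟨fun _ => 0, Nat.zero_le _, by simp⟩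

lemma monom_mem {α : Fin n → ℕ} {a : ℕ} (h : a ≤ ∑ i, α i * w i) :
    ∏ i, x i ^ α i ∈ wIdeal x w a := Ideal.subset_span ⟨α, h, rfl⟩

lemma x_mem (i : Fin n) : x i ∈ wIdeal x w (w i) := by
  classical
  have h := monom_mem (x := x) (w := w) (α := fun j => if j = i then 1 else 0) (a := w i) (by simp)
  simpa using h

lemma wIdeal_anti {a b : ℕ} (h : a ≤ b) : wIdeal x w b ≤ wIdeal x w a := by
  refine Ideal.span_le.2 ?_
  rintro _ ⟨α, hα, rfl⟩
  exact monom_mem (h.trans hα)

lemma wIdeal_mul {a b : ℕ} {y z : B} (hy : y ∈ wIdeal x w a) (hz : z ∈ wIdeal x w b) :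
    y * z ∈ wIdeal x w (a + b) := by
  have h : wIdeal x w a * wIdeal x w b ≤ wIdeal x w (a + b) := by
    rw [wIdeal, wIdeal, Ideal.span_mul_span]
    refine Ideal.span_le.2 ?_
    rintro _ ⟨_, ⟨α, hα, rfl⟩, _, ⟨β, hβ, rfl⟩, rfl⟩
    have h1 : (∏ i, x i ^ α i) * ∏ i, x i ^ β i = ∏ i, x i ^ (α i + β i) := by
      rw [← Finset.prod_mul_distrib]
      exact Finset.prod_congr rfl fun i _ => (pow_add _ _ _).symm
    change (∏ i, x i ^ α i) * ∏ i, x i ^ β i ∈ _
    rw [h1]
    refine monom_mem ?_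
    simp only [add_mul, Finset.sum_add_distrib]
    exact add_le_add hα hβ
  exact h (Ideal.mul_mem_mul hy hz)

lemma wIdeal_pow {a : ℕ} {y : B} (hy : y ∈ wIdeal x w a) (m : ℕ) :
    y ^ m ∈ wIdeal x w (m * a) := by
  induction m with
  | zero => rw [zero_mul, wIdeal_zero]; trivial
  | succ m ih => rw [pow_succ, Nat.succ_mul]; exact wIdeal_mul ih hy

lemma wIdeal_one_pow (a : ℕ) : wIdeal x w 1 ^ a ≤ wIdeal x w a := by
  induction a with
  | zero => rw [wIdeal_zero]; exact le_top
  | succ a ih =>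
    rw [pow_succ]
    refine Ideal.mul_le.2 fun y hy z hz => wIdeal_mul (ih hy) hz

/-- The ideal of the centre. -/
def cIdeal (x : Fin n → B) (w : Fin n → ℕ) : Ideal B := Ideal.span {y | ∃ i, 0 < w i ∧ y = x i}

lemma wIdeal_one : wIdeal x w 1 = cIdeal x w := by
  classical
  apply le_antisymm
  · refine Ideal.span_le.2 ?_
    rintro _ ⟨α, hα, rfl⟩
    obtain ⟨i, -, hi⟩ : ∃ i ∈ Finset.univ, 0 < α i * w i := by
      by_contra hcon
      push Not at hcon
      have : ∑ i, α i * w i = 0 := Finset.sum_eq_zero fun i hi => Nat.le_zero.1 (hcon i hi)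
      omega
    have hw : 0 < w i := Nat.pos_of_mul_pos_left hi
    have hα' : 0 < α i := Nat.pos_of_mul_pos_right hi
    rw [← Finset.mul_prod_erase _ _ (Finset.mem_univ i)]
    refine Ideal.mul_mem_right _ _ ?_
    have h1 : x i ∈ cIdeal x w := Ideal.subset_span ⟨i, hw, rfl⟩
    exact Ideal.pow_mem_of_mem _ h1 _ hα'
  · refine Ideal.span_le.2 ?_
    rintro _ ⟨i, hi, rfl⟩
    exact wIdeal_anti hi (x_mem i)

end ideal

section family

variable {k K : Type} [Field k] [Field K] [Algebra k K] {B : Type} [CommRing B] [Algebra k B]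
  [Algebra B K] [IsScalarTower k B K] {n : ℕ}

/-- The extended Rees family of the weighted filtration. -/
def wFam (k K : Type) [Field k] [Field K] [Algebra k K] {B : Type} [CommRing B] [Algebra k B]
    [Algebra B K] [IsScalarTower k B K] {n : ℕ} (x : Fin n → B) (w : Fin n → ℕ) : Fam k K ℤ where
  s a := ((wIdeal x w a.toNat).restrictScalars k).map (IsScalarTower.toAlgHom k B K).toLinearMap
  one' := ⟨1, by rw [Int.toNat_zero, wIdeal_zero]; trivial, map_one (IsScalarTower.toAlgHom k B K)⟩
  mul' := by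
    rintro a b _ _ ⟨y, hy, rfl⟩ ⟨z, hz, rfl⟩
    refine ⟨y * z, ?_, map_mul (IsScalarTower.toAlgHom k B K) y z⟩
    exact wIdeal_anti (by omega) (wIdeal_mul (a := a.toNat) (b := b.toNat) hy hz)

lemma mem_wFam {x : Fin n → B} {w : Fin n → ℕ} {a : ℤ} {z : K} :
    z ∈ (wFam k K x w).s a ↔ ∃ b ∈ wIdeal x w a.toNat, algebraMap B K b = z := Iff.rfl

lemma map_mem_wFam {x : Fin n → B} {w : Fin n → ℕ} {a : ℤ} {b : B}
    (h : b ∈ wIdeal x w a.toNat) : algebraMap B K b ∈ (wFam k K x w).s a := ⟨b, h, rfl⟩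

lemma map_mem_wFam_nat {x : Fin n → B} {w : Fin n → ℕ} {a : ℕ} {b : B}
    (h : b ∈ wIdeal x w a) : algebraMap B K b ∈ (wFam k K x w).s a := ⟨b, h, rfl⟩

lemma map_mem_wFam_nonpos {x : Fin n → B} {w : Fin n → ℕ} {a : ℤ} (ha : a ≤ 0) (b : B) :
    algebraMap B K b ∈ (wFam k K x w).s a :=
  map_mem_wFam (by rw [Int.toNat_of_nonpos ha, wIdeal_zero]; trivial)

end family

section etale

variable {k K : Type} [Field k] [Field K] [Algebra k K] {B : Type} [CommRing B] [Algebra k B]
  [Algebra B K] [IsScalarTower k B K] {n : ℕ}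

lemma injective_of_etale [Nontrivial B] (x : Fin n → B)
    (hx : (MvPolynomial.aeval x : MvPolynomial (Fin n) k →ₐ[k] B).toRingHom.Etale) :
    Function.Injective (MvPolynomial.aeval x : MvPolynomial (Fin n) k →ₐ[k] B) := by
  let i1 : Algebra (MvPolynomial (Fin n) k) B :=
    (MvPolynomial.aeval x : MvPolynomial (Fin n) k →ₐ[k] B).toRingHom.toAlgebra
  have i2 : Algebra.Etale (MvPolynomial (Fin n) k) B := hx
  have hflat : Module.Flat (MvPolynomial (Fin n) k) B := inferInstance
  have h1 : Module.IsTorsionFree (MvPolynomial (Fin n) k) B := Module.Flat.isTorsionFree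
  exact FaithfulSMul.algebraMap_injective (MvPolynomial (Fin n) k) B

/-- The extended Rees algebra of the weighted filtration given by étale coordinates is smooth over
a polynomial ring. -/
theorem wFam_base (hinj : Function.Injective (algebraMap B K)) (x : Fin n → B)
    (hx : (MvPolynomial.aeval x : MvPolynomial (Fin n) k →ₐ[k] B).toRingHom.Etale)
    (w : Fin n → ℕ) (hw : ∃ i, 0 < w i) :
    ∃ (C : Subalgebra k K) (NA : Fam k K ℤ) (_ : Algebra NA.alg (wFam k K x w).alg)
      (_ : IsScalarTower k NA.alg (wFam k K x w).alg),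
      (∀ a, ∀ z ∈ NA.s a, z ∈ C) ∧ (∀ z ∈ C, z ∈ NA.s 0) ∧ (1 : K) ∈ NA.s (-1) ∧
      Nonempty (MvPolynomial (Option (Fin n)) k ≃ₐ[k] NA.alg) ∧
      (∀ r : NA.alg, ((algebraMap NA.alg (wFam k K x w).alg r : (wFam k K x w).alg) :
        AddMonoidAlgebra K ℤ) = r) ∧
      Algebra.Smooth NA.alg (wFam k K x w).alg := by
  classical
  let i1 : Algebra (MvPolynomial (Fin n) k) B :=
    (MvPolynomial.aeval x : MvPolynomial (Fin n) k →ₐ[k] B).toRingHom.toAlgebra
  have hi1 : ∀ f, algebraMap (MvPolynomial (Fin n) k) B f = MvPolynomial.aeval x f := fun _ => rfl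
  have i2 : Algebra.Etale (MvPolynomial (Fin n) k) B := hx
  let i3 : Algebra (MvPolynomial (Fin n) k) K :=
    ((algebraMap B K).comp (algebraMap (MvPolynomial (Fin n) k) B)).toAlgebra
  have i4 : IsScalarTower (MvPolynomial (Fin n) k) B K := IsScalarTower.of_algebraMap_eq
    fun _ => rfl
  have i5 : IsScalarTower k (MvPolynomial (Fin n) k) B := IsScalarTower.of_algebraMap_eq
    fun c => by rw [hi1, MvPolynomial.algebraMap_eq, MvPolynomial.aeval_C]
  have i6 : IsScalarTower k (MvPolynomial (Fin n) k) K := IsScalarTower.of_algebraMap_eq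
    fun c => by
      rw [IsScalarTower.algebraMap_apply (MvPolynomial (Fin n) k) B K,
        ← IsScalarTower.algebraMap_apply k (MvPolynomial (Fin n) k) B,
        ← IsScalarTower.algebraMap_apply]
  have : Nontrivial B := (algebraMap B K).domain_nontrivial
  have hPB : Function.Injective (algebraMap (MvPolynomial (Fin n) k) B) :=
    injective_of_etale x hx
  have hPK : Function.Injective (algebraMap (MvPolynomial (Fin n) k) K) := by
    rw [IsScalarTower.algebraMap_eq (MvPolynomial (Fin n) k) B K]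
    exact hinj.comp hPB
  let E : MvPolynomial (Fin n) k →ₐ[k] K := IsScalarTower.toAlgHom k _ K
  let F : ℕ → Submodule k K := fun i =>
    Submodule.span k {z | ∃ j, i ≤ w j ∧ z = E (MvPolynomial.X j)}
  have hEX : ∀ j, E (MvPolynomial.X j) = algebraMap B K (x j) := by
    intro j
    change algebraMap B K (algebraMap (MvPolynomial (Fin n) k) B (MvPolynomial.X j)) = _
    rw [hi1, MvPolynomial.aeval_X]
  have hpoly := H53.rees_poly (F := F) E hPK w (fun j => Submodule.subset_span ⟨j, le_rfl, rfl⟩)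
    fun i => le_rfl
  obtain ⟨i0, hi0⟩ := hw
  have c1 : ∀ a, ∀ z ∈ (H53.rees F).s a, z ∈ E.range := by
    intro a z hz
    have h1 : z ∈ E.range := by
      refine H53.rees_le E.range (F := F) ?_ hz
      intro i
      refine Submodule.span_le.2 ?_
      rintro _ ⟨j, -, rfl⟩
      exact ⟨_, rfl⟩
    exact h1
  have c2 : ∀ a, algebraMap (MvPolynomial (Fin n) k) K a ∈ (H53.rees F).s 0 := by
    intro a
    refine H53.mem_rees_zero ?_
    have h1 : (E.range : Subalgebra k K) ≤ Algebra.adjoin k (F 0 : Set K) := by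
      rw [← Algebra.map_top, ← MvPolynomial.adjoin_range_X, AlgHom.map_adjoin]
      refine Algebra.adjoin_mono ?_
      rintro _ ⟨_, ⟨j, rfl⟩, rfl⟩
      exact Submodule.subset_span ⟨j, Nat.zero_le _, rfl⟩
    exact h1 ⟨a, rfl⟩
  have c3 : ∀ a, (H53.rees F).s a ≤ (wFam k K x w).s a := by
    intro a z hz
    have h1 : (H53.rees F).alg ≤ (wFam k K x w).alg := by
      rw [H53.rees_alg]
      refine Algebra.adjoin_le ?_
      rintro G (hG | ⟨i, y, hy, rfl⟩)
      · rw [Set.mem_singleton_iff] at hG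
        rw [hG]
        refine Fam.single_mem_alg.2 ?_
        rw [← map_one (algebraMap B K)]
        exact map_mem_wFam_nonpos (by norm_num) 1
      · refine Fam.single_mem_alg.2 ?_
        refine (show F i ≤ (wFam k K x w).s i from Submodule.span_le.2 ?_) hy
        rintro _ ⟨j, hj, rfl⟩
        rw [hEX]
        exact map_mem_wFam_nat (wIdeal_anti hj (x_mem j))
    exact Fam.single_mem_alg.1 (h1 (Fam.single_mem_alg.2 hz))
  have c4 : ∀ a, (wFam k K x w).s a ≤ Submodule.span k
      {z | ∃ b : B, ∃ x ∈ (H53.rees F).s a, z = algebraMap B K b * x} := by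
    rintro a _ ⟨b, hb, rfl⟩
    have hxm : ∀ α : Fin n → ℕ, a.toNat ≤ ∑ i, α i * w i →
        algebraMap B K (∏ i, x i ^ α i) ∈ (H53.rees F).s a := by
      intro α hα
      have h1 : algebraMap B K (∏ i, x i ^ α i) ∈
          (H53.rees F).s ((∑ i, α i * w i : ℕ) : ℤ) := by
        rw [map_prod]
        have h2 : ∀ s : Finset (Fin n), ∏ i ∈ s, algebraMap B K (x i ^ α i) ∈
            (H53.rees F).s ((∑ i ∈ s, α i * w i : ℕ) : ℤ) := by
          intro s
          induction s using Finset.induction_on with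
          | empty => simpa using (H53.rees F).one'
          | insert i s hi ih =>
            rw [Finset.prod_insert hi, Finset.sum_insert hi, Nat.cast_add]
            refine (H53.rees F).mul' ?_ ih
            have h3 : algebraMap B K (x i) ∈ (H53.rees F).s (w i) := by
              rw [← hEX]
              exact H53.F_le_rees _ (Submodule.subset_span ⟨i, le_rfl, rfl⟩)
            have h4 := (H53.rees F).pow' h3 (α i)
            rw [map_pow]
            rw [nsmul_eq_mul] at h4
            exact_mod_cast h4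
        exact h2 Finset.univ
      refine Fam.mem_of_le _ H53.t_mem_rees ?_ h1
      omega
    change algebraMap B K b ∈ _
    change b ∈ wIdeal x w a.toNat at hb
    rw [wIdeal] at hb
    refine Submodule.span_induction ?_ ?_ ?_ ?_ hb
    · rintro _ ⟨α, hα, rfl⟩
      refine Submodule.subset_span ⟨1, _, hxm α hα, by rw [map_one, one_mul]⟩
    · rw [map_zero]; exact Submodule.zero_mem _
    · intro y z _ _ hy hz
      rw [map_add]; exact Submodule.add_mem _ hy hz
    · intro c y _ hy
      rw [smul_eq_mul, map_mul]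
      refine Submodule.span_induction (p := fun y _ => algebraMap B K c * y ∈ Submodule.span k
        {z | ∃ b : B, ∃ x ∈ (H53.rees F).s a, z = algebraMap B K b * x}) ?_ ?_ ?_ ?_ hy
      · rintro _ ⟨b', y', hy', rfl⟩
        exact Submodule.subset_span ⟨c * b', y', hy', by rw [map_mul]; ring⟩
      · rw [mul_zero]; exact Submodule.zero_mem _
      · intro y z _ _ hy hz
        rw [mul_add]; exact Submodule.add_mem _ hy hz
      · intro r y _ hy
        rw [mul_smul_comm]; exact Submodule.smul_mem _ _ hy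
  have c5 : ∀ a : ℤ, ∃ d : ℕ, algebraMap (MvPolynomial (Fin n) k) K (MvPolynomial.X i0) ^ d ∈
      (H53.rees F).s a := by
    intro a
    refine ⟨a.toNat, ?_⟩
    have h3 : algebraMap (MvPolynomial (Fin n) k) K (MvPolynomial.X i0) ∈
        (H53.rees F).s (w i0) :=
      H53.F_le_rees _ (Submodule.subset_span ⟨i0, le_rfl, rfl⟩)
    have h4 := (H53.rees F).pow' h3 a.toNat
    refine Fam.mem_of_le _ H53.t_mem_rees ?_ h4
    rw [nsmul_eq_mul]
    have h5 : (1 : ℤ) ≤ w i0 := by exact_mod_cast hi0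
    have h6 : a ≤ a.toNat := Int.self_le_toNat a
    nlinarith
  obtain ⟨j1, j2, j3, j4, hj5, ⟨ee⟩⟩ := base_change (A := MvPolynomial (Fin n) k) (B := B) hPK hinj
    (inferInstance) (H53.rees F) (wFam k K x w) c1 c2 (fun b => map_mem_wFam_nonpos le_rfl b)
    c3 c4 (MvPolynomial.X i0) (MvPolynomial.X_ne_zero i0) c5
  · refine ⟨E.range, H53.rees F, j3, j4, c1, ?_, H53.t_mem_rees, hpoly, hj5, ?_⟩
    · rintro _ ⟨f, rfl⟩
      exact c2 f
    · exact smooth_of_tensor (A := MvPolynomial (Fin n) k) (B := B) ee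

/-- The extended Rees algebra of the weighted filtration given by étale coordinates is smooth. -/
theorem wFam_smooth_fg (hinj : Function.Injective (algebraMap B K)) (x : Fin n → B)
    (hx : (MvPolynomial.aeval x : MvPolynomial (Fin n) k →ₐ[k] B).toRingHom.Etale)
    (w : Fin n → ℕ) (hw : ∃ i, 0 < w i) :
    Algebra.FiniteType k (wFam k K x w).alg ∧ Algebra.FormallySmooth k (wFam k K x w).alg := by
  obtain ⟨C, NA, i1, i2, -, -, -, ⟨e⟩, -, hsm⟩ := wFam_base (k := k) (K := K) hinj x hx w hw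
  have h1 : Algebra.FiniteType k NA.alg := Algebra.FiniteType.equiv inferInstance e
  have h2 : Algebra.FormallySmooth k NA.alg := .of_equiv e
  have h3 : Algebra.FiniteType NA.alg (wFam k K x w).alg := inferInstance
  exact ⟨Algebra.FiniteType.trans h1 h3, Algebra.FormallySmooth.comp k NA.alg _⟩

end etale

end Pool.Agent.MP_b525bf_ag_h5
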