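import Mathlib
import Pool.Agent.Lib.MP_b525bf_ag_h5.Weight

/-!
The weighted filtration is closed under taking roots.
-/

set_option autoImplicit false

namespace Pool.Agent.MP_b525bf_ag_h5

open Pool.Agent.MP_b525bf_ag AddMonoidAlgebra TensorProduct

/-- If `R` is integrally closed in `T`, `S` is smooth over `R`, and a power of an element of
`S ⊗ T` is in the image of `S`, then the element is in the image of `S`. -/
lemma mem_range_of_pow {R S T : Type} [CommRing R] [CommRing S] [CommRing T] [Algebra R S]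
    [Algebra R T] [Algebra.Smooth R S]
    (hR : ∀ y : T, IsIntegral R y → ∃ r, algebraMap R T r = y) (y : S ⊗[R] T) {m : ℕ} (hm : 0 < m)
    (s : S) (hy : y ^ m = s ⊗ₜ 1) : ∃ s' : S, y = s' ⊗ₜ 1 := by
  have h1 : IsIntegral S y := by
    refine IsIntegral.of_pow hm ?_
    rw [hy]
    exact isIntegral_algebraMap
  obtain ⟨c, hc⟩ := (TensorProduct.toIntegralClosure_bijective_of_smooth (R := R) (S := S)
    (B := T)).2 ⟨y, h1⟩
  have key : ∀ c : S ⊗[R] integralClosure R T, ∃ s' : S,
      ((TensorProduct.toIntegralClosure R S T c : integralClosure S (S ⊗[R] T)) : S ⊗[R] T) =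
        s' ⊗ₜ 1 := by
    intro c
    induction c with
    | zero => exact ⟨0, by simp⟩
    | add a b ha hb =>
      obtain ⟨u, hu⟩ := ha
      obtain ⟨v, hv⟩ := hb
      refine ⟨u + v, ?_⟩
      rw [map_add, AddMemClass.coe_add, hu, hv, TensorProduct.add_tmul]
    | tmul a b =>
      obtain ⟨r, hr⟩ := hR b.1 b.2
      refine ⟨r • a, ?_⟩
      have h2 : ((TensorProduct.toIntegralClosure R S T (a ⊗ₜ b) :
        integralClosure S (S ⊗[R] T)) : S ⊗[R] T) = a ⊗ₜ (b : T) := rfl
      rw [h2, ← hr, Algebra.algebraMap_eq_smul_one, TensorProduct.tmul_smul,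
        TensorProduct.smul_tmul']
  obtain ⟨s', hs'⟩ := key c
  rw [hc] at hs'
  exact ⟨s', hs'⟩

/-- Integral closedness of a polynomial ring in the ring obtained by inverting an element. -/
lemma integral_mem {R T : Type} [CommRing R] [IsDomain R] [IsIntegrallyClosed R] [CommRing T]
    [IsDomain T] [Algebra R T] (hinj : Function.Injective (algebraMap R T))
    (y : T) (hy : IsIntegral R y) (t : R) (ht : t ≠ 0) (r : R)
    (h : algebraMap R T t * y = algebraMap R T r) : ∃ r', algebraMap R T r' = y := by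
  let Q := FractionRing T
  have hRQ : Function.Injective (algebraMap R Q) := by
    rw [IsScalarTower.algebraMap_eq R T Q]
    exact (IsFractionRing.injective T Q).comp hinj
  let θ : FractionRing R →ₐ[R] Q := IsFractionRing.liftAlgHom (g := Algebra.ofId R Q) hRQ
  have hθinj : Function.Injective θ := θ.toRingHom.injective
  set q : FractionRing R := algebraMap R _ r / algebraMap R _ t with hq
  have ht' : algebraMap R Q t ≠ 0 := by
    rw [Ne, map_eq_zero_iff _ hRQ]; exact ht
  have hθq : θ q = algebraMap T Q y := by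
    rw [hq, map_div₀, AlgHom.commutes, AlgHom.commutes, div_eq_iff ht',
      IsScalarTower.algebraMap_apply R T Q, IsScalarTower.algebraMap_apply R T Q, ← h, map_mul,
      mul_comm]
  have h1 : IsIntegral R (θ q) := by
    rw [hθq]
    exact hy.map (IsScalarTower.toAlgHom R T Q)
  have h2 : IsIntegral R q := (isIntegral_algHom_iff θ hθinj).1 h1
  obtain ⟨r', hr'⟩ := IsIntegrallyClosed.isIntegral_iff.1 h2
  refine ⟨r', ?_⟩
  apply IsFractionRing.injective T Q
  rw [← hθq, ← hr', AlgHom.commutes, ← IsScalarTower.algebraMap_apply]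

section

variable {k K : Type} [Field k] [Field K] [Algebra k K] {B : Type} [CommRing B] [Algebra k B]
  [Algebra B K] [IsScalarTower k B K] {n : ℕ}

theorem pow_closed (k K : Type) [Field k] [Field K] [Algebra k K] {B : Type} [CommRing B]
    [Algebra k B] [Algebra B K] [IsScalarTower k B K] {n : ℕ}
    (hinj : Function.Injective (algebraMap B K)) (x : Fin n → B)
    (hx : (MvPolynomial.aeval x : MvPolynomial (Fin n) k →ₐ[k] B).toRingHom.Etale)
    (w : Fin n → ℕ) (hw : ∃ i, 0 < w i) {z : B} {m a : ℕ} (hm : 0 < m)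
    (h : z ^ m ∈ wIdeal x w (m * a)) : z ∈ wIdeal x w a := by
  classical
  obtain ⟨C, NA, i1, i2, hC, hC0, ht, ⟨e⟩, hmap, hsm⟩ :=
    wFam_base (k := k) (K := K) hinj x hx w hw
  -- the ring of Laurent polynomials
  have hinc : NA.alg ≤ (H53.constFam C).alg := fun G hG a => hC a _ (hG a)
  let i3 : Algebra NA.alg (H53.constFam C).alg := (Subalgebra.inclusion hinc).toRingHom.toAlgebra
  have hmap' : ∀ r : NA.alg, ((algebraMap NA.alg (H53.constFam C).alg r : (H53.constFam C).alg) :
      AddMonoidAlgebra K ℤ) = r := fun _ => rfl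
  have hone : (1 : K) ∈ C := C.one_mem
  have hdeg : ∀ d : ℕ, (1 : K) ∈ NA.s (-(d : ℤ)) := by
    intro d
    have := NA.pow' ht d
    rw [one_pow] at this
    have e1 : d • (-1 : ℤ) = -(d : ℤ) := by simp
    rwa [e1] at this
  have hicl : IsIntegrallyClosed NA.alg := by
    have : IsIntegrallyClosed (MvPolynomial (Option (Fin n)) k) := inferInstance
    exact IsIntegrallyClosed.of_equiv e.toRingEquiv
  have hR : ∀ y : (H53.constFam C).alg, IsIntegral NA.alg y →
      ∃ r, algebraMap NA.alg (H53.constFam C).alg r = y := by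
    intro y hy
    -- a power of `t` moves `y` into `NA.alg`
    obtain ⟨d, hd⟩ : ∃ d : ℕ, ∀ a ∈ (y : AddMonoidAlgebra K ℤ).coeff.support, a ≤ d := by
      refine ⟨∑ a ∈ (y : AddMonoidAlgebra K ℤ).coeff.support, a.toNat, fun a ha => ?_⟩
      have h1 : a.toNat ≤ ∑ n ∈ (y : AddMonoidAlgebra K ℤ).coeff.support, n.toNat :=
        Finset.single_le_sum (f := fun n : ℤ => n.toNat) (fun _ _ => Nat.zero_le _) ha
      have h2 := Int.self_le_toNat a
      omega
    have hmem : (single (-(d : ℤ)) (1 : K) * (y : AddMonoidAlgebra K ℤ)) ∈ NA.alg := by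
      intro a
      have h1 : (single (-(d : ℤ)) (1 : K) * (y : AddMonoidAlgebra K ℤ)).coeff a =
          (y : AddMonoidAlgebra K ℤ).coeff (a + d) := by
        rw [coeff_single_mul_eq_mul_coeff (a + d) (by intro b _; constructor <;> intro h <;> omega)]
        rw [one_mul]
      rw [h1]
      by_cases h0 : (y : AddMonoidAlgebra K ℤ).coeff (a + d) = 0
      · rw [h0]; exact Submodule.zero_mem _
      · have h2 := hd (a + d) (by simpa using h0)
        have h3 := NA.mul' (hC0 _ (y.2 (a + d))) (hdeg (-a).toNat)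
        have e1 : (0 : ℤ) + -((-a).toNat : ℤ) = a := by
          rw [Int.toNat_of_nonneg (by omega)]; ring
        rwa [mul_one, e1] at h3
    refine integral_mem (fun a b hab => by
      have h := congrArg (fun F : (H53.constFam C).alg => (F : AddMonoidAlgebra K ℤ)) hab
      exact Subtype.ext h) y hy (NA.el (hdeg d)) ?_ ⟨_, hmem⟩ ?_
    · intro h0
      have h1 : (NA.el (hdeg d) : AddMonoidAlgebra K ℤ) = 0 :=
        congrArg (fun F : NA.alg => (F : AddMonoidAlgebra K ℤ)) h0
      rw [Fam.coe_el, AddMonoidAlgebra.single_eq_zero] at h1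
      exact one_ne_zero h1
    · exact Subtype.ext rfl
  -- the elements
  let S := (wFam k K x w).alg
  have hz0 : algebraMap B K z ∈ (wFam k K x w).s 0 := map_mem_wFam_nonpos le_rfl z
  let sz : S := (wFam k K x w).el hz0
  have hT : ∀ d : ℕ, (1 : K) ∈ (H53.constFam C).s d := fun _ => hone
  let bT : (H53.constFam C).alg := (H53.constFam C).el (hT a)
  have hs1 : algebraMap B K (z ^ m) ∈ (wFam k K x w).s ((m * a : ℕ) : ℤ) := map_mem_wFam_nat h
  let s1 : S := (wFam k K x w).el hs1
  have hpow : (sz ⊗ₜ[NA.alg] bT) ^ m = s1 ⊗ₜ 1 := by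
    rw [Algebra.TensorProduct.tmul_pow]
    have h1 : bT ^ m = (H53.constFam C).el (hT (m * a)) := by
      rw [Fam.el_pow]
      refine Fam.el_eq _ _ _ ?_ (one_pow m)
      rw [nsmul_eq_mul]; push_cast; rfl
    have h2 : sz ^ m = NA.el (hdeg (m * a)) • s1 := by
      rw [Algebra.smul_def]
      refine Subtype.ext ?_
      rw [MulMemClass.coe_mul, hmap]
      change (single 0 (algebraMap B K z)) ^ m = single _ _ * single _ _
      rw [single_pow, single_mul_single, one_mul, map_pow]
      congr 1
      simp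
    rw [h1, h2, TensorProduct.smul_tmul]
    congr 1
    rw [Algebra.smul_def]
    refine Subtype.ext ?_
    change single _ _ * single _ _ = (1 : AddMonoidAlgebra K ℤ)
    rw [single_mul_single, AddMonoidAlgebra.one_def]
    congr 1
    · simp
    · simp
  obtain ⟨s', hs'⟩ := mem_range_of_pow hR _ hm s1 hpow
  -- map to `K[T, T⁻¹]`
  let φ1 : S →ₐ[NA.alg] AddMonoidAlgebra K ℤ :=
    { (wFam k K x w).alg.val.toRingHom with commutes' := fun r => hmap r }
  let φ2 : (H53.constFam C).alg →ₐ[NA.alg] AddMonoidAlgebra K ℤ :=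
    { (H53.constFam C).alg.val.toRingHom with commutes' := fun r => hmap' r }
  have h1 := congrArg (Algebra.TensorProduct.productMap φ1 φ2) hs'
  rw [Algebra.TensorProduct.productMap_apply_tmul, Algebra.TensorProduct.productMap_apply_tmul,
    map_one, mul_one] at h1
  have h2 : single (a : ℤ) (algebraMap B K z) = (s' : AddMonoidAlgebra K ℤ) := by
    rw [← show φ1 s' = (s' : AddMonoidAlgebra K ℤ) from rfl, ← h1]
    change _ = single 0 (algebraMap B K z) * single (a : ℤ) 1
    rw [single_mul_single, zero_add, mul_one]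
  have h3 : algebraMap B K z ∈ (wFam k K x w).s a := by
    rw [← Fam.single_mem_alg, h2]
    exact s'.2
  obtain ⟨b, hb, hbz⟩ := h3
  have h4 : b = z := hinj hbz
  rw [← h4]
  exact hb

/-- The sharper form. -/
theorem pow_closed' (k K : Type) [Field k] [Field K] [Algebra k K] {B : Type} [CommRing B]
    [Algebra k B] [Algebra B K] [IsScalarTower k B K] {n : ℕ}
    (hinj : Function.Injective (algebraMap B K)) (x : Fin n → B)
    (hx : (MvPolynomial.aeval x : MvPolynomial (Fin n) k →ₐ[k] B).toRingHom.Etale)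
    (w : Fin n → ℕ) (hw : ∃ i, 0 < w i) {z : B} {m c v : ℕ} (hm : 0 < m)
    (h : z ^ m ∈ wIdeal x w c) (hv : m * v < c + m) : z ∈ wIdeal x w v := by
  have h1 : wIdeal x w c ≤ wIdeal x (fun i => m * w i) (m * c) := by
    refine Ideal.span_le.2 ?_
    rintro _ ⟨α, hα, rfl⟩
    refine monom_mem ?_
    have : ∑ i, α i * (m * w i) = m * ∑ i, α i * w i := by
      rw [Finset.mul_sum]
      exact Finset.sum_congr rfl fun i _ => by ring
    rw [this]
    exact Nat.mul_le_mul_left m hα
  have h2 : z ∈ wIdeal x (fun i => m * w i) c := by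
    obtain ⟨i, hi⟩ := hw
    exact pow_closed k K hinj x hx (fun i => m * w i) ⟨i, Nat.mul_pos hm hi⟩ hm (h1 h)
  have h3 : wIdeal x (fun i => m * w i) c ≤ wIdeal x w v := by
    refine Ideal.span_le.2 ?_
    rintro _ ⟨α, hα, rfl⟩
    refine monom_mem ?_
    have : ∑ i, α i * (m * w i) = m * ∑ i, α i * w i := by
      rw [Finset.mul_sum]
      exact Finset.sum_congr rfl fun i _ => by ring
    rw [this] at hα
    by_contra hcon
    push Not at hcon
    have h4 : m * (∑ i, α i * w i + 1) ≤ m * v := Nat.mul_le_mul_left m hcon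
    rw [mul_add, mul_one] at h4
    omega
  exact h3 h2

end

end Pool.Agent.MP_b525bf_ag_h5
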