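import Mathlib
import Pool.Agent.Lib.MP_b525bf_ag.FamLoc
import Pool.Agent.Lib.MP_b525bf_ag.Descent

/-!
Fixed rings of automorphisms of prime order, and invariants of graded families.
-/

set_option autoImplicit false

namespace Pool.Agent.MP_b525bf_ag_h5

open Pool.Agent.MP_b525bf_ag AddMonoidAlgebra

section fixed

variable {k R : Type} [Field k] [CommRing R] [Algebra k R]

lemma mem_fixed {σ : R ≃ₐ[k] R} {x : R} : x ∈ fixedSub σ ↔ σ x = x := Iff.rfl

lemma pow_fix {σ : R ≃ₐ[k] R} {x : R} (h : σ x = x) (j : ℕ) : (σ ^ j) x = x := by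
  induction j with
  | zero => rfl
  | succ j ih => rw [pow_succ', AlgEquiv.mul_apply, ih, h]

variable {p : ℕ} (σ : R ≃ₐ[k] R) (hσ : σ ^ p = 1) (hp : 0 < p)

include hσ hp in
lemma finite_zpowers' : Finite (Subgroup.zpowers σ) := by
  exact (finite_zpowers.mpr (isOfFinOrder_iff_pow_eq_one.mpr ⟨p, hp, hσ⟩)).to_subtype

instance isInvariant_zpowers : Algebra.IsInvariant (fixedSub σ) R (Subgroup.zpowers σ) where
  isInvariant b hb := by
    refine ⟨⟨b, ?_⟩, rfl⟩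
    exact hb ⟨σ, Subgroup.mem_zpowers σ⟩

include hσ hp in
lemma isIntegral_fixed : Algebra.IsIntegral (fixedSub σ) R := by
  have := finite_zpowers' σ hσ hp
  exact Algebra.IsInvariant.isIntegral (fixedSub σ) R (Subgroup.zpowers σ)

include hσ hp in
/-- Noether: the fixed ring is of finite type. -/
lemma finiteType_fixed (h : Algebra.FiniteType k R) : Algebra.FiniteType k (fixedSub σ) := by
  have h1 := isIntegral_fixed σ hσ hp
  have h2 : Algebra.FiniteType (fixedSub σ) R :=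
    Algebra.FiniteType.of_restrictScalars_finiteType k _ _
  have h3 : Module.Finite (fixedSub σ) R := Algebra.IsIntegral.finite
  refine ⟨fg_of_fg_of_fg k (fixedSub σ) R h.1 h3.1 Subtype.val_injective⟩

include hσ hp in
lemma exists_prime_over_fixed (P : Ideal (fixedSub σ)) [P.IsPrime] :
    ∃ Q : Ideal R, Q.IsPrime ∧ ∀ x : fixedSub σ, (x : R) ∈ Q ↔ x ∈ P := by
  have h1 := isIntegral_fixed σ hσ hp
  obtain ⟨Q, -, hQ, hQP⟩ := Ideal.exists_ideal_over_prime_of_isIntegral P (⊥ : Ideal R) (by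
    intro x hx
    have : x = 0 := Subtype.ext hx
    rw [this]
    exact zero_mem _)
  refine ⟨Q, hQ, fun x => ?_⟩
  rw [← hQP]
  rfl

end fixed

section inv

variable {k K ι : Type} [Field k] [Field K] [Algebra k K] [AddCommGroup ι]

/-- The invariants of a graded family. -/
def invFam (N : Fam k K ι) (σ : K ≃ₐ[k] K) : Fam k K ι where
  s a := N.s a ⊓ Subalgebra.toSubmodule (fixedSub σ)
  one' := ⟨N.one', (fixedSub σ).one_mem⟩
  mul' := by
    rintro a b x y ⟨hx, hx'⟩ ⟨hy, hy'⟩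
    exact ⟨N.mul' hx hy, (fixedSub σ).mul_mem hx' hy'⟩

lemma mem_invFam {N : Fam k K ι} {σ : K ≃ₐ[k] K} {a : ι} {x : K} :
    x ∈ (invFam N σ).s a ↔ x ∈ N.s a ∧ σ x = x := Iff.rfl

/-- The family is stable under the automorphism. -/
def Stable (N : Fam k K ι) (σ : K ≃ₐ[k] K) : Prop := ∀ a, ∀ x ∈ N.s a, σ x ∈ N.s a

lemma Stable.pow {N : Fam k K ι} {σ : K ≃ₐ[k] K} (h : Stable N σ) (j : ℕ) {a : ι} {x : K}
    (hx : x ∈ N.s a) : (σ ^ j) x ∈ N.s a := by
  induction j with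
  | zero => exact hx
  | succ j ih => rw [pow_succ', AlgEquiv.mul_apply]; exact h a _ ih

lemma Stable.symm {N : Fam k K ι} {σ : K ≃ₐ[k] K} (h : Stable N σ) {p : ℕ} (hp : 0 < p)
    (hσ : σ ^ p = 1) : Stable N σ.symm := by
  intro a x hx
  have h1 : σ.symm = σ ^ (p - 1) := by
    have : σ⁻¹ = σ ^ (p - 1) := by
      rw [inv_eq_iff_mul_eq_one, ← pow_succ', Nat.sub_add_cancel hp, hσ]
    exact this
  rw [h1]
  exact h.pow _ hx

lemma mae_coeff (σ : K ≃ₐ[k] K) (F : AddMonoidAlgebra K ι) (a : ι) :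
    (mapAlgEquiv k ι σ F).coeff a = σ (F.coeff a) := by
  change (mapAlgHom ι (σ : K →ₐ[k] K) F).coeff a = _
  rw [coeff_mapAlgHom]
  rfl

lemma mae_single (σ : K ≃ₐ[k] K) (x : K) (a : ι) :
    mapAlgEquiv k ι σ (single a x) = single a (σ x) := by
  change mapAlgHom ι (σ : K →ₐ[k] K) (single a x) = _
  rw [mapAlgHom_single]
  rfl

/-- The action on the graded algebra. -/
noncomputable def actAlg (N : Fam k K ι) (σ : K ≃ₐ[k] K) (h : Stable N σ)
    (h' : Stable N σ.symm) : N.alg ≃ₐ[k] N.alg where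
  toFun F := ⟨mapAlgEquiv k ι σ F.1, fun a => by
    rw [mae_coeff]; exact h a _ (F.2 a)⟩
  invFun F := ⟨mapAlgEquiv k ι σ.symm F.1, fun a => by
    rw [mae_coeff]; exact h' a _ (F.2 a)⟩
  left_inv F := Subtype.ext (by
    change (mapAlgEquiv k ι σ).symm (mapAlgEquiv k ι σ F.1) = F.1
    rw [AlgEquiv.symm_apply_apply])
  right_inv F := Subtype.ext (by
    change (mapAlgEquiv k ι σ) ((mapAlgEquiv k ι σ).symm F.1) = F.1
    rw [AlgEquiv.apply_symm_apply])
  map_mul' F G := Subtype.ext (map_mul (mapAlgEquiv k ι σ) F.1 G.1)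
  map_add' F G := Subtype.ext (map_add (mapAlgEquiv k ι σ) F.1 G.1)
  commutes' c := Subtype.ext ((mapAlgEquiv k ι σ).commutes c)

lemma actAlg_coeff (N : Fam k K ι) (σ : K ≃ₐ[k] K) (h : Stable N σ)
    (h' : Stable N σ.symm) (F : N.alg) (a : ι) :
    ((actAlg N σ h h' F : N.alg) : AddMonoidAlgebra K ι).coeff a = σ (F.1.coeff a) := by
  change (mapAlgEquiv k ι σ F.1).coeff a = _
  rw [mae_coeff]

lemma actAlg_el (N : Fam k K ι) (σ : K ≃ₐ[k] K) (h : Stable N σ)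
    (h' : Stable N σ.symm) {a : ι} {x : K} (hx : x ∈ N.s a) :
    actAlg N σ h h' (N.el hx) = N.el (h a x hx) := by
  refine Subtype.ext ?_
  change mapAlgEquiv k ι σ (single a x) = single a (σ x)
  rw [mae_single]

lemma actAlg_pow_el (N : Fam k K ι) (σ : K ≃ₐ[k] K) (h : Stable N σ)
    (h' : Stable N σ.symm) (j : ℕ) {a : ι} {x : K} (hx : x ∈ N.s a) :
    (actAlg N σ h h' ^ j) (N.el hx) = N.el (h.pow j hx) := by
  induction j with
  | zero => rfl
  | succ j ih =>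
    rw [pow_succ', AlgEquiv.mul_apply, ih, actAlg_el]
    refine Fam.el_eq _ _ (h.pow (j + 1) hx) rfl ?_
    rw [pow_succ', AlgEquiv.mul_apply]

lemma actAlg_pow (N : Fam k K ι) (σ : K ≃ₐ[k] K) (h : Stable N σ)
    (h' : Stable N σ.symm) {p : ℕ} (hσ : σ ^ p = 1) : actAlg N σ h h' ^ p = 1 := by
  refine AlgEquiv.ext fun F => ?_
  refine Fam.alg_induction N (p := fun F => (actAlg N σ h h' ^ p) F = (1 : N.alg ≃ₐ[k] N.alg) F)
    ?_ ?_ ?_ F
  · rw [map_zero, map_zero]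
  · intro F G hF hG
    rw [map_add, map_add, hF, hG]
  · intro a x hx
    rw [actAlg_pow_el]
    refine Fam.el_eq _ _ hx rfl ?_
    rw [hσ]
    rfl

/-- The fixed ring is the graded algebra of invariants. -/
noncomputable def invEquiv (N : Fam k K ι) (σ : K ≃ₐ[k] K) (h : Stable N σ)
    (h' : Stable N σ.symm) : fixedSub (actAlg N σ h h') ≃ₐ[k] (invFam N σ).alg where
  toFun F := ⟨F.1.1, fun a => ⟨F.1.2 a, by
    have h1 : actAlg N σ h h' F.1 = F.1 := F.2
    have h2 := actAlg_coeff N σ h h' F.1 a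
    rw [h1] at h2
    exact h2.symm⟩⟩
  invFun F := ⟨⟨F.1, fun a => (F.2 a).1⟩, by
    rw [mem_fixed]
    refine Subtype.ext ?_
    ext a
    rw [actAlg_coeff]
    exact (F.2 a).2⟩
  left_inv F := rfl
  right_inv F := rfl
  map_mul' F G := rfl
  map_add' F G := rfl
  commutes' c := rfl

lemma fg_invFam (N : Fam k K ι) (σ : K ≃ₐ[k] K) (h : Stable N σ) {p : ℕ} (hp : 0 < p)
    (hσ : σ ^ p = 1) (hfg : N.alg.FG) : (invFam N σ).alg.FG := by
  have h' := h.symm hp hσ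
  have h1 := finiteType_fixed (actAlg N σ h h') (actAlg_pow N σ h h' hσ) hp
    (N.finiteType_alg hfg)
  have h2 : Algebra.FiniteType k (invFam N σ).alg :=
    Algebra.FiniteType.equiv h1 (invEquiv N σ h h')
  exact (Subalgebra.fg_iff_finiteType _).2 h2

/-- The inclusion of the invariants. -/
noncomputable def invIncl (N : Fam k K ι) (σ : K ≃ₐ[k] K) : (invFam N σ).alg →ₐ[k] N.alg :=
  Subalgebra.inclusion fun _ hF a => (hF a).1

lemma invIncl_el (N : Fam k K ι) (σ : K ≃ₐ[k] K) {a : ι} {x : K} (hx : x ∈ (invFam N σ).s a) :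
    invIncl N σ ((invFam N σ).el hx) = N.el hx.1 := rfl

lemma invEquiv_symm_coe (N : Fam k K ι) (σ : K ≃ₐ[k] K) (h : Stable N σ)
    (h' : Stable N σ.symm) (x : (invFam N σ).alg) :
    (((invEquiv N σ h h').symm x : fixedSub (actAlg N σ h h')) : N.alg) = invIncl N σ x := rfl

lemma exists_prime_over (N : Fam k K ι) (σ : K ≃ₐ[k] K) (h : Stable N σ) {p : ℕ} (hp : 0 < p)
    (hσ : σ ^ p = 1) (q : Ideal (invFam N σ).alg) [q.IsPrime] :
    ∃ Q : Ideal N.alg, Q.IsPrime ∧ ∀ x, invIncl N σ x ∈ Q ↔ x ∈ q := by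
  have h' := h.symm hp hσ
  obtain ⟨P, hPdef⟩ : ∃ P : Ideal (fixedSub (actAlg N σ h h')), P = q.comap (invEquiv N σ h h') :=
    ⟨_, rfl⟩
  have hP : P.IsPrime := by rw [hPdef]; exact Ideal.comap_isPrime _ q
  obtain ⟨Q, hQ, hQP⟩ := exists_prime_over_fixed (actAlg N σ h h') (actAlg_pow N σ h h' hσ) hp P
  refine ⟨Q, hQ, fun x => ?_⟩
  rw [← invEquiv_symm_coe N σ h h', hQP, hPdef, Ideal.mem_comap, AlgEquiv.apply_symm_apply]

lemma Stable.loc {N : Fam k K ι} {σ : K ≃ₐ[k] K} (h : Stable N σ) {a : ι} {x : K}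
    (hx : x ∈ N.s a) (hfix : σ x = x) : Stable (N.loc hx) σ := by
  rintro b y ⟨m, hm⟩
  refine ⟨m, ?_⟩
  have := h _ _ hm
  rwa [map_mul, map_pow, hfix] at this

lemma invFam_loc (N : Fam k K ι) (σ : K ≃ₐ[k] K) {a : ι} {x : K}
    (hx : x ∈ (invFam N σ).s a) (hx0 : x ≠ 0) :
    (invFam N σ).loc hx = invFam (N.loc hx.1) σ := by
  ext b y
  constructor
  · rintro ⟨m, hm, hm'⟩
    refine ⟨⟨m, hm⟩, ?_⟩
    have h1 : σ (x ^ m * y) = x ^ m * y := hm'
    have h2 : σ x = x := hx.2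
    rw [map_mul, map_pow, h2] at h1
    exact mul_left_cancel₀ (pow_ne_zero m hx0) h1
  · rintro ⟨⟨m, hm⟩, hy⟩
    have h1 : σ y = y := hy
    have h2 : σ x = x := hx.2
    refine ⟨m, hm, ?_⟩
    change σ (x ^ m * y) = x ^ m * y
    rw [map_mul, map_pow, h1, h2]

end inv

end Pool.Agent.MP_b525bf_ag_h5
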