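import Mathlib
import Pool.Agent.Lib.MP_b525bf_ag_h5.Fixed

/-!
Good families from filtered actions of a group of order `p`.
-/

set_option autoImplicit false

namespace Pool.Agent.MP_b525bf_ag_h5

open Pool.Agent.MP_b525bf_ag AddMonoidAlgebra

variable {k K : Type} [Field k] [Field K] [Algebra k K]

lemma isDomain_alg (N : Fam k K ℤ) : IsDomain N.alg := inferInstance

lemma el_sub (N : Fam k K ℤ) {a : ℤ} {x y : K} (hx : x ∈ N.s a) (hy : y ∈ N.s a) :
    N.el hx - N.el hy = N.el (Submodule.sub_mem _ hx hy) := by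
  refine Subtype.ext ?_
  change (single a x - single a y : AddMonoidAlgebra K ℤ) = single a (x - y)
  rw [single_sub]

lemma el_add (N : Fam k K ℤ) {a : ℤ} {x y : K} (hx : x ∈ N.s a) (hy : y ∈ N.s a) :
    N.el hx + N.el hy = N.el (Submodule.add_mem _ hx hy) := by
  refine Subtype.ext ?_
  change (single a x + single a y : AddMonoidAlgebra K ℤ) = single a (x + y)
  rw [single_add]

lemma el_eq_zero (N : Fam k K ℤ) {a : ℤ} {x : K} (hx : x ∈ N.s a) (h : x = 0) :
    N.el hx = 0 := by
  subst h
  exact Subtype.ext (by simp)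

lemma el_T_mul (N : Fam k K ℤ) {e : ℕ} (h1 : (1 : K) ∈ N.s (-(e : ℤ))) {a : ℤ} {x : K}
    (hx : x ∈ N.s (a + e)) (hx' : x ∈ N.s a) : N.el h1 * N.el hx = N.el hx' := by
  rw [Fam.el_mul]
  exact Fam.el_eq _ _ _ (by ring) (one_mul x)

/-- The main smoothness criterion, for homogeneous data. -/
theorem smooth_of_unit {p : ℕ} [Fact p.Prime] (N : Fam k K ℤ) (σ : K ≃ₐ[k] K)
    (hσ : σ ^ p = 1) (e : ℕ) (h1 : (1 : K) ∈ N.s (-(e : ℤ))) (hst : Stable N σ)
    (hδ : ∀ a, ∀ x ∈ N.s a, σ x - x ∈ N.s (a + e)) (hsm : Algebra.FormallySmooth k N.alg)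
    {a : ℤ} {y : K} (hy : y ∈ N.s a)
    (hu : ∀ j, 0 < j → j < p → (σ ^ j) y - y ≠ 0 ∧ (σ ^ j) y - y ∈ N.s (a + e) ∧
      ((σ ^ j) y - y)⁻¹ ∈ N.s (-(a + e))) :
    Algebra.FormallySmooth k (invFam N σ).alg := by
  have hp : 0 < p := (Fact.out : p.Prime).pos
  have hst' := hst.symm hp hσ
  have hT0 : N.el h1 ≠ 0 := by
    intro h
    have := congrArg (fun F : N.alg => (F : AddMonoidAlgebra K ℤ).coeff (-(e : ℤ))) h
    simp at this
  have key : Algebra.FormallySmooth k (fixedSub (actAlg N σ hst hst')) := by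
    refine formallySmooth_fixed p (actAlg N σ hst hst') (actAlg_pow N σ hst hst' hσ) (N.el h1) hT0
      ?_ ?_ (N.el hy) ?_
    · rw [actAlg_el]
      exact Fam.el_eq _ _ _ rfl (map_one σ)
    · intro b
      refine Fam.alg_induction N (p := fun b => N.el h1 ∣ actAlg N σ hst hst' b - b) ?_ ?_ ?_ b
      · simp
      · intro F G hF hG
        rw [map_add, add_sub_add_comm]
        exact dvd_add hF hG
      · intro c x hx
        rw [actAlg_el, el_sub]
        exact ⟨N.el (hδ c x hx), (el_T_mul N h1 (hδ c x hx) _).symm⟩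
    · intro j hj hjp
      obtain ⟨hne, hmem, hinv⟩ := hu j hj hjp
      refine ⟨⟨N.el hmem, N.el hinv, ?_, ?_⟩, ?_⟩
      · rw [Fam.el_mul, ← Fam.el_one]
        exact Fam.el_eq _ _ _ (by ring) (mul_inv_cancel₀ hne)
      · rw [Fam.el_mul, ← Fam.el_one]
        exact Fam.el_eq _ _ _ (by ring) (inv_mul_cancel₀ hne)
      · rw [actAlg_pow_el, el_sub]
        exact (el_T_mul N h1 hmem _).symm
  exact Algebra.FormallySmooth.of_equiv (R := k) (A := fixedSub (actAlg N σ hst hst'))
    (B := (invFam N σ).alg) (invEquiv N σ hst hst')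

lemma prod_mem_fam (N : Fam k K ℤ) {ι : Type} (s : Finset ι) (x : ι → K) (b : ℤ)
    (h : ∀ i ∈ s, x i ∈ N.s b) : ∏ i ∈ s, x i ∈ N.s (s.card • b) := by
  classical
  induction s using Finset.induction_on with
  | empty => simpa using N.one'
  | insert i s hi ih =>
    rw [Finset.prod_insert hi, Finset.card_insert_of_notMem hi]
    have h1 := N.mul' (h i (Finset.mem_insert_self _ _))
      (ih fun j hj => h j (Finset.mem_insert_of_mem hj))
    have e1 : b + s.card • b = (s.card + 1) • b := by rw [add_nsmul, one_nsmul]; ring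
    rwa [e1] at h1

lemma el_prod_notMem (N : Fam k K ℤ) (Q : Ideal N.alg) [Q.IsPrime] {ι : Type} (s : Finset ι)
    (x : ι → K) (b : ℤ) (h : ∀ i ∈ s, x i ∈ N.s b) (hx : ∀ i (hi : i ∈ s), N.el (h i hi) ∉ Q) :
    N.el (prod_mem_fam N s x b h) ∉ Q := by
  classical
  induction s using Finset.induction_on with
  | empty =>
    have h1 : N.el (prod_mem_fam N ∅ x b h) = 1 := by
      rw [← Fam.el_one]
      exact Fam.el_eq _ _ _ (by simp) (by simp)
    rw [h1]
    exact (Ideal.ne_top_iff_one Q).mp (Ideal.IsPrime.ne_top ‹_›)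
  | insert i s hi ih =>
    have h1 : N.el (prod_mem_fam N (insert i s) x b h) =
        N.el (h i (Finset.mem_insert_self _ _)) *
        N.el (prod_mem_fam N s x b fun j hj => h j (Finset.mem_insert_of_mem hj)) := by
      rw [Fam.el_mul]
      refine Fam.el_eq _ _ _ ?_ ?_
      · rw [Finset.card_insert_of_notMem hi, add_nsmul, one_nsmul]; ring
      · rw [Finset.prod_insert hi]
    rw [h1]
    intro h2
    rcases (Ideal.IsPrime.mem_or_mem ‹Q.IsPrime› h2) with h3 | h3
    · exact hx i (Finset.mem_insert_self _ _) h3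
    · exact ih (fun j hj => h j (Finset.mem_insert_of_mem hj))
        (fun j hj => hx j (Finset.mem_insert_of_mem hj)) h3

lemma shift_prod {p : ℕ} (σ : K ≃ₐ[k] K) (hσ : σ ^ p = 1) {u : K} (hu : u ≠ 0) :
    σ (∏ l ∈ Finset.range p, (σ ^ l) u) = ∏ l ∈ Finset.range p, (σ ^ l) u := by
  rw [map_prod]
  have h1 : ∀ l ∈ Finset.range p, σ ((σ ^ l) u) = (σ ^ (l + 1)) u := by
    intro l _
    rw [pow_succ', AlgEquiv.mul_apply]
  rw [Finset.prod_congr rfl h1]
  have h2 := Finset.prod_range_succ (fun l => (σ ^ l) u) p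
  have h3 := Finset.prod_range_succ' (fun l => (σ ^ l) u) p
  have h4 : (σ ^ p) u = u := by rw [hσ]; rfl
  have h5 : (σ ^ 0) u = u := rfl
  rw [h2, h4] at h3
  rw [h5] at h3
  exact (mul_right_cancel₀ hu h3).symm

lemma shift_sum {p : ℕ} (σ : K ≃ₐ[k] K) (hσ : σ ^ p = 1) (u : K) :
    ∑ l ∈ Finset.range p, (σ ^ (l + 1)) u = ∑ l ∈ Finset.range p, (σ ^ l) u := by
  have h2 := Finset.sum_range_succ (fun l => (σ ^ l) u) p
  have h3 := Finset.sum_range_succ' (fun l => (σ ^ l) u) p
  have h4 : (σ ^ p) u = u := by rw [hσ]; rfl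
  have h5 : (σ ^ 0) u = u := rfl
  rw [h2, h4] at h3
  rw [h5] at h3
  exact (add_right_cancel h3).symm

/-- the element `∑ l σ^l u` -/
lemma artinSchreier {p : ℕ} [CharP K p] (σ : K ≃ₐ[k] K) (hσ : σ ^ p = 1) (u : K) :
    σ (∑ l ∈ Finset.range p, l • (σ ^ l) u) =
      (∑ l ∈ Finset.range p, l • (σ ^ l) u) - ∑ l ∈ Finset.range p, (σ ^ l) u := by
  rw [eq_sub_iff_add_eq, map_sum]
  have h1 : ∀ l ∈ Finset.range p, σ (l • (σ ^ l) u) = l • (σ ^ (l + 1)) u := by
    intro l _
    rw [map_nsmul, pow_succ', AlgEquiv.mul_apply]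
  rw [Finset.sum_congr rfl h1, ← shift_sum σ hσ, ← Finset.sum_add_distrib]
  have h2 : ∀ l ∈ Finset.range p, l • (σ ^ (l + 1)) u + (σ ^ (l + 1)) u =
      (l + 1) • (σ ^ (l + 1)) u := by
    intro l _
    rw [add_nsmul, one_nsmul]
  rw [Finset.sum_congr rfl h2]
  have h3 := Finset.sum_range_succ (fun l => l • (σ ^ l) u) p
  have h4 := Finset.sum_range_succ' (fun l => l • (σ ^ l) u) p
  rw [h3] at h4
  rw [zero_nsmul, add_zero] at h4
  rw [← h4]
  have h5 : p • (σ ^ p) u = 0 := by
    rw [nsmul_eq_mul, CharP.cast_eq_zero, zero_mul]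
  rw [h5, add_zero]

lemma pow_artinSchreier (σ : K ≃ₐ[k] K) {y s : K} (hs : σ s = s) (hy : σ y = y - s) (j : ℕ) :
    (σ ^ j) y - y = -(j • s) := by
  induction j with
  | zero => simp
  | succ j ih =>
    rw [pow_succ', AlgEquiv.mul_apply]
    have h1 : (σ ^ j) y = y - j • s := by
      rw [sub_eq_iff_eq_add] at ih
      rw [ih]; ring
    rw [h1, map_sub, map_nsmul, hs, hy, add_nsmul, one_nsmul]
    ring

section Characters

variable {p : ℕ} [Fact p.Prime] (N : Fam k K ℤ) (σ : K ≃ₐ[k] K) (hσ : σ ^ p = 1)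
  (hst : Stable N σ) (Q : Ideal N.alg) [Q.IsPrime]

include hσ in
/-- If `σ` does not act trivially modulo `Q`, some trace is outside `Q`. -/
theorem exists_trace {a : ℤ} {x : K} (hx : x ∈ N.s a)
    (hx' : σ x - x ∈ N.s a) (hz : N.el hx' ∉ Q) :
    ∃ (b : ℤ) (w : K) (hw : w ∈ N.s b),
      N.el (Submodule.sum_mem (N.s b) (t := Finset.range p) (f := fun l => (σ ^ l) w)
        fun l _ => hst.pow l hw) ∉ Q := by
  have hp : p.Prime := Fact.out
  have hst' := hst.symm hp.pos hσ
  set A := actAlg N σ hst hst' with hA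
  have hAp : A ^ p = 1 := actAlg_pow N σ hst hst' hσ
  by_contra hcon
  push Not at hcon
  let φ : Fin p → (N.alg →* (N.alg ⧸ Q)) := fun l =>
    ((Ideal.Quotient.mk Q).comp ((A ^ (l : ℕ) : N.alg ≃ₐ[k] N.alg) : N.alg →+* N.alg) :
      N.alg →+* (N.alg ⧸ Q))
  have hφ : ∀ l F, φ l F = Ideal.Quotient.mk Q ((A ^ (l : ℕ)) F) := fun _ _ => rfl
  -- distinctness
  have hne : ¬ ∀ F, Ideal.Quotient.mk Q (A F) = Ideal.Quotient.mk Q F := by
    intro h
    have h1 := h (N.el hx)
    rw [Ideal.Quotient.mk_eq_mk_iff_sub_mem, hA, actAlg_el, el_sub] at h1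
    exact hz h1
  have haux : ∀ m : ℕ, 0 < m → m < p →
      ¬ ∀ F, Ideal.Quotient.mk Q ((A ^ m) F) = Ideal.Quotient.mk Q F := by
    intro m hm hmp h
    apply hne
    have h2 : ∀ r : ℕ, ∀ F, Ideal.Quotient.mk Q ((A ^ (m * r)) F) = Ideal.Quotient.mk Q F := by
      intro r
      induction r with
      | zero => intro F; rw [mul_zero, pow_zero]; rfl
      | succ r ih =>
        intro F
        rw [Nat.mul_succ, pow_add, AlgEquiv.mul_apply, ih, h]
    have hcop : Nat.Coprime m p := by
      rw [Nat.coprime_comm, hp.coprime_iff_not_dvd]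
      intro hd
      exact absurd (Nat.le_of_dvd hm hd) (by omega)
    obtain ⟨r, -, hr⟩ := Nat.exists_mul_mod_eq_one_of_coprime hcop hp.one_lt
    intro F
    have h3 := h2 r F
    rw [pow_eq_pow_mod _ hAp, hr, pow_one] at h3
    exact h3
  have hinj : Function.Injective φ := by
    have hlt : ∀ i j : Fin p, i < j → φ i ≠ φ j := by
      intro i j hij h
      apply haux ((j : ℕ) - i) (by omega) (by omega)
      intro F
      have h1 := DFunLike.congr_fun h ((A ^ (i : ℕ)).symm F)
      rw [hφ, hφ, AlgEquiv.apply_symm_apply] at h1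
      rw [h1]
      congr 1
      have h2 : (j : ℕ) = (j - i : ℕ) + i := by omega
      conv_rhs => rw [h2, pow_add, AlgEquiv.mul_apply, AlgEquiv.apply_symm_apply]
    intro i j hij
    rcases lt_trichotomy i j with h | h | h
    · exact absurd hij (hlt i j h)
    · exact h
    · exact absurd hij.symm (hlt j i h)
  have hli := (linearIndependent_monoidHom N.alg (N.alg ⧸ Q)).comp φ hinj
  rw [Fintype.linearIndependent_iff] at hli
  have hsum : ∑ i : Fin p, (1 : N.alg ⧸ Q) • ((fun f : N.alg →* (N.alg ⧸ Q) =>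
      (f : N.alg → N.alg ⧸ Q)) ∘ φ) i = 0 := by
    funext F
    rw [Finset.sum_apply]
    simp only [Function.comp, one_smul, Pi.zero_apply]
    have h1 : ∀ F : N.alg, ∑ l ∈ Finset.range p, Ideal.Quotient.mk Q ((A ^ l) F) = 0 := by
      intro F
      refine Fam.alg_induction N
        (p := fun F => ∑ l ∈ Finset.range p, Ideal.Quotient.mk Q ((A ^ l) F) = 0) ?_ ?_ ?_ F
      · simp
      · intro F G hF hG
        simp only [map_add, Finset.sum_add_distrib, hF, hG, add_zero]
      · intro b w hw
        rw [← map_sum, Ideal.Quotient.eq_zero_iff_mem]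
        have h2 : ∑ l ∈ Finset.range p, (A ^ l) (N.el hw) =
            N.el (Submodule.sum_mem (N.s b) (t := Finset.range p) (f := fun l => (σ ^ l) w)
              fun l _ => hst.pow l hw) := by
          refine Subtype.ext ?_
          rw [AddSubmonoidClass.coe_finsetSum]
          have h3 : ∀ l ∈ Finset.range p, (((A ^ l) (N.el hw) : N.alg) : AddMonoidAlgebra K ℤ) =
              single b ((σ ^ l) w) := by
            intro l _
            rw [hA, actAlg_pow_el]
            rfl
          rw [Finset.sum_congr rfl h3]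
          change _ = single b _
          exact (map_sum (singleAddHom b) _ _).symm
        rw [h2]
        exact hcon b w hw
    rw [← h1 F, ← Fin.sum_univ_eq_sum_range (fun l => Ideal.Quotient.mk Q ((A ^ l) F)) p]
    rfl
  have h0 := hli (fun _ => 1) hsum ⟨0, hp.pos⟩
  exact one_ne_zero h0

end Characters


lemma inv_mem_loc_mul (N : Fam k K ℤ) {d b : ℤ} {f c : K} (hf : f ∈ N.s d) (hc : c ∈ N.s b)
    {b' : ℤ} {v u : K} (hv : v ∈ N.s (b - b')) (huv : u * v = c) (hu : u ≠ 0) :
    u⁻¹ ∈ (N.loc (N.mul' hf hc)).s (-b') := by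
  refine ⟨1, ?_⟩
  have h1 : (f * c) ^ 1 * u⁻¹ = f * v := by
    rw [← huv]; field_simp
  rw [h1]
  have h2 := N.mul' hf hv
  have e1 : d + (b - b') = 1 • (d + b) + -b' := by rw [one_nsmul]; ring
  rwa [e1] at h2

/-- The stabiliser condition is automatic for finitely generated families. -/
theorem exists_stab (M : Fam k K ℤ) (hfg : M.alg.FG) : ∃ w : ℕ, 0 < w ∧
    ∀ (q : Ideal M.alg) [q.IsPrime],
    (∃ d : ℤ, 0 < d ∧ ∃ (x : K) (hx : x ∈ M.s d), M.el hx ∉ q) →
    ∃ e : ℕ, 0 < e ∧ e ≤ w ∧ ∃ (a : ℤ) (u v : K) (hu : u ∈ M.s (a + e)) (hv : v ∈ M.s a),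
      M.el hu ∉ q ∧ M.el hv ∉ q := by
  obtain ⟨r, d, x, hx, hgen⟩ := M.exists_generators hfg
  refine ⟨(∑ i, (d i).natAbs) + 1, Nat.succ_pos _, ?_⟩
  intro q hq ⟨c, hc, f, hf, hfq⟩
  have hex : ∃ i, d i ≠ 0 ∧ M.el (hx i) ∉ q := by
    by_contra hcon
    push Not at hcon
    apply hfq
    have h1 : (single c f : AddMonoidAlgebra K ℤ) ∈
        Algebra.adjoin k (Set.range fun i => (single (d i) (x i) : AddMonoidAlgebra K ℤ)) := by
      rw [← hgen]; exact Fam.single_mem_alg.2 hf
    have h2 := Fam.mem_span_monomials d x h1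
    have h3 : ∀ y ∈ Submodule.span k {y | ∃ α : Fin r → ℕ, ∑ i, α i • d i = c ∧
        y = ∏ i, x i ^ α i}, ∃ hy : y ∈ M.s c, M.el hy ∈ q := by
      intro y hy
      induction hy using Submodule.span_induction with
      | mem y hy =>
        obtain ⟨α, hα, rfl⟩ := hy
        have h4 : ∃ i, α i ≠ 0 ∧ d i ≠ 0 := by
          by_contra h5
          push Not at h5
          have : ∑ i, α i • d i = 0 := by
            refine Finset.sum_eq_zero fun i _ => ?_
            by_cases h6 : α i = 0
            · rw [h6, zero_nsmul]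
            · rw [h5 i h6, smul_zero]
          omega
        obtain ⟨i, hi, hdi⟩ := h4
        have hmon : ∀ (β : Fin r → ℕ), ∏ i, x i ^ β i ∈ M.s (∑ i, β i • d i) := by
          intro β
          have : ∀ s : Finset (Fin r), ∏ i ∈ s, x i ^ β i ∈ M.s (∑ i ∈ s, β i • d i) := by
            classical
            intro s
            induction s using Finset.induction_on with
            | empty => simpa using M.one'
            | insert j s hj ih =>
              rw [Finset.prod_insert hj, Finset.sum_insert hj]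
              exact M.mul' (M.pow' (hx j) _) ih
          exact this Finset.univ
        classical
        let β : Fin r → ℕ := Function.update α i (α i - 1)
        have hprod : ∏ j, x j ^ α j = x i * ∏ j, x j ^ β j := by
          rw [← Finset.mul_prod_erase _ _ (Finset.mem_univ i),
            ← Finset.mul_prod_erase _ (fun j => x j ^ β j) (Finset.mem_univ i), ← mul_assoc]
          congr 1
          · simp only [β, Function.update_self]
            rw [← pow_succ', Nat.sub_add_cancel (Nat.pos_of_ne_zero hi)]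
          · refine Finset.prod_congr rfl fun j hj => ?_
            simp only [β, Function.update_of_ne (Finset.ne_of_mem_erase hj)]
        have hsum : d i + ∑ j, β j • d j = c := by
          rw [← hα, ← Finset.add_sum_erase Finset.univ (fun j => α j • d j) (Finset.mem_univ i),
            ← Finset.add_sum_erase Finset.univ (fun j => β j • d j) (Finset.mem_univ i),
            ← add_assoc]
          congr 1
          · simp only [β, Function.update_self]
            obtain ⟨m, hm⟩ := Nat.exists_eq_succ_of_ne_zero hi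
            rw [hm, Nat.succ_sub_one, succ_nsmul]
            ring
          · refine Finset.sum_congr rfl fun j hj => ?_
            simp only [β, Function.update_of_ne (Finset.ne_of_mem_erase hj)]
        have hmem : ∏ j, x j ^ α j ∈ M.s c := by rw [← hα]; exact hmon α
        refine ⟨hmem, ?_⟩
        have h7 : M.el hmem = M.el (hx i) * M.el (hmon β) := by
          rw [Fam.el_mul]
          exact Fam.el_eq _ _ _ hsum.symm hprod
        rw [h7]
        exact Ideal.mul_mem_right _ _ (hcon i hdi)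
      | zero =>
        refine ⟨Submodule.zero_mem _, ?_⟩
        have : M.el (Submodule.zero_mem (M.s c)) = 0 := Subtype.ext (by simp)
        rw [this]
        exact Ideal.zero_mem _
      | add y z _ _ hy hz =>
        obtain ⟨hy1, hy2⟩ := hy
        obtain ⟨hz1, hz2⟩ := hz
        refine ⟨Submodule.add_mem _ hy1 hz1, ?_⟩
        rw [← el_add M hy1 hz1]
        exact Ideal.add_mem _ hy2 hz2
      | smul t y _ hy =>
        obtain ⟨hy1, hy2⟩ := hy
        refine ⟨Submodule.smul_mem _ _ hy1, ?_⟩
        have : M.el (Submodule.smul_mem _ t hy1) = algebraMap k M.alg t * M.el hy1 := by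
          rw [← Algebra.smul_def]
          refine Subtype.ext ?_
          change (single c (t • y) : AddMonoidAlgebra K ℤ) = t • single c y
          rw [smul_single]
        rw [this]
        exact Ideal.mul_mem_left _ _ hy2
    obtain ⟨_, h4⟩ := h3 f h2
    exact h4
  obtain ⟨i, hi, hiq⟩ := hex
  have hle : (d i).natAbs ≤ (∑ i, (d i).natAbs) + 1 := by
    have := Finset.single_le_sum (f := fun i => (d i).natAbs) (fun _ _ => Nat.zero_le _)
      (Finset.mem_univ i)
    omega
  have h1q : M.el M.one' ∉ q := by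
    rw [Fam.el_one]
    exact (Ideal.ne_top_iff_one q).mp (Ideal.IsPrime.ne_top ‹_›)
  refine ⟨(d i).natAbs, Int.natAbs_pos.mpr hi, hle, ?_⟩
  rcases lt_or_gt_of_ne hi with h | h
  · have e1 : (0 : ℤ) = d i + ((d i).natAbs : ℤ) := by omega
    refine ⟨d i, 1, x i, e1 ▸ M.one', hx i, ?_, hiq⟩
    rwa [Fam.el_eq M (e1 ▸ M.one') M.one' e1.symm rfl]
  · have e1 : d i = 0 + ((d i).natAbs : ℤ) := by omega
    have hm : x i ∈ M.s (0 + ((d i).natAbs : ℤ)) := by rw [← e1]; exact hx i
    refine ⟨0, x i, 1, hm, M.one', ?_, h1q⟩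
    rwa [Fam.el_eq M hm (hx i) e1.symm rfl]

/-- **Good families from filtered actions of a group of order `p`.** -/
theorem good_of_action (p : ℕ) [Fact p.Prime] [CharP k p] (N : Fam k K ℤ) (σ : K ≃ₐ[k] K)
    (hσ : σ ^ p = 1) (hfg : N.alg.FG) (hst : Stable N σ)
    (hsm : ∀ (d : ℤ), 0 < d → ∀ (x : K) (hx : x ∈ N.s d), x ≠ 0 →
      Algebra.FormallySmooth k (N.loc hx).alg)
    (h1 : ∀ d : ℤ, d ≤ 0 → (1 : K) ∈ N.s d) (hnt : ∃ d : ℤ, 0 < d ∧ ∃ x ∈ N.s d, x ≠ 0)
    (e : ℕ) (he : 0 < e) (hδ : ∀ a, ∀ x ∈ N.s a, σ x - x ∈ N.s (a + e))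
    (hprin : ∀ (q : Ideal N.alg) [q.IsPrime],
      (∃ d : ℤ, 0 < d ∧ ∃ (x : K) (hx : x ∈ N.s d), N.el hx ∉ q) →
      ∃ (a : ℤ) (x : K) (hx : x ∈ N.s a), N.el (hδ a x hx) ∉ q) :
    ∃ w, 0 < w ∧ Good (invFam N σ) w := by
  have hpp : p.Prime := Fact.out
  have hp : 0 < p := hpp.pos
  have hcK : CharP K p := charP_of_injective_algebraMap (algebraMap k K).injective p
  have hst' := hst.symm hp hσ
  have hMfg := fg_invFam N σ hst hp hσ hfg
  obtain ⟨w, hw, hstab⟩ := exists_stab (invFam N σ) hMfg
  have hT : (1 : K) ∈ N.s (-(e : ℤ)) := h1 _ (by omega)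
  have hmono : ∀ {a : ℤ} {x : K}, x ∈ N.s (a + e) → x ∈ N.s a := by
    intro a x hx
    have := N.mul' hT hx
    rw [one_mul] at this
    have e1 : -(e : ℤ) + (a + e) = a := by ring
    rwa [e1] at this
  refine ⟨w, hw, ⟨hMfg, ?_, hstab, ?_, ?_⟩⟩
  · -- smoothness
    intro d hd f hf hf0
    refine Fam.formallySmooth_loc_of_cover (invFam N σ) hMfg hf hf0 ?_
    intro q hq hfq
    obtain ⟨Q, hQ, hQq⟩ := exists_prime_over N σ hst hp hσ q
    have hfN : f ∈ N.s d := hf.1
    have hffix : σ f = f := hf.2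
    have hfQ : N.el hfN ∉ Q := fun h => hfq ((hQq _).1 h)
    obtain ⟨a, x, hx, hz⟩ := hprin Q ⟨d, hd, f, hfN, hfQ⟩
    -- reduction to finding a good denominator
    have reduct : ∀ (b : ℤ) (c : K) (hc : c ∈ N.s b), σ c = c → N.el hc ∉ Q →
        Algebra.FormallySmooth k (invFam (N.loc (N.mul' hfN hc)) σ).alg →
        ∃ (b : ℤ) (y : K) (hy : y ∈ (invFam N σ).s b), (invFam N σ).el hy ∉ q ∧
          Algebra.FormallySmooth k ((invFam N σ).loc ((invFam N σ).mul' hf hy)).alg := by
      intro b c hc hcfix hcQ hsmc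
      have hc0 : c ≠ 0 := by
        rintro rfl
        apply hcQ
        have : N.el hc = 0 := Subtype.ext (by simp)
        rw [this]
        exact Ideal.zero_mem _
      have hcM : c ∈ (invFam N σ).s b := ⟨hc, hcfix⟩
      refine ⟨b, c, hcM, fun h => hcQ ((hQq _).2 h), ?_⟩
      rw [invFam_loc N σ _ (mul_ne_zero hf0 hc0)]
      exact hsmc
    have hδl : ∀ (b : ℤ) (c : K) (hc : c ∈ N.s b), σ c = c → ∀ (a : ℤ),
        ∀ y ∈ (N.loc (N.mul' hfN hc)).s a, σ y - y ∈ (N.loc (N.mul' hfN hc)).s (a + e) := by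
      rintro b c hc hcfix a y ⟨m, hm⟩
      refine ⟨m, ?_⟩
      have h2 := hδ _ _ hm
      rw [map_mul, map_pow, map_mul, hffix, hcfix, ← mul_sub] at h2
      rwa [← add_assoc]
    by_cases hTQ : N.el hT ∈ Q
    · -- the exceptional locus
      have htriv : ∀ {b : ℤ} {y : K} (hy : y ∈ N.s b) (j : ℕ),
          N.el (hst.pow j hy) - N.el hy ∈ Q := by
        intro b y hy j
        induction j with
        | zero =>
          have : N.el (hst.pow 0 hy) = N.el hy := Fam.el_eq _ _ _ rfl rfl
          rw [this, sub_self]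
          exact Ideal.zero_mem _
        | succ j ih =>
          have h2 : N.el (hst.pow (j + 1) hy) - N.el (hst.pow j hy) =
              N.el hT * N.el (hδ _ _ (hst.pow j hy)) := by
            rw [el_T_mul N hT (hδ _ _ (hst.pow j hy)) (hmono (hδ _ _ (hst.pow j hy))), el_sub]
            refine Fam.el_eq _ _ _ rfl ?_
            rw [pow_succ', AlgEquiv.mul_apply]
          have h3 := Ideal.mul_mem_right (N.el (hδ _ _ (hst.pow j hy))) Q hTQ
          rw [← h2] at h3
          have h4 := Ideal.add_mem _ h3 ih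
          rwa [sub_add_sub_cancel] at h4
      -- the elements `σ^j x - x`
      have huM : ∀ j : ℕ, (σ ^ j) x - x ∈ N.s (a + e) := by
        intro j
        induction j with
        | zero => simp
        | succ j ih =>
          have h2 := hδ _ _ (hst.pow j hx)
          have h3 := Submodule.add_mem _ h2 ih
          rw [sub_add_sub_cancel] at h3
          rw [pow_succ', AlgEquiv.mul_apply]
          exact h3
      have huQ1 : ∀ j : ℕ, N.el (huM j) - j • N.el (hδ a x hx) ∈ Q := by
        intro j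
        induction j with
        | zero =>
          have : N.el (huM 0) = 0 := Subtype.ext (by simp)
          rw [this]
          simp
        | succ j ih =>
          have h2 : N.el (huM (j + 1)) = N.el (hst.pow j (hδ a x hx)) + N.el (huM j) := by
            rw [el_add]
            refine Fam.el_eq _ _ _ rfl ?_
            rw [map_sub, pow_succ, AlgEquiv.mul_apply]
            ring
          have h3 := Ideal.add_mem _ (htriv (hδ a x hx) j) ih
          rw [h2, add_nsmul, one_nsmul]
          convert h3 using 1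
          ring
      have huQ : ∀ j : ℕ, 0 < j → j < p → N.el (huM j) ∉ Q := by
        intro j hj hjp h
        have h2 := Ideal.sub_mem _ h (huQ1 j)
        rw [sub_sub_cancel] at h2
        have h3 : j • N.el (hδ a x hx) = algebraMap k N.alg (j : k) * N.el (hδ a x hx) := by
          rw [map_natCast, nsmul_eq_mul]
        rw [h3] at h2
        have hj0 : (j : k) ≠ 0 := by
          intro h4
          rw [CharP.cast_eq_zero_iff k p] at h4
          exact absurd (Nat.le_of_dvd hj h4) (by omega)
        have h4 := Ideal.mul_mem_left Q (algebraMap k N.alg (j : k)⁻¹) h2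
        rw [← mul_assoc, ← map_mul, inv_mul_cancel₀ hj0, map_one, one_mul] at h4
        exact hz h4
      have huQl : ∀ j : ℕ, 0 < j → j < p → ∀ l : ℕ, N.el (hst.pow l (huM j)) ∉ Q := by
        intro j hj hjp l h
        have h2 := Ideal.sub_mem _ h (htriv (huM j) l)
        rw [sub_sub_cancel] at h2
        exact huQ j hj hjp h2
      have hne : ∀ j : ℕ, 0 < j → j < p → (σ ^ j) x - x ≠ 0 := by
        intro j hj hjp h
        apply huQ j hj hjp
        rw [el_eq_zero N (huM j) h]
        exact Ideal.zero_mem _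
      classical
      -- the denominator
      let S : Finset (ℕ × ℕ) := Finset.Ico 1 p ×ˢ Finset.range p
      let g : ℕ × ℕ → K := fun i => (σ ^ i.2) ((σ ^ i.1) x - x)
      have hg : ∀ i ∈ S, g i ∈ N.s (a + e) := fun i _ => hst.pow _ (huM _)
      have hcmem : ∏ i ∈ S, g i ∈ N.s (S.card • (a + e)) := prod_mem_fam N S g (a + e) hg
      have hcQ : N.el hcmem ∉ Q := by
        refine el_prod_notMem N Q S g (a + e) hg fun i hi => ?_
        have := Finset.mem_product.mp hi
        have h2 := Finset.mem_Ico.mp this.1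
        exact huQl i.1 (by omega) h2.2 i.2
      have hcfix : σ (∏ i ∈ S, g i) = ∏ i ∈ S, g i := by
        have h2 : ∏ i ∈ S, g i = ∏ j ∈ Finset.Ico 1 p, ∏ l ∈ Finset.range p,
            (σ ^ l) ((σ ^ j) x - x) := Finset.prod_product _ _ _
        rw [h2, map_prod]
        refine Finset.prod_congr rfl fun j hj => ?_
        have := Finset.mem_Ico.mp hj
        exact shift_prod σ hσ (hne j (by omega) this.2)
      refine reduct _ _ hcmem hcfix hcQ ?_
      have hc0 : ∏ i ∈ S, g i ≠ 0 := by
        intro h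
        apply hcQ
        rw [el_eq_zero N hcmem h]
        exact Ideal.zero_mem _
      refine smooth_of_unit (p := p) (N.loc (N.mul' hfN hcmem)) σ hσ e
        (N.le_loc _ _ hT) (hst.loc _ (by rw [map_mul, hffix, hcfix])) (hδl _ _ hcmem hcfix)
        (Fam.formallySmooth_loc_mul N hfN hcmem hc0 (hsm d hd f hfN hf0))
        (N.le_loc _ _ hx) ?_
      intro j hj hjp
      refine ⟨hne j hj hjp, N.le_loc _ _ (huM j), ?_⟩
      have hjS : (j, 0) ∈ S := Finset.mem_product.mpr
        ⟨Finset.mem_Ico.mpr ⟨hj, hjp⟩, Finset.mem_range.mpr hp⟩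
      have h2 := Finset.mul_prod_erase S g hjS
      have h3 : g (j, 0) = (σ ^ j) x - x := rfl
      rw [h3] at h2
      have h4 : ∏ i ∈ S.erase (j, 0), g i ∈ N.s ((S.erase (j, 0)).card • (a + e)) :=
        prod_mem_fam N _ g (a + e) fun i hi => hg i (Finset.mem_of_mem_erase hi)
      have h5 : ((S.erase (j, 0)).card • (a + e) : ℤ) = S.card • (a + e) - (a + e) := by
        have h6 : (S.erase (j, 0)).card + 1 = S.card := Finset.card_erase_add_one hjS
        rw [← h6, add_nsmul, one_nsmul]
        ring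
      rw [h5] at h4
      exact inv_mem_loc_mul N hfN hcmem h4 h2 (hne j hj hjp)
    · -- away from the exceptional locus
      have hz' : N.el (hmono (hδ a x hx)) ∉ Q := by
        rw [← el_T_mul N hT (hδ a x hx) (hmono (hδ a x hx))]
        intro h
        rcases hQ.mem_or_mem h with h | h
        · exact hTQ h
        · exact hz h
      obtain ⟨b, v, hv, hs⟩ := exists_trace N σ hσ hst Q hx (hmono (hδ a x hx)) hz'
      set s := ∑ l ∈ Finset.range p, (σ ^ l) v with hsdef
      have hsmem : s ∈ N.s b := Submodule.sum_mem _ fun l _ => hst.pow l hv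
      have hsfix : σ s = s := by
        rw [hsdef, map_sum]
        have h2 : ∀ l ∈ Finset.range p, σ ((σ ^ l) v) = (σ ^ (l + 1)) v := by
          intro l _
          rw [pow_succ', AlgEquiv.mul_apply]
        rw [Finset.sum_congr rfl h2]
        exact shift_sum σ hσ v
      have hs0 : s ≠ 0 := by
        intro h
        apply hs
        have : N.el hsmem = 0 := el_eq_zero N hsmem h
        have h2 : N.el (Submodule.sum_mem (N.s b) (t := Finset.range p)
            (f := fun l => (σ ^ l) v) fun l _ => hst.pow l hv) = N.el hsmem := rfl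
        rw [h2, this]
        exact Ideal.zero_mem _
      refine reduct b s hsmem hsfix hs ?_
      set y := ∑ l ∈ Finset.range p, l • (σ ^ l) v with hydef
      have hymem : y ∈ N.s b := Submodule.sum_mem _ fun l _ =>
        Submodule.smul_of_tower_mem _ l (hst.pow l hv)
      have hyσ : σ y = y - s := artinSchreier σ hσ v
      have hyj := pow_artinSchreier σ hsfix hyσ
      refine smooth_of_unit (p := p) (N.loc (N.mul' hfN hsmem)) σ hσ 0
        (N.le_loc _ _ (by simpa using N.one')) (hst.loc _ (by rw [map_mul, hffix, hsfix])) ?_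
        (Fam.formallySmooth_loc_mul N hfN hsmem hs0 (hsm d hd f hfN hf0))
        (N.le_loc _ _ hymem) ?_
      · intro a' y' hy'
        have h2 := (hst.loc (N.mul' hfN hsmem) (by rw [map_mul, hffix, hsfix])) a' y' hy'
        have := Submodule.sub_mem _ h2 hy'
        simpa using this
      · intro j hj hjp
        have hj0 : (j : k) ≠ 0 := by
          intro h4
          rw [CharP.cast_eq_zero_iff k p] at h4
          exact absurd (Nat.le_of_dvd hj h4) (by omega)
        have hjK : (j : K) ≠ 0 := by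
          intro h4
          apply hj0
          apply (algebraMap k K).injective
          rw [map_natCast, map_zero, h4]
        have hjs : (σ ^ j) y - y = -((j : K) * s) := by rw [hyj, nsmul_eq_mul]
        refine ⟨?_, ?_, ?_⟩
        · rw [hjs]
          exact neg_ne_zero.mpr (mul_ne_zero hjK hs0)
        · rw [hjs]
          have h2 : -((j : K) * s) = (-(j : k)) • s := by
            rw [Algebra.smul_def]; simp
          rw [h2]
          have h3 := Submodule.smul_mem _ (-(j : k)) (N.le_loc (N.mul' hfN hsmem) _ hsmem)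
          simpa using h3
        · rw [hjs]
          have hinv : s⁻¹ ∈ (N.loc (N.mul' hfN hsmem)).s (-b) := by
            refine inv_mem_loc_mul N hfN hsmem (b' := b) (v := 1) ?_ (mul_one s) hs0
            rw [sub_self]; exact N.one'
          have h2 : (-((j : K) * s))⁻¹ = (-(j : k))⁻¹ • s⁻¹ := by
            rw [Algebra.smul_def, map_inv₀, map_neg, map_natCast, ← mul_inv]
            ring
          rw [h2]
          have h3 := Submodule.smul_mem _ (-(j : k))⁻¹ hinv
          simpa using h3
  · intro d hd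
    exact ⟨h1 d hd, map_one σ⟩
  · obtain ⟨d, hd, x, hx, hx0⟩ := hnt
    refine ⟨(Finset.range p).card • d, ?_, ∏ l ∈ Finset.range p, (σ ^ l) x, ⟨?_, ?_⟩, ?_⟩
    · rw [Finset.card_range]
      exact nsmul_pos hd hp.ne'
    · exact prod_mem_fam N _ _ d fun l _ => hst.pow l hx
    · exact shift_prod σ hσ hx0
    · refine Finset.prod_ne_zero_iff.mpr fun l _ => ?_
      exact fun h => hx0 ((σ ^ l).injective (by rw [h, map_zero]))

end Pool.Agent.MP_b525bf_ag_h5
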