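import Mathlib
import Pool.Agent.Lib.MP_b525bf_ag_h5.Weight
import Pool.Agent.Lib.MP_b525bf_ag_h5.Initial
import Pool.Agent.Lib.MP_b525bf_ag.Iterate
import Pool.Agent.Lib.MP_b525bf_ag.Final
import Pool.Agent.Lib.MP_b525bf_ag.Smooth
import Pool.Agent.Lib.MP_b525bf_ag.DefsLocal

/-!
Quotients by actions of order `p` with weighted homogeneous leading forms.
-/

set_option autoImplicit false

namespace Pool.Agent.MP_b525bf_ag_h5

open Pool.Agent.MP_b525bf_ag AddMonoidAlgebra

section ideal

variable {k : Type} [Field k] {B : Type} [CommRing B] [Algebra k B] {n : ℕ}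

omit [Algebra k B] in
lemma eval_mem_wIdeal (x : Fin n → B) {w : Fin n → ℕ} {g : MvPolynomial (Fin n) B} {m : ℕ}
    (hg : g.IsWeightedHomogeneous w m) : MvPolynomial.eval x g ∈ wIdeal x w m := by
  rw [MvPolynomial.eval_eq']
  refine Ideal.sum_mem _ fun d hd => Ideal.mul_mem_left _ _ (monom_mem ?_)
  have h1 := hg (MvPolynomial.mem_support_iff.1 hd)
  rw [← h1, Finsupp.weight_apply, Finsupp.sum_fintype _ _ (fun i => zero_smul ℕ (w i))]
  simp

/-- If an automorphism moves étale coordinates inside `I` and is the identity modulo the radical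
of `I`, then it is the identity modulo `I`. -/
lemma sub_mem_of_coord (x : Fin n → B)
    (hx : (MvPolynomial.aeval x : MvPolynomial (Fin n) k →ₐ[k] B).toRingHom.Etale)
    (σ : B →ₐ[k] B) (I J : Ideal B) {m : ℕ} (hJ : J ^ m ≤ I)
    (hI : ∀ i, σ (x i) - x i ∈ I) (hσ : ∀ b, σ b - b ∈ J) (b : B) : σ b - b ∈ I := by
  let i1 : Algebra (MvPolynomial (Fin n) k) B :=
    (MvPolynomial.aeval x : MvPolynomial (Fin n) k →ₐ[k] B).toRingHom.toAlgebra
  have hi1 : ∀ f, algebraMap (MvPolynomial (Fin n) k) B f = MvPolynomial.aeval x f := fun _ => rfl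
  have i2 : Algebra.Etale (MvPolynomial (Fin n) k) B := hx
  have i3 : Algebra.FormallyUnramified (MvPolynomial (Fin n) k) B := inferInstance
  have hfac : ∀ f : MvPolynomial (Fin n) k, Ideal.Quotient.mk I (σ (MvPolynomial.aeval x f)) =
      Ideal.Quotient.mk I (MvPolynomial.aeval x f) := by
    intro f
    have h1 : (((Ideal.Quotient.mkₐ k I).comp σ).comp
          (MvPolynomial.aeval x : MvPolynomial (Fin n) k →ₐ[k] B)) =
        ((Ideal.Quotient.mkₐ k I).comp (MvPolynomial.aeval x : MvPolynomial (Fin n) k →ₐ[k] B)) := by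
      refine MvPolynomial.algHom_ext fun i => ?_
      simp only [AlgHom.comp_apply, MvPolynomial.aeval_X]
      exact Ideal.Quotient.eq.2 (hI i)
    exact DFunLike.congr_fun h1 f
  let g1 : B →ₐ[MvPolynomial (Fin n) k] (B ⧸ I) :=
    { ((Ideal.Quotient.mk I).comp (σ : B →+* B)) with
      commutes' := fun f => hfac f }
  let g2 : B →ₐ[MvPolynomial (Fin n) k] (B ⧸ I) :=
    Ideal.Quotient.mkₐ (MvPolynomial (Fin n) k) I
  have hnil : IsNilpotent (J.map (Ideal.Quotient.mk I)) := by
    refine ⟨m, ?_⟩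
    rw [← Ideal.map_pow]
    have h1 : (J ^ m).map (Ideal.Quotient.mk I) ≤ I.map (Ideal.Quotient.mk I) :=
      Ideal.map_mono hJ
    rw [Ideal.map_quotient_self] at h1
    exact le_bot_iff.1 h1
  have h := Algebra.FormallyUnramified.ext (R := MvPolynomial (Fin n) k) (I := J.map
    (Ideal.Quotient.mk I)) hnil (g₁ := g1) (g₂ := g2) (fun b => by
      refine Ideal.Quotient.eq.2 ?_
      change Ideal.Quotient.mk I (σ b) - Ideal.Quotient.mk I b ∈ _
      rw [← map_sub]
      exact Ideal.mem_map_of_mem _ (hσ b))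
  have h2 : g1 b = g2 b := by rw [h]
  exact Ideal.Quotient.eq.1 h2

/-- Leibniz. -/
lemma sub_mem_wIdeal (x : Fin n → B) (w : Fin n → ℕ) (σ : B →ₐ[k] B) (e : ℕ)
    (h1 : ∀ i, σ (x i) - x i ∈ wIdeal x w (w i + e)) (h2 : ∀ b, σ b - b ∈ wIdeal x w e)
    {a : ℕ} {b : B} (hb : b ∈ wIdeal x w a) : σ b - b ∈ wIdeal x w (a + e) := by
  classical
  have hmul : ∀ {a' b' : ℕ} {u v : B}, (u ∈ wIdeal x w a' ∧ σ u - u ∈ wIdeal x w (a' + e)) →
      (v ∈ wIdeal x w b' ∧ σ v - v ∈ wIdeal x w (b' + e)) →
      (u * v ∈ wIdeal x w (a' + b') ∧ σ (u * v) - u * v ∈ wIdeal x w (a' + b' + e)) := by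
    rintro a' b' u v ⟨hu, hu'⟩ ⟨hv, hv'⟩
    refine ⟨wIdeal_mul hu hv, ?_⟩
    have e1 : σ (u * v) - u * v = (σ u - u) * v + (σ u - u) * (σ v - v) + u * (σ v - v) := by
      rw [map_mul]; ring
    rw [e1]
    refine Ideal.add_mem _ (Ideal.add_mem _ ?_ ?_) ?_
    · exact wIdeal_anti (by omega) (wIdeal_mul hu' hv)
    · exact wIdeal_anti (by omega) (wIdeal_mul hu' hv')
    · exact wIdeal_anti (by omega) (wIdeal_mul hu hv')
  have hpow : ∀ (i : Fin n) (m : ℕ), x i ^ m ∈ wIdeal x w (m * w i) ∧
      σ (x i ^ m) - x i ^ m ∈ wIdeal x w (m * w i + e) := by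
    intro i m
    induction m with
    | zero => simp [wIdeal_zero]
    | succ m ih =>
      rw [pow_succ, Nat.succ_mul]
      exact hmul ih ⟨x_mem i, h1 i⟩
  have hprod : ∀ (α : Fin n → ℕ) (s : Finset (Fin n)),
      ∏ i ∈ s, x i ^ α i ∈ wIdeal x w (∑ i ∈ s, α i * w i) ∧
      σ (∏ i ∈ s, x i ^ α i) - ∏ i ∈ s, x i ^ α i ∈ wIdeal x w (∑ i ∈ s, α i * w i + e) := by
    intro α s
    induction s using Finset.induction_on with
    | empty => simp [wIdeal_zero]
    | insert i s hi ih =>
      rw [Finset.prod_insert hi, Finset.sum_insert hi]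
      exact hmul (hpow i (α i)) ih
  have key : b ∈ wIdeal x w a ∧ σ b - b ∈ wIdeal x w (a + e) := by
    have hb' := hb
    rw [wIdeal] at hb'
    refine Submodule.span_induction (p := fun b _ => b ∈ wIdeal x w a ∧
      σ b - b ∈ wIdeal x w (a + e)) ?_ ?_ ?_ ?_ hb'
    · rintro _ ⟨α, hα, rfl⟩
      refine ⟨monom_mem hα, ?_⟩
      exact wIdeal_anti (by omega) (hprod α Finset.univ).2
    · simp
    · rintro y z _ _ ⟨hy, hy'⟩ ⟨hz, hz'⟩
      refine ⟨Ideal.add_mem _ hy hz, ?_⟩
      have e1 : σ (y + z) - (y + z) = (σ y - y) + (σ z - z) := by rw [map_add]; ring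
      rw [e1]
      exact Ideal.add_mem _ hy' hz'
    · rintro c y _ hy
      rw [smul_eq_mul]
      have := hmul (a' := 0) (b' := a) (u := c) (v := y) ⟨by rw [wIdeal_zero]; trivial,
        by rw [zero_add]; exact h2 c⟩ hy
      rwa [zero_add] at this
  exact key.2

/-- An element of positive weight is a combination of coordinates of positive weight. -/
lemma wIdeal_induction {x : Fin n → B} {w : Fin n → ℕ} {a : ℕ} (ha : 0 < a) {p : B → Prop}
    (h0 : p 0) (hadd : ∀ y ∈ wIdeal x w a, ∀ z ∈ wIdeal x w a, p y → p z → p (y + z))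
    (hmul : ∀ i, 0 < w i → ∀ y ∈ wIdeal x w (a - w i), p (x i * y))
    {b : B} (hb : b ∈ wIdeal x w a) : p b := by
  classical
  have key : ∀ b ∈ wIdeal x w a, ∀ c : B, p (c * b) := by
    intro b hb
    have hb' := hb
    rw [wIdeal] at hb'
    refine Submodule.span_induction (p := fun b _ => ∀ c : B, p (c * b)) ?_ ?_ ?_ ?_ hb'
    · rintro _ ⟨α, hα, rfl⟩ c
      obtain ⟨i, -, hi⟩ : ∃ i ∈ Finset.univ, 0 < α i * w i := by
        by_contra hcon
        push Not at hcon
        have : ∑ i, α i * w i = 0 := Finset.sum_eq_zero fun i hi => Nat.le_zero.1 (hcon i hi)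
        omega
      have hw : 0 < w i := Nat.pos_of_mul_pos_left hi
      have hα' : 0 < α i := Nat.pos_of_mul_pos_right hi
      let β : Fin n → ℕ := Function.update α i (α i - 1)
      have hβi : β i = α i - 1 := Function.update_self i _ α
      have hβj : ∀ j ∈ Finset.univ.erase i, β j = α j := fun j hj =>
        Function.update_of_ne (Finset.ne_of_mem_erase hj) _ _
      have e1 : ∏ j, x j ^ α j = x i * ∏ j, x j ^ β j := by
        rw [← Finset.mul_prod_erase _ (fun j => x j ^ α j) (Finset.mem_univ i),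
          ← Finset.mul_prod_erase _ (fun j => x j ^ β j) (Finset.mem_univ i), hβi,
          Finset.prod_congr rfl fun j hj => by rw [← hβj j hj]]
        obtain ⟨m, hm⟩ := Nat.exists_eq_add_of_le' hα'
        rw [hm, Nat.add_sub_cancel, pow_succ]
        ring
      have e2 : ∑ j, α j * w j = w i + ∑ j, β j * w j := by
        rw [← Finset.add_sum_erase _ (fun j => α j * w j) (Finset.mem_univ i),
          ← Finset.add_sum_erase _ (fun j => β j * w j) (Finset.mem_univ i), hβi,
          Finset.sum_congr rfl fun j hj => by rw [← hβj j hj]]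
        obtain ⟨m, hm⟩ := Nat.exists_eq_add_of_le' hα'
        rw [hm, Nat.add_sub_cancel]
        ring
      have e3 : c * ∏ j, x j ^ α j = x i * (c * ∏ j, x j ^ β j) := by rw [e1]; ring
      rw [e3]
      exact hmul i hw _ (Ideal.mul_mem_left _ _ (monom_mem (by omega)))
    · intro c
      rw [mul_zero]; exact h0
    · intro y z hy hz hy' hz' c
      rw [mul_add]
      exact hadd _ (Ideal.mul_mem_left _ _ hy) _ (Ideal.mul_mem_left _ _ hz) (hy' c) (hz' c)
    · intro r y _ hy c
      rw [smul_eq_mul, ← mul_assoc]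
      exact hy _
  have := key b hb 1
  rwa [one_mul] at this

end ideal

section main

variable {k K : Type} [Field k] [Field K] [Algebra k K] {B : Type} [CommRing B] [Algebra k B]
  [Algebra B K] [IsScalarTower k B K] {n : ℕ}

lemma one_mem_wFam (x : Fin n → B) (w : Fin n → ℕ) {d : ℤ} (hd : d ≤ 0) :
    (1 : K) ∈ (wFam k K x w).s d := by
  rw [← map_one (algebraMap B K)]
  exact map_mem_wFam_nonpos hd 1

lemma single_sum' {τ : Type} (s : Finset τ) (f : τ → K) (a : ℤ) :
    (single a (∑ i ∈ s, f i) : AddMonoidAlgebra K ℤ) = ∑ i ∈ s, single a (f i) := by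
  classical
  induction s using Finset.induction_on with
  | empty => simp
  | insert i s hi ih => rw [Finset.sum_insert hi, Finset.sum_insert hi, single_add, ih]

/-- The homogeneous elements given by the coordinates. -/
noncomputable def elX (k K : Type) [Field k] [Field K] [Algebra k K] {B : Type} [CommRing B]
    [Algebra k B] [Algebra B K] [IsScalarTower k B K] {n : ℕ} (x : Fin n → B) (w : Fin n → ℕ)
    (i : Fin n) : (wFam k K x w).alg := (wFam k K x w).el (map_mem_wFam_nat (x_mem i))

/-- The degree zero part. -/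
noncomputable def baseW (k K : Type) [Field k] [Field K] [Algebra k K] {B : Type} [CommRing B]
    [Algebra k B] [Algebra B K] [IsScalarTower k B K] {n : ℕ} (x : Fin n → B) (w : Fin n → ℕ) :
    B →+* (wFam k K x w).alg :=
  (baseMap (wFam k K x w) B (fun b => map_mem_wFam_nonpos le_rfl b)).toRingHom

lemma coe_baseW (x : Fin n → B) (w : Fin n → ℕ) (b : B) :
    ((baseW k K x w b : (wFam k K x w).alg) : AddMonoidAlgebra K ℤ) =
      single 0 (algebraMap B K b) := rfl

/-- Weighted homogeneous polynomials in the homogeneous elements given by the coordinates. -/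
lemma eval_el (x : Fin n → B) {w : Fin n → ℕ} {g : MvPolynomial (Fin n) B} {m : ℕ}
    (hg : g.IsWeightedHomogeneous w m) :
    ((MvPolynomial.eval₂ (baseW k K x w) (elX k K x w) g :
      (wFam k K x w).alg) : AddMonoidAlgebra K ℤ) =
      single (m : ℤ) (algebraMap B K (MvPolynomial.eval x g)) := by
  classical
  rw [MvPolynomial.eval₂_eq', MvPolynomial.eval_eq', AddSubmonoidClass.coe_finsetSum, map_sum,
    single_sum']
  refine Finset.sum_congr rfl fun d hd => ?_
  have h1 := hg (MvPolynomial.mem_support_iff.1 hd)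
  rw [Finsupp.weight_apply, Finsupp.sum_fintype _ _ (fun i => zero_smul ℕ (w i))] at h1
  rw [map_mul, map_prod]
  have h2 : (((∏ i, elX k K x w i ^ d i :
      (wFam k K x w).alg)) : AddMonoidAlgebra K ℤ) =
      single (m : ℤ) (∏ i, algebraMap B K (x i ^ d i)) := by
    rw [SubmonoidClass.coe_finsetProd]
    have h3 : ∀ i, (((elX k K x w i ^ d i : (wFam k K x w).alg)) : AddMonoidAlgebra K ℤ) =
        single ((d i * w i : ℕ) : ℤ) (algebraMap B K (x i ^ d i)) := by
      intro i
      rw [SubmonoidClass.coe_pow, elX, Fam.coe_el, single_pow, map_pow, nsmul_eq_mul]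
      push_cast
      rfl
    rw [Finset.prod_congr rfl fun i _ => h3 i, prod_single]
    congr 1
    rw [← h1]
    push_cast
    simp
  rw [MulMemClass.coe_mul, h2, coe_baseW, single_mul_single, zero_add]

/-- `σ - 1` raises the weighted filtration by `e`. -/
theorem delta_mem (x : Fin n → B)
    (hx : (MvPolynomial.aeval x : MvPolynomial (Fin n) k →ₐ[k] B).toRingHom.Etale)
    (σB : B →ₐ[k] B) (w : Fin n → ℕ) (e : ℕ)
    (g : Fin n → MvPolynomial (Fin n) B) (hg : ∀ i, (g i).IsWeightedHomogeneous w (w i + e))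
    (hlead : ∀ i, σB (x i) - x i - MvPolynomial.eval x (g i) ∈ wIdeal x w (w i + e + 1))
    (hfix1 : ∀ b, σB b - b ∈ cIdeal x w) {a : ℕ} {b : B} (hb : b ∈ wIdeal x w a) :
    σB b - b ∈ wIdeal x w (a + e) := by
  have hδx : ∀ i, σB (x i) - x i ∈ wIdeal x w (w i + e) := by
    intro i
    have h1 := Ideal.add_mem _ (wIdeal_anti (Nat.le_succ _) (hlead i))
      (eval_mem_wIdeal x (hg i))
    rwa [sub_add_cancel] at h1
  have hδ0 : ∀ b, σB b - b ∈ wIdeal x w e := by
    refine sub_mem_of_coord x hx σB (wIdeal x w e) (cIdeal x w) (m := e) ?_ ?_ hfix1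
    · rw [← wIdeal_one]; exact wIdeal_one_pow e
    · intro i
      exact wIdeal_anti (Nat.le_add_left _ _) (hδx i)
  exact sub_mem_wIdeal x w σB e hδx hδ0 hb

/-- The fixed locus is principal outside the irrelevant locus. -/
def Prin (N : Fam k K ℤ) (σ : K ≃ₐ[k] K) (e : ℕ) : Prop :=
  ∀ (q : Ideal N.alg), q.IsPrime → (∃ d : ℤ, 0 < d ∧ ∃ (z : K) (hz : z ∈ N.s d), N.el hz ∉ q) →
    ∃ (a : ℤ) (z : K) (_ : z ∈ N.s a) (hz' : σ z - z ∈ N.s (a + e)), N.el hz' ∉ q

theorem prin_wFam (x : Fin n → B)
    (σB : B →ₐ[k] B) (σ : K ≃ₐ[k] K) (hσK : ∀ b, σ (algebraMap B K b) = algebraMap B K (σB b))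
    (w : Fin n → ℕ) (e : ℕ)
    (g : Fin n → MvPolynomial (Fin n) B) (hg : ∀ i, (g i).IsWeightedHomogeneous w (w i + e))
    (hrad : ∀ i, 0 < w i → MvPolynomial.X i ∈
      (Ideal.span (Set.range g) ⊔ (cIdeal x w).map MvPolynomial.C).radical)
    (hlead : ∀ i, σB (x i) - x i - MvPolynomial.eval x (g i) ∈ wIdeal x w (w i + e + 1))
    (hδ : ∀ a, ∀ z ∈ (wFam k K x w).s a, σ z - z ∈ (wFam k K x w).s (a + e))
    (hfix2 : ∀ i, 0 < w i → x i ∈ (Ideal.span (Set.range fun b => σB b - b)).radical) :
    Prin (wFam k K x w) σ e := by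
  intro q hq ⟨d, hd, z, hz, hzq⟩
  by_contra hcon'
  push Not at hcon'
  have hcon : ∀ (a : ℤ) (z : K) (hz : z ∈ (wFam k K x w).s a),
      (wFam k K x w).el (hδ a z hz) ∈ q := fun a z hz => hcon' a z hz (hδ a z hz)
  -- the coordinates
  have hX : ∀ i, 0 < w i → (wFam k K x w).el (map_mem_wFam_nat (x_mem (x := x) i)) ∈ q := by
    by_cases ht : (wFam k K x w).el (one_mem_wFam (k := k) (K := K) x w
      (show (-1 : ℤ) ≤ 0 by norm_num)) ∈ q
    · intro i hi
      have hqc : (q.comap (MvPolynomial.eval₂Hom (baseW k K x w) (elX k K x w))).IsPrime :=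
        Ideal.comap_isPrime _ q
      have hle : Ideal.span (Set.range g) ⊔ (cIdeal x w).map MvPolynomial.C ≤
          q.comap (MvPolynomial.eval₂Hom (baseW k K x w) (elX k K x w)) := by
        refine sup_le (Ideal.span_le.2 ?_) ?_
        · rintro _ ⟨j, rfl⟩
          rw [SetLike.mem_coe, Ideal.mem_comap]
          have h1 := hcon (w j) (algebraMap B K (x j)) (map_mem_wFam_nat (x_mem j))
          have h2 : algebraMap B K (σB (x j) - x j - MvPolynomial.eval x (g j)) ∈
              (wFam k K x w).s ((w j + e : ℕ) + (1 : ℕ) : ℤ) := by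
            have := map_mem_wFam_nat (k := k) (K := K) (hlead j)
            exact_mod_cast this
          have h3 : algebraMap B K (σB (x j) - x j - MvPolynomial.eval x (g j)) ∈
              (wFam k K x w).s ((w j + e : ℕ) : ℤ) :=
            map_mem_wFam_nat (wIdeal_anti (Nat.le_succ _) (hlead j))
          have h4 := el_T_mul (wFam k K x w) (e := 1) (one_mem_wFam x w (by norm_num)) h2 h3
          have h5 : (wFam k K x w).el h3 ∈ q := by
            rw [← h4]
            exact Ideal.mul_mem_right _ _ ht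
          have h6 : MvPolynomial.eval₂Hom (baseW k K x w) (elX k K x w) (g j) =
              (wFam k K x w).el (hδ (w j) (algebraMap B K (x j)) (map_mem_wFam_nat (x_mem j))) -
                (wFam k K x w).el h3 := by
            refine Subtype.ext ?_
            rw [MvPolynomial.coe_eval₂Hom, eval_el x (hg j)]
            change _ = (single _ _ - single _ _ : AddMonoidAlgebra K ℤ)
            rw [Nat.cast_add, ← single_sub, hσK, ← map_sub, ← map_sub]
            congr 2
            ring
          rw [h6]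
          exact Ideal.sub_mem _ h1 h5
        · rw [cIdeal, Ideal.map_span]
          refine Ideal.span_le.2 ?_
          rintro _ ⟨_, ⟨l, hl, rfl⟩, rfl⟩
          rw [SetLike.mem_coe, Ideal.mem_comap, MvPolynomial.eval₂Hom_C]
          have h1 : algebraMap B K (x l) ∈ (wFam k K x w).s (0 + (1 : ℕ) : ℤ) := by
            rw [zero_add]
            exact map_mem_wFam_nat (wIdeal_anti hl (x_mem l))
          have h2 := el_T_mul (wFam k K x w) (e := 1) (one_mem_wFam x w (by norm_num)) h1
            (map_mem_wFam_nonpos le_rfl (x l))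
          have h3 : baseW k K x w (x l) = (wFam k K x w).el
              (map_mem_wFam_nonpos (k := k) (K := K) (x := x) (w := w) le_rfl (x l)) := rfl
          rw [h3, ← h2]
          exact Ideal.mul_mem_right _ _ ht
      have h7 := (hqc.radical_le_iff.2 hle) (hrad i hi)
      rw [Ideal.mem_comap, MvPolynomial.eval₂Hom_X'] at h7
      exact h7
    · intro i hi
      have hqc : (q.comap (baseMap (wFam k K x w) B
        (fun b => map_mem_wFam_nonpos le_rfl b))).IsPrime := Ideal.comap_isPrime _ q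
      have hle : Ideal.span (Set.range fun b => σB b - b) ≤ q.comap (baseMap (wFam k K x w) B
        (fun b => map_mem_wFam_nonpos le_rfl b)) := by
        refine Ideal.span_le.2 ?_
        rintro _ ⟨b, rfl⟩
        rw [SetLike.mem_coe, Ideal.mem_comap]
        have h1 := hcon 0 (algebraMap B K b) (map_mem_wFam_nonpos le_rfl b)
        have h2 : σ (algebraMap B K b) - algebraMap B K b ∈ (wFam k K x w).s 0 := by
          rw [hσK, ← map_sub]; exact map_mem_wFam_nonpos le_rfl _
        have h3 := el_T_mul (wFam k K x w) (e := e) (one_mem_wFam x w (by omega))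
          (hδ 0 (algebraMap B K b) (map_mem_wFam_nonpos le_rfl b)) h2
        have h4 : baseMap (wFam k K x w) B (fun b => map_mem_wFam_nonpos le_rfl b) (σB b - b) =
            (wFam k K x w).el h2 := by
          refine Fam.el_eq _ (map_mem_wFam_nonpos le_rfl (σB b - b)) h2 rfl ?_
          rw [hσK, ← map_sub]
        rw [h4, ← h3]
        exact Ideal.mul_mem_left _ _ h1
      have h7 := (hqc.radical_le_iff.2 hle) (hfix2 i hi)
      rw [Ideal.mem_comap] at h7
      have h8 : algebraMap B K (x i) ∈ (wFam k K x w).s (0 + (w i : ℕ) : ℤ) := by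
        rw [zero_add]; exact map_mem_wFam_nat (x_mem i)
      have h9 := el_T_mul (wFam k K x w) (e := w i) (one_mem_wFam x w (by omega)) h8
        (map_mem_wFam_nonpos le_rfl (x i))
      have h10 : (wFam k K x w).el (one_mem_wFam (k := k) (K := K) x w
          (show (-(w i : ℤ)) ≤ 0 by omega)) ∉ q := by
        have h11 : (wFam k K x w).el (one_mem_wFam (k := k) (K := K) x w
            (show (-(w i : ℤ)) ≤ 0 by omega)) = (wFam k K x w).el
            (one_mem_wFam (k := k) (K := K) x w (show (-1 : ℤ) ≤ 0 by norm_num)) ^ (w i) := by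
          rw [Fam.el_pow]
          exact Fam.el_eq _ _ _ (by simp) (by simp)
        rw [h11]
        exact fun h => ht (hq.mem_of_pow_mem _ h)
      have h12 : (wFam k K x w).el (one_mem_wFam (k := k) (K := K) x w
          (show (-(w i : ℤ)) ≤ 0 by omega)) * (wFam k K x w).el h8 ∈ q := by
        rw [h9]; exact h7
      rcases hq.mem_or_mem h12 with h13 | h13
      · exact absurd h13 h10
      · have h14 : (wFam k K x w).el (map_mem_wFam_nat (x_mem (x := x) i)) =
            (wFam k K x w).el h8 := Fam.el_eq _ _ _ (by simp) rfl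
        rw [h14]; exact h13
  -- all elements of positive degree
  apply hzq
  obtain ⟨b, hb, rfl⟩ := hz
  have key : ∀ {b : B}, b ∈ wIdeal x w d.toNat → ∃ h : algebraMap B K b ∈ (wFam k K x w).s d,
      (wFam k K x w).el h ∈ q := by
    intro b hb
    refine wIdeal_induction (p := fun b => ∃ h : algebraMap B K b ∈ (wFam k K x w).s d,
      (wFam k K x w).el h ∈ q) (a := d.toNat) (by omega) ?_ ?_ ?_ hb
    · refine ⟨by rw [map_zero]; exact Submodule.zero_mem _, ?_⟩
      rw [el_eq_zero _ _ (map_zero _)]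
      exact Ideal.zero_mem _
    · rintro y - z - ⟨hy, hy'⟩ ⟨hz, hz'⟩
      refine ⟨by rw [map_add]; exact Submodule.add_mem _ hy hz, ?_⟩
      have h1 := Ideal.add_mem _ hy' hz'
      rw [el_add] at h1
      convert h1 using 1
      exact Fam.el_eq _ _ _ rfl (map_add _ _ _)
    · intro i hi y hy
      have h1 : algebraMap B K y ∈ (wFam k K x w).s (d - w i) :=
        map_mem_wFam (by convert hy using 2; omega)
      have h2 := Ideal.mul_mem_right ((wFam k K x w).el h1) _ (hX i hi)
      rw [Fam.el_mul] at h2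
      have h3 := (wFam k K x w).mul' (map_mem_wFam_nat (k := k) (K := K) (x_mem (x := x) i)) h1
      have h4 : (w i : ℤ) + (d - w i) = d := by ring
      refine ⟨by rw [map_mul, ← h4]; exact h3, ?_⟩
      convert h2 using 1
      exact Fam.el_eq _ _ _ h4.symm (map_mul _ _ _)
  exact (key hb).2

theorem good_wFam (p : ℕ) [Fact p.Prime] [CharP k p]
    (hinj : Function.Injective (algebraMap B K)) (x : Fin n → B)
    (hx : (MvPolynomial.aeval x : MvPolynomial (Fin n) k →ₐ[k] B).toRingHom.Etale)
    (σB : B →ₐ[k] B) (σ : K ≃ₐ[k] K) (hσK : ∀ b, σ (algebraMap B K b) = algebraMap B K (σB b))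
    (hσ : σ ^ p = 1) (w : Fin n → ℕ) (hw : ∃ i, 0 < w i) (e : ℕ) (he : 0 < e)
    (g : Fin n → MvPolynomial (Fin n) B) (hg : ∀ i, (g i).IsWeightedHomogeneous w (w i + e))
    (hrad : ∀ i, 0 < w i → MvPolynomial.X i ∈
      (Ideal.span (Set.range g) ⊔ (cIdeal x w).map MvPolynomial.C).radical)
    (hlead : ∀ i, σB (x i) - x i - MvPolynomial.eval x (g i) ∈ wIdeal x w (w i + e + 1))
    (hfix1 : ∀ b, σB b - b ∈ cIdeal x w)
    (hfix2 : ∀ i, 0 < w i → x i ∈ (Ideal.span (Set.range fun b => σB b - b)).radical) :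
    ∃ w', 0 < w' ∧ Good (invFam (wFam k K x w) σ) w' := by
  have : Nontrivial B := (algebraMap B K).domain_nontrivial
  obtain ⟨hft, hsm⟩ := wFam_smooth_fg hinj x hx w hw
  have hfg : (wFam k K x w).alg.FG := (Subalgebra.fg_iff_finiteType _).2 hft
  have hδ : ∀ a, ∀ z ∈ (wFam k K x w).s a, σ z - z ∈ (wFam k K x w).s (a + e) := by
    rintro a _ ⟨b, hb, rfl⟩
    change σ (algebraMap B K b) - algebraMap B K b ∈ _
    rw [hσK, ← map_sub]
    exact map_mem_wFam (wIdeal_anti (by omega) (delta_mem x hx σB w e g hg hlead hfix1 hb))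
  have hst : Stable (wFam k K x w) σ := by
    intro a z hz
    have h1 : σ z - z ∈ (wFam k K x w).s a :=
      Fam.mem_of_le _ (one_mem_wFam x w (by norm_num)) (by omega) (hδ a z hz)
    have h2 := Submodule.add_mem _ h1 hz
    rwa [sub_add_cancel] at h2
  have hx0 : ∀ i, algebraMap B K (x i) ≠ 0 := by
    intro i h
    have h1 : x i = 0 := hinj (by rw [h, map_zero])
    have h2 : (MvPolynomial.aeval x : MvPolynomial (Fin n) k →ₐ[k] B) (MvPolynomial.X i) = 0 := by
      rw [MvPolynomial.aeval_X, h1]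
    exact MvPolynomial.X_ne_zero i (injective_of_etale x hx (by rw [h2, map_zero]))
  refine good_of_action p (wFam k K x w) σ hσ hfg hst ?_ ?_ ?_ e he hδ ?_
  · intro d hd z hz hz0
    exact Fam.formallySmooth_loc _ hz hz0 hsm
  · intro d hd
    exact one_mem_wFam x w hd
  · obtain ⟨i, hi⟩ := hw
    exact ⟨w i, by exact_mod_cast hi, _, map_mem_wFam_nat (x_mem i), hx0 i⟩
  · intro q hq hex
    obtain ⟨a, z, hz, hz', h⟩ := prin_wFam x σB σ hσK w e g hg hrad hlead hδ hfix2 q hq hex
    exact ⟨a, z, hz, h⟩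

end main

end Pool.Agent.MP_b525bf_ag_h5
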