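import Mathlib
import Pool.Agent.Lib.MP_b525bf_ag_h5.PC
import Pool.Agent.Lib.MP_b525bf_ag_h5.WMain

/-!
Uniqueness of the weighted filtration attached to an action.
-/

set_option autoImplicit false

namespace Pool.Agent.MP_b525bf_ag_h5

open Pool.Agent.MP_b525bf_ag AddMonoidAlgebra

section

variable {k K : Type} [Field k] [Field K] [Algebra k K]

omit [Algebra k K] in
lemma coeff_single_same (a : ℤ) (z : K) : (single a z : AddMonoidAlgebra K ℤ).coeff a = z := by
  rw [AddMonoidAlgebra.coeff_single, Finsupp.single_eq_same]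

omit [Algebra k K] in
lemma coeff_single_ne {a b : ℤ} (h : a ≠ b) (z : K) :
    (single a z : AddMonoidAlgebra K ℤ).coeff b = 0 := by
  rw [AddMonoidAlgebra.coeff_single, Finsupp.single_eq_of_ne h.symm]

/-- A family which is closed under taking roots. -/
def PowClosed (N : Fam k K ℤ) : Prop :=
  ∀ (z : K) (m : ℕ) (c v : ℤ), 0 < m → z ∈ N.s 0 → z ^ m ∈ N.s c → m * v < c + m → z ∈ N.s v

lemma PowClosed.loc {N : Fam k K ℤ} (hN : PowClosed N) {f : K} (hf : f ∈ N.s 0) :
    PowClosed (N.loc hf) := by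
  rintro z m c v hm ⟨r, hr⟩ ⟨j, hj⟩ hv
  rw [smul_zero, zero_add] at hr hj
  have hfp : ∀ i : ℕ, f ^ i ∈ N.s 0 := fun i => by
    have := N.pow' hf i
    rwa [smul_zero] at this
  refine ⟨r + j, ?_⟩
  rw [smul_zero, zero_add]
  refine hN _ m c v hm ?_ ?_ hv
  · have h1 := N.mul' (hfp j) hr
    rw [zero_add] at h1
    convert h1 using 1
    ring
  · obtain ⟨m', rfl⟩ : ∃ m', m = m' + 1 := ⟨m - 1, by omega⟩
    have h1 := N.mul' (hfp (r * (m' + 1) + j * m')) hj
    rw [zero_add] at h1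
    convert h1 using 1
    ring

lemma powClosed_wFam {L : Type} [CommRing L] [Algebra k L] [Algebra L K] [IsScalarTower k L K]
    {n : ℕ} (hinj : Function.Injective (algebraMap L K)) (x : Fin n → L)
    (hx : (MvPolynomial.aeval x : MvPolynomial (Fin n) k →ₐ[k] L).toRingHom.Etale)
    (w : Fin n → ℕ) (hw : ∃ i, 0 < w i) : PowClosed (wFam k K x w) := by
  rintro z m c v hm ⟨b, -, rfl⟩ hc hv
  change algebraMap L K b ∈ _
  change (algebraMap L K b) ^ m ∈ _ at hc
  by_cases hv0 : v ≤ 0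
  · exact map_mem_wFam_nonpos hv0 b
  · push Not at hv0
    obtain ⟨b', hb', h⟩ := hc
    have h1 : b' = b ^ m := hinj (by rw [map_pow]; exact h)
    subst h1
    obtain ⟨v, rfl⟩ := Int.eq_ofNat_of_zero_le hv0.le
    have hc0 : 0 ≤ c := by
      have h2 : (m : ℤ) * 1 ≤ m * v := by
        refine mul_le_mul_of_nonneg_left ?_ (by positivity)
        omega
      omega
    obtain ⟨c, rfl⟩ := Int.eq_ofNat_of_zero_le hc0
    refine map_mem_wFam_nat (pow_closed' k K hinj x hx w hw (m := m) (c := c) hm hb' ?_)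
    exact_mod_cast hv

/-- The combinations of the elements `u * (σ z - z)` of total weight `D`. -/
def dSpan (N : Fam k K ℤ) (σ : K ≃ₐ[k] K) (e : ℕ) (D : ℤ) : Submodule k K :=
  Submodule.span k {y | ∃ (a : ℤ) (z u : K), z ∈ N.s a ∧ u ∈ N.s (D - a - e) ∧
    y = u * (σ z - z)}

lemma mul_mem_dSpan {N : Fam k K ℤ} {σ : K ≃ₐ[k] K} {e : ℕ} {D b : ℤ} {y c : K}
    (hc : c ∈ N.s b) (hy : y ∈ dSpan N σ e D) : c * y ∈ dSpan N σ e (b + D) := by
  rw [dSpan] at hy
  refine Submodule.span_induction (p := fun y _ => c * y ∈ dSpan N σ e (b + D)) ?_ ?_ ?_ ?_ hy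
  · rintro _ ⟨a, z, u, hz, hu, rfl⟩
    refine Submodule.subset_span ⟨a, z, c * u, hz, ?_, by ring⟩
    have h1 := N.mul' hc hu
    convert h1 using 2
    ring
  · rw [mul_zero]; exact Submodule.zero_mem _
  · intro y z _ _ hy hz
    rw [mul_add]; exact Submodule.add_mem _ hy hz
  · intro r y _ hy
    rw [mul_smul_comm]; exact Submodule.smul_mem _ _ hy

lemma coeff_mem_dSpan {N : Fam k K ℤ} {σ : K ≃ₐ[k] K} {e : ℕ}
    (hδ : ∀ a, ∀ z ∈ N.s a, σ z - z ∈ N.s (a + e)) {F : N.alg}
    (hF : F ∈ Ideal.span {G : N.alg | ∃ (a : ℤ) (z : K) (hz : z ∈ N.s a), G = N.el (hδ a z hz)})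
    (D : ℤ) : (F : AddMonoidAlgebra K ℤ).coeff D ∈ dSpan N σ e D := by
  revert D
  refine Submodule.span_induction (p := fun F _ => ∀ D : ℤ,
    ((F : N.alg) : AddMonoidAlgebra K ℤ).coeff D ∈ dSpan N σ e D) ?_ ?_ ?_ ?_ hF
  · rintro _ ⟨a, z, hz, rfl⟩ D
    rw [Fam.coe_el]
    by_cases h : a + e = D
    · subst h
      rw [coeff_single_same]
      refine Submodule.subset_span ⟨a, z, 1, hz, ?_, by rw [one_mul]⟩
      have h2 : a + (e : ℤ) - a - e = 0 := by ring
      rw [h2]; exact N.one'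
    · rw [coeff_single_ne h]; exact Submodule.zero_mem _
  · intro D; exact Submodule.zero_mem _
  · intro F G _ _ hF hG D
    have h1 : ((F + G : N.alg) : AddMonoidAlgebra K ℤ).coeff D =
        (F : AddMonoidAlgebra K ℤ).coeff D + (G : AddMonoidAlgebra K ℤ).coeff D := by
      simp
    rw [h1]
    exact Submodule.add_mem _ (hF D) (hG D)
  · intro c F _ hF
    refine Fam.alg_induction N (p := fun c : N.alg => ∀ D : ℤ,
      ((c • F : N.alg) : AddMonoidAlgebra K ℤ).coeff D ∈ dSpan N σ e D) ?_ ?_ ?_ c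
    · intro D
      rw [zero_smul]; exact Submodule.zero_mem _
    · intro c c' hc hc' D
      rw [add_smul]
      have h1 : ((c • F + c' • F : N.alg) : AddMonoidAlgebra K ℤ).coeff D =
          ((c • F : N.alg) : AddMonoidAlgebra K ℤ).coeff D +
          ((c' • F : N.alg) : AddMonoidAlgebra K ℤ).coeff D := by simp
      rw [h1]
      exact Submodule.add_mem _ (hc D) (hc' D)
    · intro a y hy D
      have h1 : ((N.el hy • F : N.alg) : AddMonoidAlgebra K ℤ).coeff D =
          y * (F : AddMonoidAlgebra K ℤ).coeff (D - a) := by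
        rw [smul_eq_mul, MulMemClass.coe_mul, Fam.coe_el]
        rw [coeff_single_mul_eq_mul_coeff (D - a)
          (by intro b _; constructor <;> intro h <;> omega)]
      rw [h1]
      have h2 := mul_mem_dSpan hy (hF (D - a))
      rwa [add_sub_cancel] at h2

theorem Prin.exists_pow {N : Fam k K ℤ} {σ : K ≃ₐ[k] K} {e : ℕ} (hP : Prin N σ e)
    (hδ : ∀ a, ∀ z ∈ N.s a, σ z - z ∈ N.s (a + e)) {d : ℤ} (hd : 0 < d) {z : K}
    (hz : z ∈ N.s d) : ∃ M : ℕ, 0 < M ∧ z ^ M ∈ dSpan N σ e (M * d) := by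
  set I : Ideal N.alg :=
    Ideal.span {G : N.alg | ∃ (a : ℤ) (z : K) (hz : z ∈ N.s a), G = N.el (hδ a z hz)} with hI
  have hrad : N.el hz ∈ I.radical := by
    by_contra hcon
    rw [Ideal.radical_eq_sInf, Submodule.mem_sInf] at hcon
    push Not at hcon
    obtain ⟨q, ⟨hIq, hq⟩, hzq⟩ := hcon
    obtain ⟨a, y, hy, hy', hyq⟩ := hP q hq ⟨d, hd, z, hz, hzq⟩
    exact hyq (hIq (Ideal.subset_span ⟨a, y, hy, rfl⟩))
  obtain ⟨M, hM⟩ := hrad
  refine ⟨M + 1, Nat.succ_pos _, ?_⟩
  have h1 : N.el hz ^ (M + 1) ∈ I := by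
    rw [pow_succ]; exact Ideal.mul_mem_right _ _ hM
  have h2 := coeff_mem_dSpan hδ h1 ((M + 1 : ℕ) • d)
  rw [Fam.el_pow, Fam.coe_el, coeff_single_same, nsmul_eq_mul] at h2
  exact h2

end

section uniq

variable {k K : Type} [Field k] [Field K] [Algebra k K] {L : Type} [CommRing L] [Algebra k L]
  [Algebra L K] [IsScalarTower k L K] {n : ℕ}

lemma wFam_le_aux (x : Fin n → L) (w : Fin n → ℕ) (N' : Fam k K ℤ) (hone : (1 : K) ∈ N'.s (-1))
    (h0 : ∀ b : L, algebraMap L K b ∈ N'.s 0) (v : Fin n → ℕ)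
    (hv : ∀ i, algebraMap L K (x i) ∈ N'.s (v i)) (V W : ℕ) (hW : 0 < W)
    (hVW : ∀ i, V * w i ≤ v i * W) (a c : ℤ) (hac : W * c ≤ V * a + (W - 1)) :
    (wFam k K x w).s a ≤ N'.s c := by
  rintro _ ⟨b, hb, rfl⟩
  change b ∈ wIdeal x w a.toNat at hb
  change algebraMap L K b ∈ N'.s c
  rw [wIdeal] at hb
  refine Submodule.span_induction (p := fun b _ => algebraMap L K b ∈ N'.s c) ?_ ?_ ?_ ?_ hb
  · rintro _ ⟨α, hα, rfl⟩
    have h1 : ∀ s : Finset (Fin n), algebraMap L K (∏ i ∈ s, x i ^ α i) ∈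
        N'.s ((∑ i ∈ s, α i * v i : ℕ) : ℤ) := by
      classical
      intro s
      induction s using Finset.induction_on with
      | empty => simpa using N'.one'
      | insert i s hi ih =>
        rw [Finset.prod_insert hi, Finset.sum_insert hi, Nat.cast_add, map_mul]
        refine N'.mul' ?_ ih
        have h4 := N'.pow' (hv i) (α i)
        rw [map_pow]
        rw [nsmul_eq_mul] at h4
        exact_mod_cast h4
    refine Fam.mem_of_le _ hone ?_ (h1 Finset.univ)
    have h2 : V * a.toNat ≤ W * ∑ i, α i * v i := by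
      calc V * a.toNat ≤ V * ∑ i, α i * w i := Nat.mul_le_mul_left _ hα
        _ = ∑ i, α i * (V * w i) := by
          rw [Finset.mul_sum]; exact Finset.sum_congr rfl fun i _ => by ring
        _ ≤ ∑ i, α i * (v i * W) := Finset.sum_le_sum fun i _ => Nat.mul_le_mul_left _ (hVW i)
        _ = W * ∑ i, α i * v i := by
          rw [Finset.mul_sum]; exact Finset.sum_congr rfl fun i _ => by ring
    have h3 : (V : ℤ) * a ≤ W * (∑ i, α i * v i : ℕ) := by
      have h4 : (V : ℤ) * a ≤ V * a.toNat :=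
        mul_le_mul_of_nonneg_left (Int.self_le_toNat a) (by positivity)
      have h5 : ((V * a.toNat : ℕ) : ℤ) ≤ ((W * ∑ i, α i * v i : ℕ) : ℤ) := by exact_mod_cast h2
      push_cast at h5 ⊢
      linarith
    have h4 : (W : ℤ) * c < W * ((∑ i, α i * v i : ℕ) + 1) := by
      rw [mul_add, mul_one]; linarith
    have h5 := lt_of_mul_lt_mul_left h4 (by positivity)
    omega
  · rw [map_zero]; exact Submodule.zero_mem _
  · intro y z _ _ hy hz
    rw [map_add]; exact Submodule.add_mem _ hy hz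
  · intro r y _ hy
    rw [smul_eq_mul, map_mul]
    have := N'.mul' (h0 r) hy
    rwa [zero_add] at this

/-- The weighted filtration is the smallest filtration which is closed under roots and raised by
`σ - 1`. -/
theorem wFam_le (x : Fin n → L) (w : Fin n → ℕ) (σ : K ≃ₐ[k] K) (e : ℕ) (he : 0 < e)
    (hrel : ∀ i, 0 < w i → ∃ M : ℕ, 0 < M ∧
      algebraMap L K (x i) ^ M ∈ dSpan (wFam k K x w) σ e (M * w i))
    (N' : Fam k K ℤ) (hone : (1 : K) ∈ N'.s (-1)) (h0 : ∀ b : L, algebraMap L K b ∈ N'.s 0)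
    (hδ : ∀ a, ∀ z ∈ N'.s a, σ z - z ∈ N'.s (a + e)) (hpc : PowClosed N') (a : ℤ) :
    (wFam k K x w).s a ≤ N'.s a := by
  classical
  let v : Fin n → ℕ := fun i =>
    Nat.findGreatest (fun c : ℕ => algebraMap L K (x i) ∈ N'.s c) (w i)
  have hv : ∀ i, algebraMap L K (x i) ∈ N'.s (v i) := fun i =>
    Nat.findGreatest_spec (P := fun c : ℕ => algebraMap L K (x i) ∈ N'.s c) (Nat.zero_le _)
      (by simpa using h0 (x i))
  have hvw : ∀ i, v i ≤ w i := fun i => Nat.findGreatest_le _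
  have hall : ∀ i, 0 < w i → v i = w i := by
    by_contra hcon
    push Not at hcon
    obtain ⟨j, hj, hvj⟩ := hcon
    obtain ⟨i0, hi0, hmin⟩ := Finset.exists_min_image (Finset.univ.filter fun i => 0 < w i)
      (fun i => (v i : ℚ) / w i) ⟨j, by simpa using hj⟩
    have hW : 0 < w i0 := by simpa using hi0
    have hVW : ∀ i, v i0 * w i ≤ v i * w i0 := by
      intro i
      rcases Nat.eq_zero_or_pos (w i) with h | h
      · rw [h, mul_zero]; exact Nat.zero_le _
      · have h1 := hmin i (by simpa using h)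
        rw [div_le_div_iff₀ (by exact_mod_cast hW) (by exact_mod_cast h)] at h1
        exact_mod_cast h1
    have hlt : v i0 < w i0 := by
      have h1 := hVW j
      have h2 : v j < w j := lt_of_le_of_ne (hvw j) hvj
      by_contra h3
      push Not at h3
      have h4 : w i0 * w j ≤ v j * w i0 := (Nat.mul_le_mul_right _ h3).trans h1
      have h5 : v j * w i0 < w j * w i0 := Nat.mul_lt_mul_of_pos_right h2 hW
      rw [mul_comm (w i0)] at h4
      omega
    obtain ⟨M, hM, hrelM⟩ := hrel i0 hW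
    have hkey : algebraMap L K (x i0) ^ M ∈ N'.s (v i0 * M + 1) := by
      rw [dSpan] at hrelM
      refine (show Submodule.span k _ ≤ N'.s (v i0 * M + 1) from Submodule.span_le.2 ?_) hrelM
      rintro _ ⟨b, z, u, hz, hu, rfl⟩
      have hWz : (0 : ℤ) < w i0 := by exact_mod_cast hW
      -- the best weights
      have hbest : ∀ b : ℤ, ∃ c : ℤ, (w i0 : ℤ) * c ≤ v i0 * b + (w i0 - 1) ∧
          (v i0 : ℤ) * b ≤ w i0 * c := by
        intro b
        refine ⟨((v i0 : ℤ) * b + (w i0 - 1)) / w i0, Int.mul_ediv_self_le hWz.ne', ?_⟩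
        have := Int.lt_mul_ediv_self_add (x := (v i0 : ℤ) * b + (w i0 - 1)) hWz
        linarith
      obtain ⟨c1, hc1, hc1'⟩ := hbest b
      obtain ⟨c2, hc2, hc2'⟩ := hbest (M * w i0 - b - e)
      have hz' := wFam_le_aux x w N' hone h0 v hv (v i0) (w i0) hW hVW b c1 hc1 hz
      have hu' := wFam_le_aux x w N' hone h0 v hv (v i0) (w i0) hW hVW _ c2 hc2 hu
      refine Fam.mem_of_le _ hone ?_ (N'.mul' hu' (hδ c1 z hz'))
      have h1 : (w i0 : ℤ) * (v i0 * M) < w i0 * (c2 + (c1 + e)) := by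
        have h2 : (v i0 : ℤ) * e < w i0 * e := by
          refine mul_lt_mul_of_pos_right (by exact_mod_cast hlt) (by exact_mod_cast he)
        have h3 : (w i0 : ℤ) * (c2 + (c1 + e)) = w i0 * c2 + w i0 * c1 + w i0 * e := by ring
        have h4 : (v i0 : ℤ) * (M * w i0 - b - e) = w i0 * (v i0 * M) - v i0 * b - v i0 * e := by
          ring
        rw [h3]
        rw [h4] at hc2'
        linarith
      have h5 := lt_of_mul_lt_mul_left h1 hWz.le
      omega
    have h1 := hpc _ M (v i0 * M + 1) (v i0 + 1) hM (h0 (x i0)) hkey (by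
      have : (M : ℤ) * (v i0 + 1) = v i0 * M + M := by ring
      omega)
    have h2 : v i0 + 1 ≤ v i0 := by
      refine Nat.le_findGreatest hlt ?_
      push_cast
      exact h1
    omega
  refine wFam_le_aux x w N' hone h0 v hv 1 1 one_pos (fun i => ?_) a a (by simp)
  rw [one_mul, mul_one]
  rcases Nat.eq_zero_or_pos (w i) with h | h
  · rw [h]; exact Nat.zero_le _
  · exact (hall i h).ge

end uniq

end Pool.Agent.MP_b525bf_ag_h5
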