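import Mathlib
import Pool.Agent.Lib.MP_b525bf_ag_h5.Uniq

/-!
Charts adapted to an automorphism: étale coordinates with weights such that `τ - 1` raises the
weighted filtration by `e` and the coordinates of positive weight satisfy relations.
-/

set_option autoImplicit false

namespace Pool.Agent.MP_b525bf_ag_h5

open Pool.Agent.MP_b525bf_ag AddMonoidAlgebra

/-- The ideal generated by the products `u * (τ z - z)` of weight at least `D`, where `τ z - z`
counts with the weight of `z` plus `e`. -/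
def rIdeal {L : Type} [CommRing L] {n : ℕ} (x : Fin n → L) (w : Fin n → ℕ) (τ : L →+* L) (e D : ℕ) :
    Ideal L :=
  Ideal.span {y | ∃ (a b : ℕ) (z u : L), D ≤ a + b + e ∧ z ∈ wIdeal x w a ∧ u ∈ wIdeal x w b ∧
    y = u * (τ z - z)}

/-- Adapted charts. -/
structure IsChart (k : Type) {L : Type} [Field k] [CommRing L] [Algebra k L] (τ : L →+* L) (e : ℕ)
    {n : ℕ} (x : Fin n → L) (w : Fin n → ℕ) : Prop where
  etale : (MvPolynomial.aeval x : MvPolynomial (Fin n) k →ₐ[k] L).toRingHom.Etale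
  delta : ∀ a, ∀ b ∈ wIdeal x w a, τ b - b ∈ wIdeal x w (a + e)
  rel : ∀ i, 0 < w i → ∃ M, 0 < M ∧ x i ^ M ∈ rIdeal x w τ e (M * w i)

section ring

variable {L : Type} [CommRing L] {n : ℕ} {x : Fin n → L} {w : Fin n → ℕ}

lemma wIdeal_scale_le (s a : ℕ) : wIdeal x w a ≤ wIdeal x (fun i => s * w i) (s * a) := by
  refine Ideal.span_le.2 ?_
  rintro _ ⟨α, hα, rfl⟩
  refine monom_mem ?_
  have : ∑ i, α i * (s * w i) = s * ∑ i, α i * w i := by
    rw [Finset.mul_sum]
    exact Finset.sum_congr rfl fun i _ => by ring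
  rw [this]
  exact Nat.mul_le_mul_left s hα

lemma wIdeal_scale_le' {s a b : ℕ} (h : s * b < a + s) :
    wIdeal x (fun i => s * w i) a ≤ wIdeal x w b := by
  refine Ideal.span_le.2 ?_
  rintro _ ⟨α, hα, rfl⟩
  refine monom_mem ?_
  have : ∑ i, α i * (s * w i) = s * ∑ i, α i * w i := by
    rw [Finset.mul_sum]
    exact Finset.sum_congr rfl fun i _ => by ring
  rw [this] at hα
  by_contra hcon
  push Not at hcon
  have h4 : s * (∑ i, α i * w i + 1) ≤ s * b := Nat.mul_le_mul_left s hcon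
  rw [mul_add, mul_one] at h4
  omega

lemma cIdeal_scale {s : ℕ} (hs : 0 < s) : cIdeal x (fun i => s * w i) = cIdeal x w := by
  have h : ∀ i, 0 < s * w i ↔ 0 < w i := fun i => by
    rw [Nat.mul_pos_iff_of_pos_left hs]
  simp only [cIdeal, h]

lemma IsChart.scale {k : Type} [Field k] [Algebra k L] {τ : L →+* L} {e : ℕ}
    (h : IsChart k τ e x w) {s : ℕ} (hs : 0 < s) : IsChart k τ (s * e) x fun i => s * w i where
  etale := h.etale
  delta := by
    intro a b hb
    -- the smallest `c` with `a ≤ s * c`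
    obtain ⟨c, hc1, hc2⟩ : ∃ c, a ≤ s * c ∧ s * c < a + s := by
      refine ⟨(a + (s - 1)) / s, ?_, ?_⟩
      · have := Nat.lt_mul_div_succ (a + (s - 1)) hs
        rw [mul_add, mul_one] at this
        omega
      · have := Nat.mul_div_le (a + (s - 1)) s
        omega
    have h1 := h.delta c b (wIdeal_scale_le' hc2 hb)
    refine wIdeal_anti ?_ (wIdeal_scale_le s _ h1)
    rw [mul_add]
    omega
  rel := by
    intro i hi
    obtain ⟨M, hM, h1⟩ := h.rel i (Nat.pos_of_mul_pos_left hi)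
    refine ⟨M, hM, ?_⟩
    refine (show rIdeal x w τ e (M * w i) ≤ rIdeal x (fun i => s * w i) τ (s * e) (M * (s * w i))
      from Ideal.span_le.2 ?_) h1
    rintro _ ⟨a, b, z, u, hab, hz, hu, rfl⟩
    refine Ideal.subset_span ⟨s * a, s * b, z, u, ?_, wIdeal_scale_le s _ hz,
      wIdeal_scale_le s _ hu, rfl⟩
    calc M * (s * w i) = s * (M * w i) := by ring
      _ ≤ s * (a + b + e) := Nat.mul_le_mul_left s hab
      _ = s * a + s * b + s * e := by ring

lemma IsChart.sub_mem {k : Type} [Field k] [Algebra k L] {τ : L →+* L} {e : ℕ} (he : 0 < e)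
    (h : IsChart k τ e x w) (b : L) : τ b - b ∈ cIdeal x w := by
  have h1 := h.delta 0 b (by rw [wIdeal_zero]; trivial)
  rw [← wIdeal_one]
  exact wIdeal_anti (by omega) h1

lemma rIdeal_le {τ : L →+* L} {e D : ℕ} {J : Ideal L} (hJ : ∀ b, τ b - b ∈ J) :
    rIdeal x w τ e D ≤ J := by
  refine Ideal.span_le.2 ?_
  rintro _ ⟨a, b, z, u, -, -, -, rfl⟩
  exact J.mul_mem_left _ (hJ z)

lemma IsChart.mem_radical {k : Type} [Field k] [Algebra k L] {τ : L →+* L} {e : ℕ}
    (h : IsChart k τ e x w) {J : Ideal L} (hJ : ∀ b, τ b - b ∈ J) :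
    cIdeal x w ≤ J.radical := by
  refine Ideal.span_le.2 ?_
  rintro _ ⟨i, hi, rfl⟩
  obtain ⟨M, hM, h1⟩ := h.rel i hi
  exact ⟨M, rIdeal_le hJ h1⟩

end ring

section field

variable {k K : Type} [Field k] [Field K] [Algebra k K] {L : Type} [CommRing L] [Algebra k L]
  [Algebra L K] [IsScalarTower k L K] {n : ℕ} {x : Fin n → L} {w : Fin n → ℕ} {τ : L →+* L} {e : ℕ}
  {σ : K ≃ₐ[k] K}

lemma isRadical_cIdeal (k K : Type) [Field k] [Field K] [Algebra k K] [Algebra k L]
    [Algebra L K] [IsScalarTower k L K] (hinj : Function.Injective (algebraMap L K))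
    (hx : (MvPolynomial.aeval x : MvPolynomial (Fin n) k →ₐ[k] L).toRingHom.Etale)
    (hw : ∃ i, 0 < w i) : (cIdeal x w).IsRadical := by
  rintro z ⟨m, hm⟩
  rw [← wIdeal_one] at hm ⊢
  rcases Nat.eq_zero_or_pos m with rfl | hm0
  · rw [pow_zero] at hm
    have h1 := Ideal.mul_mem_left _ z hm
    rwa [mul_one] at h1
  · exact pow_closed' k K hinj x hx w hw hm0 hm (by omega)

lemma IsChart.delta_wFam (h : IsChart k τ e x w)
    (hσ : ∀ b, σ (algebraMap L K b) = algebraMap L K (τ b)) (a : ℤ) (z : K)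
    (hz : z ∈ (wFam k K x w).s a) : σ z - z ∈ (wFam k K x w).s (a + e) := by
  obtain ⟨b, hb, rfl⟩ := hz
  change σ (algebraMap L K b) - algebraMap L K b ∈ _
  rw [hσ, ← map_sub]
  exact map_mem_wFam (wIdeal_anti (by omega) (h.delta _ _ hb))

lemma mem_dSpan_of_mem_rIdeal (hσ : ∀ b, σ (algebraMap L K b) = algebraMap L K (τ b)) {D : ℕ}
    {y : L} (hy : y ∈ rIdeal x w τ e D) :
    algebraMap L K y ∈ dSpan (wFam k K x w) σ e D := by
  rw [rIdeal] at hy
  refine Submodule.span_induction (p := fun y _ =>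
    algebraMap L K y ∈ dSpan (wFam k K x w) σ e D) ?_ ?_ ?_ ?_ hy
  · rintro _ ⟨a, b, z, u, hab, hz, hu, rfl⟩
    refine Submodule.subset_span ⟨a, algebraMap L K z, algebraMap L K u, map_mem_wFam_nat hz, ?_, ?_⟩
    · exact map_mem_wFam (wIdeal_anti (by omega) hu)
    · rw [map_mul, map_sub, hσ]
  · rw [map_zero]; exact Submodule.zero_mem _
  · intro y z _ _ hy hz
    rw [map_add]; exact Submodule.add_mem _ hy hz
  · intro c y _ hy
    rw [smul_eq_mul, map_mul]
    have h1 := mul_mem_dSpan (map_mem_wFam_nonpos (k := k) (K := K) (x := x) (w := w) le_rfl c) hy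
    rwa [zero_add] at h1

lemma IsChart.rel_wFam (h : IsChart k τ e x w)
    (hσ : ∀ b, σ (algebraMap L K b) = algebraMap L K (τ b)) (i : Fin n) (hi : 0 < w i) :
    ∃ M : ℕ, 0 < M ∧ algebraMap L K (x i) ^ M ∈ dSpan (wFam k K x w) σ e (M * w i) := by
  obtain ⟨M, hM, h1⟩ := h.rel i hi
  refine ⟨M, hM, ?_⟩
  have h2 := mem_dSpan_of_mem_rIdeal hσ h1
  rw [map_pow, Nat.cast_mul] at h2
  exact h2

lemma dSpan_mem {N : Fam k K ℤ} (hδ : ∀ a, ∀ z ∈ N.s a, σ z - z ∈ N.s (a + e)) {q : Ideal N.alg}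
    (hq : ∀ (a : ℤ) (z : K) (hz : z ∈ N.s a), N.el (hδ a z hz) ∈ q) {D : ℤ} {y : K}
    (hy : y ∈ dSpan N σ e D) : ∃ hy : y ∈ N.s D, N.el hy ∈ q := by
  rw [dSpan] at hy
  refine Submodule.span_induction (p := fun y _ => ∃ hy : y ∈ N.s D, N.el hy ∈ q) ?_ ?_ ?_ ?_ hy
  · rintro _ ⟨a, z, u, hz, hu, rfl⟩
    have h1 := N.mul' hu (hδ a z hz)
    have h2 := Ideal.mul_mem_left q (N.el hu) (hq a z hz)
    rw [Fam.el_mul] at h2
    have h3 : D - a - e + (a + e) = D := by ring
    refine ⟨by rw [← h3]; exact h1, ?_⟩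
    convert h2 using 1
    exact Fam.el_eq _ _ _ h3.symm rfl
  · refine ⟨Submodule.zero_mem _, ?_⟩
    rw [el_eq_zero _ _ rfl]
    exact Ideal.zero_mem _
  · rintro y z - - ⟨hy, hy'⟩ ⟨hz, hz'⟩
    refine ⟨Submodule.add_mem _ hy hz, ?_⟩
    have h1 := Ideal.add_mem _ hy' hz'
    rwa [el_add] at h1
  · rintro c y - ⟨hy, hy'⟩
    refine ⟨Submodule.smul_mem _ c hy, ?_⟩
    have h1 : N.el (Submodule.smul_mem _ c hy) = algebraMap k N.alg c * N.el hy := by
      rw [← Algebra.smul_def]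
      exact Subtype.ext (smul_single c D y).symm
    rw [h1]
    exact Ideal.mul_mem_left _ _ hy'

theorem IsChart.prin (h : IsChart k τ e x w)
    (hσ : ∀ b, σ (algebraMap L K b) = algebraMap L K (τ b)) : Prin (wFam k K x w) σ e := by
  intro q hq ⟨d, hd, z, hz, hzq⟩
  by_contra hcon'
  push Not at hcon'
  have hδ := h.delta_wFam (σ := σ) hσ
  have hcon : ∀ (a : ℤ) (z : K) (hz : z ∈ (wFam k K x w).s a),
      (wFam k K x w).el (hδ a z hz) ∈ q := fun a z hz => hcon' a z hz (hδ a z hz)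
  have hX : ∀ i, 0 < w i → (wFam k K x w).el (map_mem_wFam_nat (x_mem (x := x) i)) ∈ q := by
    intro i hi
    obtain ⟨M, hM, h1⟩ := h.rel_wFam (σ := σ) hσ i hi
    obtain ⟨h2, h3⟩ := dSpan_mem hδ hcon h1
    refine hq.mem_of_pow_mem M ?_
    rw [Fam.el_pow]
    convert h3 using 1
  -- all elements of positive degree
  apply hzq
  obtain ⟨b, hb, rfl⟩ := hz
  have key : ∀ {b : L}, b ∈ wIdeal x w d.toNat → ∃ h : algebraMap L K b ∈ (wFam k K x w).s d,
      (wFam k K x w).el h ∈ q := by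
    intro b hb
    refine wIdeal_induction (p := fun b => ∃ h : algebraMap L K b ∈ (wFam k K x w).s d,
      (wFam k K x w).el h ∈ q) (a := d.toNat) (by omega) ?_ ?_ ?_ hb
    · refine ⟨by rw [map_zero]; exact Submodule.zero_mem _, ?_⟩
      rw [el_eq_zero _ _ (map_zero _)]
      exact Ideal.zero_mem _
    · rintro y - z - ⟨hy, hy'⟩ ⟨hz, hz'⟩
      refine ⟨by rw [map_add]; exact Submodule.add_mem _ hy hz, ?_⟩
      have h1 := Ideal.add_mem _ hy' hz'
      rw [el_add] at h1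
      convert h1 using 1
      exact Fam.el_eq _ _ _ rfl (map_add _ _ _)
    · intro i hi y hy
      have h1 : algebraMap L K y ∈ (wFam k K x w).s (d - w i) :=
        map_mem_wFam (by convert hy using 2; omega)
      have h2 := Ideal.mul_mem_right ((wFam k K x w).el h1) _ (hX i hi)
      rw [Fam.el_mul] at h2
      have h3 := (wFam k K x w).mul' (map_mem_wFam_nat (k := k) (K := K) (x_mem (x := x) i)) h1
      have h4 : (w i : ℤ) + (d - w i) = d := by ring
      refine ⟨by rw [map_mul, ← h4]; exact h3, ?_⟩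
      convert h2 using 1
      exact Fam.el_eq _ _ _ h4.symm (map_mul _ _ _)
  exact (key hb).2

end field

end Pool.Agent.MP_b525bf_ag_h5
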