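import Mathlib
import Pool.Agent.Lib.MP_b525bf_ag_h5.WMain
import Pool.Agent.Lib.MP_b525bf_ag.DefsLocal

/-!
The extended Rees algebra of a filtration which is locally a weighted filtration.
-/

set_option autoImplicit false

namespace Pool.Agent.MP_b525bf_ag_h5

open Pool.Agent.MP_b525bf_ag AddMonoidAlgebra

/-! ### Constant families -/

section const

variable {k K : Type} [Field k] [Field K] [Algebra k K]

/-- The constant family of a subalgebra is the ring of Laurent polynomials. -/
noncomputable def constEquiv (C : Subalgebra k K) :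
    LaurentPolynomial C ≃ₐ[k] (H53.constFam C).alg := by
  refine AlgEquiv.ofBijective ((mapAlgHom ℤ C.val).codRestrict (H53.constFam C).alg ?_) ⟨?_, ?_⟩
  · intro F a
    change (mapAlgHom ℤ C.val F).coeff a ∈ C
    rw [coeff_mapAlgHom]
    exact (F.coeff a).2
  · intro F G h
    have h1 : mapAlgHom ℤ C.val F = mapAlgHom ℤ C.val G := congrArg Subtype.val h
    refine AddMonoidAlgebra.ext (Finsupp.ext fun a => ?_)
    have h2 := congrArg (fun F : AddMonoidAlgebra K ℤ => F.coeff a) h1
    simp only [coeff_mapAlgHom] at h2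
    exact Subtype.ext h2
  · rintro ⟨F, hF⟩
    refine ⟨∑ a ∈ F.coeff.support, single a ⟨F.coeff a, hF a⟩, Subtype.ext ?_⟩
    change mapAlgHom ℤ C.val _ = F
    rw [map_sum]
    conv_rhs => rw [Fam.eq_sum F]
    refine Finset.sum_congr rfl fun a _ => ?_
    rw [mapAlgHom_single]
    rfl

lemma smooth_constFam (C : Subalgebra k K) (hC : Algebra.Smooth k C) :
    Algebra.FiniteType k (H53.constFam C).alg ∧ Algebra.FormallySmooth k (H53.constFam C).alg := by
  have h1 : Algebra.FormallySmooth (Polynomial C) (LaurentPolynomial C) :=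
    Algebra.FormallySmooth.of_isLocalization (Submonoid.powers (Polynomial.X : Polynomial C))
  have h2 : Algebra.FiniteType (Polynomial C) (LaurentPolynomial C) :=
    IsLocalization.finiteType_of_monoid_fg (Submonoid.powers (Polynomial.X : Polynomial C)) _
  have h3 : Algebra.FiniteType C (Polynomial C) := inferInstance
  have h4 : Algebra.FiniteType k C := inferInstance
  have h5 : Algebra.FormallySmooth k C := inferInstance
  have h6 : Algebra.FormallySmooth C (Polynomial C) := inferInstance
  have h7 : Algebra.FiniteType k (Polynomial C) := Algebra.FiniteType.trans h4 h3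
  have h8 : Algebra.FormallySmooth k (Polynomial C) := Algebra.FormallySmooth.comp k C _
  have h11 : IsScalarTower k (Polynomial C) (LaurentPolynomial C) := by
    refine IsScalarTower.of_algebraMap_eq fun c => ?_
    change _ = Polynomial.toLaurent (algebraMap k (Polynomial C) c)
    rw [IsScalarTower.algebraMap_apply k C (Polynomial C), Polynomial.algebraMap_eq,
      Polynomial.toLaurent_C]
    rfl
  have h9 : Algebra.FiniteType k (LaurentPolynomial C) := Algebra.FiniteType.trans h7 h2
  have h10 : Algebra.FormallySmooth k (LaurentPolynomial C) :=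
    Algebra.FormallySmooth.comp k (Polynomial C) _
  exact ⟨Algebra.FiniteType.equiv h9 (constEquiv C), .of_equiv (constEquiv C)⟩

end const

/-! ### The family of a filtration -/

section family

variable {k K : Type} [Field k] [Field K] [Algebra k K] {B : Type} [CommRing B] [Algebra k B]
  [Algebra B K] [IsScalarTower k B K]

/-- A decreasing multiplicative filtration by ideals. -/
structure Filt (B : Type) [CommRing B] where
  F : ℕ → Ideal B
  zero : F 0 = ⊤
  anti : Antitone F
  mul : ∀ a b, F a * F b ≤ F (a + b)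

/-- The extended Rees family of a filtration. -/
def idFam (k K : Type) [Field k] [Field K] [Algebra k K] {B : Type} [CommRing B] [Algebra k B]
    [Algebra B K] [IsScalarTower k B K] (G : Filt B) : Fam k K ℤ where
  s a := ((G.F a.toNat).restrictScalars k).map (IsScalarTower.toAlgHom k B K).toLinearMap
  one' := ⟨1, by rw [Int.toNat_zero, G.zero]; trivial, map_one (IsScalarTower.toAlgHom k B K)⟩
  mul' := by
    rintro a b _ _ ⟨y, hy, rfl⟩ ⟨z, hz, rfl⟩
    refine ⟨y * z, ?_, map_mul (IsScalarTower.toAlgHom k B K) y z⟩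
    exact G.anti (by omega) (G.mul a.toNat b.toNat (Ideal.mul_mem_mul hy hz))

variable {G : Filt B}

lemma mem_idFam {a : ℤ} {z : K} :
    z ∈ (idFam k K G).s a ↔ ∃ b ∈ G.F a.toNat, algebraMap B K b = z := Iff.rfl

lemma map_mem_idFam {a : ℤ} {b : B} (h : b ∈ G.F a.toNat) :
    algebraMap B K b ∈ (idFam k K G).s a := ⟨b, h, rfl⟩

lemma map_mem_idFam_nat {a : ℕ} {b : B} (h : b ∈ G.F a) :
    algebraMap B K b ∈ (idFam k K G).s a := ⟨b, h, rfl⟩

lemma map_mem_idFam_nonpos {a : ℤ} (ha : a ≤ 0) (b : B) :
    algebraMap B K b ∈ (idFam k K G).s a :=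
  map_mem_idFam (by rw [Int.toNat_of_nonpos ha, G.zero]; trivial)

lemma one_mem_idFam {d : ℤ} (hd : d ≤ 0) : (1 : K) ∈ (idFam k K G).s d := by
  rw [← map_one (algebraMap B K)]
  exact map_mem_idFam_nonpos hd 1

lemma pow_mem_F {h : B} (hh : h ∈ G.F 1) (m : ℕ) : h ^ m ∈ G.F m := by
  induction m with
  | zero => rw [G.zero]; trivial
  | succ m ih => rw [pow_succ]; exact G.mul m 1 (Ideal.mul_mem_mul ih hh)

/-- Localisation in a chart. -/
lemma loc_idFam_eq_wFam (hinj : Function.Injective (algebraMap B K)) {f : B} (hf0 : f ≠ 0)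
    (L : Type) [CommRing L] [Algebra B L]
    [IsLocalization.Away f L] [Algebra k L] [Algebra L K] [IsScalarTower B L K]
    [IsScalarTower k L K] {n : ℕ} (x : Fin n → L) (w : Fin n → ℕ)
    (hF : ∀ a, (G.F a).map (algebraMap B L) = wIdeal x w a) :
    (idFam k K G).loc (map_mem_idFam_nonpos le_rfl f) = wFam k K x w := by
  have hfK : algebraMap B K f ≠ 0 := fun h => hf0 (hinj (by rw [h, map_zero]))
  ext a z
  constructor
  · rintro ⟨m, hm⟩
    rw [smul_zero, zero_add] at hm
    obtain ⟨b, hb, hbz⟩ := hm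
    change algebraMap B K b = _ at hbz
    have h1 : algebraMap B L b ∈ wIdeal x w a.toNat := by
      rw [← hF]; exact Ideal.mem_map_of_mem _ hb
    obtain ⟨u, hu⟩ := IsLocalization.map_units L (⟨f ^ m, m, rfl⟩ : Submonoid.powers f)
    refine ⟨(↑u⁻¹ : L) * algebraMap B L b, Ideal.mul_mem_left _ _ h1, ?_⟩
    change algebraMap L K _ = z
    rw [map_mul, ← IsScalarTower.algebraMap_apply, hbz, ← mul_assoc]
    have h2 : algebraMap L K (↑u⁻¹ : L) * algebraMap B K f ^ m = 1 := by
      have h3 : algebraMap B K f ^ m = algebraMap L K (u : L) := by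
        rw [hu, ← IsScalarTower.algebraMap_apply, map_pow]
      rw [h3, ← map_mul, Units.inv_mul, map_one]
    rw [h2, one_mul]
  · rintro ⟨c, hc, rfl⟩
    change c ∈ wIdeal x w a.toNat at hc
    change algebraMap L K c ∈ _
    rw [← hF, IsLocalization.mem_map_algebraMap_iff (Submonoid.powers f)] at hc
    obtain ⟨⟨⟨b, hb⟩, ⟨_, m, rfl⟩⟩, h⟩ := hc
    refine ⟨m, ?_⟩
    rw [smul_zero, zero_add]
    refine ⟨b, hb, ?_⟩
    change algebraMap B K b = _
    have h1 := congrArg (algebraMap L K) h
    simp only [map_mul, ← IsScalarTower.algebraMap_apply] at h1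
    change algebraMap L K c * algebraMap B K (f ^ m) = algebraMap B K b at h1
    rw [← h1, map_pow, mul_comm]

/-- Localisation away from the centre. -/
lemma loc_idFam_eq_const (hinj : Function.Injective (algebraMap B K)) {f : B} (hf0 : f ≠ 0)
    (hf1 : f ∈ G.F 1)
    (L : Type) [CommRing L] [Algebra B L]
    [IsLocalization.Away f L] [Algebra k L] [Algebra L K] [IsScalarTower B L K]
    [IsScalarTower k L K] :
    (idFam k K G).loc (map_mem_idFam_nonpos le_rfl f) =
      H53.constFam (IsScalarTower.toAlgHom k L K).range := by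
  have hfK : algebraMap B K f ≠ 0 := fun h => hf0 (hinj (by rw [h, map_zero]))
  ext a z
  constructor
  · rintro ⟨m, hm⟩
    rw [smul_zero, zero_add] at hm
    obtain ⟨b, hb, hbz⟩ := hm
    change algebraMap B K b = _ at hbz
    obtain ⟨u, hu⟩ := IsLocalization.map_units L (⟨f ^ m, m, rfl⟩ : Submonoid.powers f)
    refine ⟨(↑u⁻¹ : L) * algebraMap B L b, ?_⟩
    change algebraMap L K _ = z
    rw [map_mul, ← IsScalarTower.algebraMap_apply, hbz, ← mul_assoc]
    have h2 : algebraMap L K (↑u⁻¹ : L) * algebraMap B K f ^ m = 1 := by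
      have h3 : algebraMap B K f ^ m = algebraMap L K (u : L) := by
        rw [hu, ← IsScalarTower.algebraMap_apply, map_pow]
      rw [h3, ← map_mul, Units.inv_mul, map_one]
    rw [h2, one_mul]
  · rintro ⟨c, rfl⟩
    change algebraMap L K c ∈ _
    obtain ⟨⟨b, ⟨_, m, rfl⟩⟩, h⟩ := IsLocalization.surj (Submonoid.powers f) c
    have h1 := congrArg (algebraMap L K) h
    simp only [map_mul, ← IsScalarTower.algebraMap_apply] at h1
    change algebraMap L K c * algebraMap B K (f ^ m) = algebraMap B K b at h1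
    refine ⟨m + a.toNat, ?_⟩
    rw [smul_zero, zero_add]
    refine ⟨f ^ a.toNat * b, Ideal.mul_mem_right _ _ (pow_mem_F hf1 _), ?_⟩
    change algebraMap B K (f ^ a.toNat * b) = _
    rw [map_mul, ← h1, pow_add, map_pow, map_pow]
    ring

end family

/-! ### Local properties -/

section local'

variable {k K : Type} [Field k] [Field K] [Algebra k K] {B : Type} [CommRing B] [Algebra k B]
  [Algebra B K] [IsScalarTower k B K] {G : Filt B}

theorem fg_smooth_idFam
    (h : ∀ P : Ideal B, P.IsPrime → ∃ f : B, f ∉ P ∧ f ≠ 0 ∧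
      Algebra.FiniteType k ((idFam k K G).loc (map_mem_idFam_nonpos le_rfl f)).alg ∧
      Algebra.FormallySmooth k ((idFam k K G).loc (map_mem_idFam_nonpos le_rfl f)).alg)
    (hinj : Function.Injective (algebraMap B K)) :
    Algebra.FiniteType k (idFam k K G).alg ∧ Algebra.FormallySmooth k (idFam k K G).alg := by
  have hK0 : ∀ f : B, f ≠ 0 → algebraMap B K f ≠ 0 := fun f hf h =>
    hf (hinj (by rw [h, map_zero]))
  let β : B →ₐ[k] (idFam k K G).alg := baseMap (idFam k K G) B (fun b => map_mem_idFam_nonpos le_rfl b)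
  have hβ : ∀ b, β b = (idFam k K G).el (map_mem_idFam_nonpos le_rfl b) := fun _ => rfl
  have hft : Algebra.FiniteType k (idFam k K G).alg := by
    let S : Set B := {f | f ≠ 0 ∧
      Algebra.FiniteType k ((idFam k K G).loc (map_mem_idFam_nonpos le_rfl f)).alg}
    have hS : Ideal.span S = ⊤ := by
      by_contra hne
      obtain ⟨P, hP, hle⟩ := Ideal.exists_le_maximal _ hne
      obtain ⟨f, hfP, hf0, hf1, -⟩ := h P hP.isPrime
      exact hfP (hle (Ideal.subset_span ⟨hf0, hf1⟩))
    have hS' : Ideal.span (β '' S) = ⊤ := by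
      have h1 : (Ideal.span S).map (β : B →+* (idFam k K G).alg) = Ideal.span (β '' S) := by
        rw [Ideal.map_span]; rfl
      rw [← h1, hS, Ideal.map_top]
    refine Algebra.FiniteType.of_span_eq_top_target (β '' S) hS' ?_
    rintro _ ⟨f, ⟨hf0, hf1⟩, rfl⟩
    rw [hβ]
    let := ((idFam k K G).toLoc (map_mem_idFam_nonpos (k := k) (K := K) (G := G) le_rfl f)).toRingHom.toAlgebra
    have := (idFam k K G).isLocalization_loc (map_mem_idFam_nonpos le_rfl f) (hK0 f hf0)
    have : IsScalarTower k (idFam k K G).alg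
      ((idFam k K G).loc (map_mem_idFam_nonpos le_rfl f)).alg :=
      IsScalarTower.of_algHom ((idFam k K G).toLoc (map_mem_idFam_nonpos le_rfl f))
    let e := IsLocalization.algEquiv
      (Submonoid.powers ((idFam k K G).el (map_mem_idFam_nonpos (k := k) (K := K) (G := G) le_rfl f)))
      ((idFam k K G).loc (map_mem_idFam_nonpos le_rfl f)).alg
      (Localization.Away ((idFam k K G).el (map_mem_idFam_nonpos (k := k) (K := K) (G := G) le_rfl f)))
    exact Algebra.FiniteType.equiv hf1 (e.restrictScalars k)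
  refine ⟨hft, ?_⟩
  refine formallySmooth_of_cover hft fun q hq => ?_
  have hqc : (q.comap β).IsPrime := Ideal.comap_isPrime _ q
  obtain ⟨f, hfP, hf0, -, hf1⟩ := h (q.comap β) hqc
  exact ⟨β f, hfP, Fam.formallySmooth_away _ _ (hK0 f hf0) hf1⟩

end local'

end Pool.Agent.MP_b525bf_ag_h5
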