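import Mathlib
import Pool.Agent.Lib.MP_b525bf_ag_h5.Local

/-!
Good families from filtrations which are locally weighted.
-/

set_option autoImplicit false

namespace Pool.Agent.MP_b525bf_ag_h5

open Pool.Agent.MP_b525bf_ag AddMonoidAlgebra

/-- On the invariant open subset `Spec B[1/f]` there are étale coordinates `x 0, …, x (n - 1)` with
weights `w i ≥ 0` such that the filtration `F` becomes the filtration by the monomials of weight
`≥ a`, and such that the leading forms `g i` of `σ (x i) - x i`, which are weighted homogeneous of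
degree `w i + e`, are nondegenerate: modulo the centre, every coordinate of positive weight is in
the radical of the ideal generated by the `g i`. -/
def WChart {k B : Type} [Field k] [CommRing B] [Algebra k B] (σ : B ≃ₐ[k] B) (F : ℕ → Ideal B)
    (e : ℕ) (f : B) (hf : σ f = f) : Prop :=
  ∃ (n : ℕ) (x : Fin n → Localization.Away f) (w : Fin n → ℕ)
    (g : Fin n → MvPolynomial (Fin n) (Localization.Away f)),
    (MvPolynomial.aeval x : MvPolynomial (Fin n) k →ₐ[k] Localization.Away f).toRingHom.Etale ∧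
    (∀ a, (F a).map (algebraMap B (Localization.Away f)) = wIdeal x w a) ∧
    (∀ i, (g i).IsWeightedHomogeneous w (w i + e)) ∧
    (∀ i, awayMap σ f hf (x i) - x i - MvPolynomial.eval x (g i) ∈ wIdeal x w (w i + e + 1)) ∧
    ∀ i, 0 < w i → MvPolynomial.X i ∈
      (Ideal.span (Set.range g) ⊔ (cIdeal x w).map MvPolynomial.C).radical

section

variable {k K : Type} [Field k] [Field K] [Algebra k K]

theorem Prin.descend {N : Fam k K ℤ} {σ : K ≃ₐ[k] K} {e : ℕ} {f : K} (hf : f ∈ N.s 0)
    (hf0 : f ≠ 0) (hσf : σ f = f) (hδ : ∀ a, ∀ z ∈ N.s a, σ z - z ∈ N.s (a + e))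
    (hP : Prin (N.loc hf) σ e) (q : Ideal N.alg) [hq : q.IsPrime] (hfq : N.el hf ∉ q)
    (hex : ∃ d : ℤ, 0 < d ∧ ∃ (z : K) (hz : z ∈ N.s d), N.el hz ∉ q) :
    ∃ (a : ℤ) (z : K) (hz : z ∈ N.s a), N.el (hδ a z hz) ∉ q := by
  let := (N.toLoc hf).toRingHom.toAlgebra
  have hloc := N.isLocalization_loc hf hf0
  have hmap : ∀ F : N.alg, algebraMap N.alg (N.loc hf).alg F = N.toLoc hf F := fun _ => rfl
  have hdis : Disjoint (Submonoid.powers (N.el hf) : Set N.alg) (q : Set N.alg) := by
    rw [Set.disjoint_left]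
    rintro _ ⟨m, rfl⟩ h
    exact hfq (hq.mem_of_pow_mem m h)
  have hq' : (q.map (algebraMap N.alg (N.loc hf).alg)).IsPrime :=
    IsLocalization.isPrime_of_isPrime_disjoint (Submonoid.powers (N.el hf)) _ q hq hdis
  have hcm : (q.map (algebraMap N.alg (N.loc hf).alg)).comap (algebraMap N.alg (N.loc hf).alg) =
      q := IsLocalization.under_map_of_isPrime_disjoint (Submonoid.powers (N.el hf)) _ hq hdis
  have hmem : ∀ F : N.alg, N.toLoc hf F ∈ q.map (algebraMap N.alg (N.loc hf).alg) ↔ F ∈ q := by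
    intro F
    conv_rhs => rw [← hcm]
    rfl
  obtain ⟨d, hd, z, hz, hzq⟩ := hex
  obtain ⟨a, y, hy, hy', hyq⟩ := hP _ hq' ⟨d, hd, z, N.le_loc hf d hz, by
    rw [← Fam.toLoc_el, hmem]; exact hzq⟩
  obtain ⟨m, hm⟩ := hy
  have hm' : f ^ m * y ∈ N.s a := by rwa [smul_zero, zero_add] at hm
  refine ⟨a, f ^ m * y, hm', fun h => hyq ?_⟩
  rw [← hmem, Fam.toLoc_el] at h
  have hfm : f ^ m ∈ (N.loc hf).s 0 := by
    have := (N.loc hf).pow' (N.le_loc hf 0 hf) m
    rwa [smul_zero] at this
  have h1 : (N.loc hf).el (N.le_loc hf _ (hδ a _ hm')) = (N.loc hf).el hfm * (N.loc hf).el hy' := by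
    rw [Fam.el_mul]
    refine Fam.el_eq _ _ _ (by ring) ?_
    rw [map_mul, map_pow, hσf, mul_sub]
  rw [h1] at h
  rcases hq'.mem_or_mem h with h2 | h2
  · exfalso
    have h3 : (N.loc hf).el hfm = N.toLoc hf (N.el hf ^ m) := by
      rw [map_pow, Fam.toLoc_el, Fam.el_pow]
    rw [h3, hmem] at h2
    exact hfq (hq.mem_of_pow_mem m h2)
  · exact h2

end

section chart

variable {k : Type} [Field k] {B : Type} [CommRing B] [IsDomain B] [Algebra k B]

/-- The automorphism of the localisation as an algebra homomorphism. -/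
noncomputable def awayHom (σ : B ≃ₐ[k] B) (f : B) (hf : σ f = f) :
    Localization.Away f →ₐ[k] Localization.Away f :=
  { awayMap σ f hf with
    commutes' := fun c => by
      change awayMap σ f hf (algebraMap k (Localization.Away f) c) = _
      rw [IsScalarTower.algebraMap_apply k B (Localization.Away f), awayMap,
        IsLocalization.map_eq]
      congr 1
      exact σ.commutes c }

omit [IsDomain B] in
lemma awayHom_apply (σ : B ≃ₐ[k] B) (f : B) (hf : σ f = f) (y : Localization.Away f) :
    awayHom σ f hf y = awayMap σ f hf y := rfl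

omit [IsDomain B] in
lemma awayHom_algebraMap (σ : B ≃ₐ[k] B) (f : B) (hf : σ f = f) (b : B) :
    awayHom σ f hf (algebraMap B _ b) = algebraMap B _ (σ b) := by
  rw [awayHom_apply, awayMap, IsLocalization.map_eq]
  rfl

/-- Everything we need about a chart. -/
theorem chart_facts (K : Type) [Field K] [Algebra k K] [Algebra B K] [IsScalarTower k B K]
    [IsFractionRing B K] (G : Filt B) (σB : B ≃ₐ[k] B) (σ : K ≃ₐ[k] K)
    (hσK : ∀ b, σ (algebraMap B K b) = algebraMap B K (σB b)) (e : ℕ)
    (hfix : (Ideal.span (Set.range fun b => σB b - b)).radical = G.F 1) (hG1 : G.F 1 ≠ ⊥)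
    (f : B) (hf : σB f = f) (hf0 : f ≠ 0) (hch : WChart σB G.F e f hf) :
    Algebra.FiniteType k ((idFam k K G).loc (map_mem_idFam_nonpos le_rfl f)).alg ∧
    Algebra.FormallySmooth k ((idFam k K G).loc (map_mem_idFam_nonpos le_rfl f)).alg ∧
    Prin ((idFam k K G).loc (map_mem_idFam_nonpos le_rfl f)) σ e ∧
    ∀ (a : ℕ), ∀ b ∈ G.F a, ∃ m : ℕ, f ^ m * (σB b - b) ∈ G.F (a + e) := by
  have hinj : Function.Injective (algebraMap B K) := IsFractionRing.injective B K
  let L := Localization.Away f
  have hle : Submonoid.powers f ≤ nonZeroDivisors B :=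
    powers_le_nonZeroDivisors_of_noZeroDivisors hf0
  let i1 : Algebra L K := IsLocalization.localizationAlgebraOfSubmonoidLe L K (Submonoid.powers f)
    (nonZeroDivisors B) hle
  have i2 : IsScalarTower B L K := IsLocalization.localization_isScalarTower_of_submonoid_le L K
    (Submonoid.powers f) (nonZeroDivisors B) hle
  have i3 : IsScalarTower k L K := IsScalarTower.of_algebraMap_eq fun c => by
    rw [IsScalarTower.algebraMap_apply k B L, ← IsScalarTower.algebraMap_apply B L K,
      ← IsScalarTower.algebraMap_apply]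
  have i4 : IsFractionRing L K :=
    IsFractionRing.isFractionRing_of_isDomain_of_isLocalization (Submonoid.powers f) L K
  have hinjL : Function.Injective (algebraMap L K) := IsFractionRing.injective L K
  have hBL : Function.Injective (algebraMap B L) := by
    intro a b hab
    apply hinj
    rw [IsScalarTower.algebraMap_apply B L K, hab, ← IsScalarTower.algebraMap_apply]
  have : Nontrivial L := (algebraMap L K).domain_nontrivial
  obtain ⟨n, x, w, g, hx, hF, hg, hlead, hrad⟩ := hch
  set σL := awayHom σB f hf with hσL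
  have hunit : ∀ m : ℕ, IsUnit (algebraMap B L (f ^ m)) := fun m =>
    IsLocalization.map_units L (⟨f ^ m, m, rfl⟩ : Submonoid.powers f)
  have hσLK : ∀ b, σ (algebraMap L K b) = algebraMap L K (σL b) := by
    intro b
    have h1 : ((σ : K →+* K).comp (algebraMap L K)) = ((algebraMap L K).comp (σL : L →+* L)) := by
      refine IsLocalization.ringHom_ext (Submonoid.powers f) ?_
      refine RingHom.ext fun c => ?_
      change σ (algebraMap L K (algebraMap B L c)) = algebraMap L K (σL (algebraMap B L c))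
      rw [hσL, awayHom_algebraMap, ← IsScalarTower.algebraMap_apply,
        ← IsScalarTower.algebraMap_apply, hσK]
    exact DFunLike.congr_fun h1 b
  have hc1 : cIdeal x w = (G.F 1).map (algebraMap B L) := by rw [← wIdeal_one, hF]
  have hfix1 : ∀ b, σL b - b ∈ cIdeal x w := by
    intro b
    obtain ⟨⟨c, ⟨_, m, rfl⟩⟩, h⟩ := IsLocalization.surj (Submonoid.powers f) b
    change b * algebraMap B L (f ^ m) = algebraMap B L c at h
    have h1 : (σL b - b) * algebraMap B L (f ^ m) = algebraMap B L (σB c - c) := by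
      rw [map_sub, ← h, sub_mul, ← awayHom_algebraMap σB f hf c, ← h, ← hσL, map_mul]
      have h2 : σL (algebraMap B L (f ^ m)) = algebraMap B L (f ^ m) := by
        rw [hσL, awayHom_algebraMap, map_pow, hf]
      rw [h2]
    have h3 : algebraMap B L (σB c - c) ∈ cIdeal x w := by
      rw [hc1]
      refine Ideal.mem_map_of_mem _ ?_
      rw [← hfix]
      exact Ideal.le_radical (Ideal.subset_span ⟨c, rfl⟩)
    rw [← h1] at h3
    exact ((Ideal.unit_mul_mem_iff_mem _ (hunit m)).1 (by rwa [mul_comm] at h3))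
  have hfix2 : ∀ i, 0 < w i → x i ∈ (Ideal.span (Set.range fun b => σL b - b)).radical := by
    intro i hi
    have h1 : x i ∈ cIdeal x w := Ideal.subset_span ⟨i, hi, rfl⟩
    rw [hc1, ← hfix] at h1
    have h2 := Ideal.map_radical_le (algebraMap B L) h1
    refine Ideal.radical_mono ?_ h2
    rw [Ideal.map_span]
    refine Ideal.span_le.2 ?_
    rintro _ ⟨_, ⟨b, rfl⟩, rfl⟩
    refine Ideal.subset_span ⟨algebraMap B L b, ?_⟩
    change σL (algebraMap B L b) - algebraMap B L b = algebraMap B L (σB b - b)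
    rw [hσL, awayHom_algebraMap, map_sub]
  have hw : ∃ i, 0 < w i := by
    by_contra hcon
    have h1 : cIdeal x w = ⊥ := by
      rw [cIdeal, Ideal.span_eq_bot]
      rintro _ ⟨i, hi, rfl⟩
      exact absurd ⟨i, hi⟩ hcon
    rw [hc1, Ideal.map_eq_bot_iff_of_injective hBL] at h1
    exact hG1 h1
  have heq := loc_idFam_eq_wFam (k := k) (K := K) (G := G) hinj hf0 L x w hF
  obtain ⟨hft, hsm⟩ := wFam_smooth_fg (k := k) (K := K) hinjL x hx w hw
  have hδL : ∀ {a : ℕ} {b : L}, b ∈ wIdeal x w a → σL b - b ∈ wIdeal x w (a + e) :=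
    fun hb => delta_mem x hx σL w e g hg hlead hfix1 hb
  have hδ : ∀ a, ∀ z ∈ (wFam k K x w).s a, σ z - z ∈ (wFam k K x w).s (a + e) := by
    rintro a _ ⟨b, hb, rfl⟩
    change σ (algebraMap L K b) - algebraMap L K b ∈ _
    rw [hσLK, ← map_sub]
    exact map_mem_wFam (wIdeal_anti (by omega) (hδL hb))
  have hprin := prin_wFam x σL σ hσLK w e g hg hrad hlead hδ hfix2
  refine ⟨by rw [heq]; exact hft, by rw [heq]; exact hsm, by rw [heq]; exact hprin, ?_⟩
  intro a b hb
  have h1 : algebraMap B L b ∈ wIdeal x w a := by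
    rw [← hF]; exact Ideal.mem_map_of_mem _ hb
  have h2 := hδL h1
  rw [hσL, awayHom_algebraMap, ← map_sub, ← hF,
    IsLocalization.algebraMap_mem_map_algebraMap_iff (Submonoid.powers f)] at h2
  obtain ⟨_, ⟨m, rfl⟩, h3⟩ := h2
  exact ⟨m, h3⟩

/-- The initial good family of a filtration which is locally weighted. -/
theorem good_idFam (p : ℕ) [Fact p.Prime] [CharP k p] [Algebra.Smooth k B]
    (K : Type) [Field K] [Algebra k K] [Algebra B K] [IsScalarTower k B K]
    [IsFractionRing B K] (G : Filt B) (σB : B ≃ₐ[k] B) (σ : K ≃ₐ[k] K)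
    (hσK : ∀ b, σ (algebraMap B K b) = algebraMap B K (σB b)) (hσ : σ ^ p = 1)
    (e : ℕ) (he : 0 < e)
    (hfix : (Ideal.span (Set.range fun b => σB b - b)).radical = G.F 1) (hG1 : G.F 1 ≠ ⊥)
    (hch : ∀ P : Ideal B, P.IsPrime → G.F 1 ≤ P →
      ∃ (f : B) (hf : σB f = f), f ∉ P ∧ WChart σB G.F e f hf) :
    ∃ w', 0 < w' ∧ Good (invFam (idFam k K G) σ) w' := by
  classical
  have hinj : Function.Injective (algebraMap B K) := IsFractionRing.injective B K
  have hne : ∀ {P : Ideal B} {f : B}, f ∉ P → f ≠ 0 := by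
    rintro P f hf rfl
    exact hf P.zero_mem
  -- charts away from the centre
  have haway : ∀ h : B, h ≠ 0 → h ∈ G.F 1 →
      Algebra.FiniteType k ((idFam k K G).loc (map_mem_idFam_nonpos le_rfl h)).alg ∧
      Algebra.FormallySmooth k ((idFam k K G).loc (map_mem_idFam_nonpos le_rfl h)).alg := by
    intro h hh0 hh1
    let L := Localization.Away h
    have hle : Submonoid.powers h ≤ nonZeroDivisors B :=
      powers_le_nonZeroDivisors_of_noZeroDivisors hh0
    let i1 : Algebra L K := IsLocalization.localizationAlgebraOfSubmonoidLe L K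
      (Submonoid.powers h) (nonZeroDivisors B) hle
    have i2 : IsScalarTower B L K := IsLocalization.localization_isScalarTower_of_submonoid_le L K
      (Submonoid.powers h) (nonZeroDivisors B) hle
    have i3 : IsScalarTower k L K := IsScalarTower.of_algebraMap_eq fun c => by
      rw [IsScalarTower.algebraMap_apply k B L, ← IsScalarTower.algebraMap_apply B L K,
        ← IsScalarTower.algebraMap_apply]
    have i4 : IsFractionRing L K :=
      IsFractionRing.isFractionRing_of_isDomain_of_isLocalization (Submonoid.powers h) L K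
    have hinjL : Function.Injective (algebraMap L K) := IsFractionRing.injective L K
    rw [loc_idFam_eq_const (k := k) (K := K) (G := G) hinj hh0 hh1 L]
    have h1 : Algebra.Smooth B L := Algebra.Smooth.of_isLocalization_Away h
    have h2 : Algebra.Smooth k L := Algebra.Smooth.comp k B L
    refine smooth_constFam _ ?_
    exact Algebra.Smooth.of_equiv (AlgEquiv.ofInjective (IsScalarTower.toAlgHom k L K) hinjL)
  obtain ⟨hft, hsm⟩ := fg_smooth_idFam (k := k) (K := K) (G := G) (fun P hP => by
    by_cases hle : G.F 1 ≤ P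
    · obtain ⟨f, hf, hfP, hc⟩ := hch P hP hle
      obtain ⟨h1, h2, -, -⟩ := chart_facts K G σB σ hσK e hfix hG1 f hf (hne hfP) hc
      exact ⟨f, hfP, hne hfP, h1, h2⟩
    · obtain ⟨h, hh1, hhP⟩ := SetLike.not_le_iff_exists.1 hle
      obtain ⟨h2, h3⟩ := haway h (hne hhP) hh1
      exact ⟨h, hhP, hne hhP, h2, h3⟩) hinj
  have hfg : (idFam k K G).alg.FG := (Subalgebra.fg_iff_finiteType _).2 hft
  have hδB : ∀ (a : ℕ), ∀ b ∈ G.F a, σB b - b ∈ G.F (a + e) := by
    intro a b hb
    let I : Ideal B := Submodule.comap (LinearMap.mulRight B (σB b - b)) (G.F (a + e))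
    have hI : ∀ c, c ∈ I ↔ c * (σB b - b) ∈ G.F (a + e) := fun c => Iff.rfl
    by_contra hcon
    have hI1 : I ≠ ⊤ := by
      intro h
      apply hcon
      have h1 : (1 : B) ∈ I := by rw [h]; trivial
      rwa [hI, one_mul] at h1
    obtain ⟨P, hP, hIP⟩ := Ideal.exists_le_maximal _ hI1
    have hP' := hP.isPrime
    by_cases hle : G.F 1 ≤ P
    · obtain ⟨f, hf, hfP, hc⟩ := hch P hP.isPrime hle
      obtain ⟨-, -, -, h1⟩ := chart_facts K G σB σ hσK e hfix hG1 f hf (hne hfP) hc
      obtain ⟨m, hm⟩ := h1 a b hb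
      exact hfP (hP'.mem_of_pow_mem m (hIP ((hI _).2 hm)))
    · obtain ⟨h, hh1, hhP⟩ := SetLike.not_le_iff_exists.1 hle
      refine hhP (hP'.mem_of_pow_mem (a + e) (hIP ((hI _).2 ?_)))
      exact Ideal.mul_mem_right _ _ (pow_mem_F hh1 _)
  have hδ : ∀ a, ∀ z ∈ (idFam k K G).s a, σ z - z ∈ (idFam k K G).s (a + e) := by
    rintro a _ ⟨b, hb, rfl⟩
    change σ (algebraMap B K b) - algebraMap B K b ∈ _
    rw [hσK, ← map_sub]
    exact map_mem_idFam (G.anti (by omega) (hδB _ _ hb))
  have hst : Stable (idFam k K G) σ := by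
    intro a z hz
    have h1 : σ z - z ∈ (idFam k K G).s a :=
      Fam.mem_of_le _ (one_mem_idFam (by norm_num)) (by omega) (hδ a z hz)
    have h2 := Submodule.add_mem _ h1 hz
    rwa [sub_add_cancel] at h2
  refine good_of_action p (idFam k K G) σ hσ hfg hst ?_ ?_ ?_ e he hδ ?_
  · intro d hd z hz hz0
    exact Fam.formallySmooth_loc _ hz hz0 hsm
  · intro d hd
    exact one_mem_idFam hd
  · obtain ⟨h, hh, hh0⟩ := Submodule.exists_mem_ne_zero_of_ne_bot hG1
    refine ⟨1, one_pos, algebraMap B K h, map_mem_idFam hh, fun h0 => hh0 (hinj ?_)⟩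
    rw [h0, map_zero]
  · intro q hq hex
    let β : B →ₐ[k] (idFam k K G).alg :=
      baseMap (idFam k K G) B (fun b => map_mem_idFam_nonpos le_rfl b)
    have hβ : ∀ b, β b = (idFam k K G).el (map_mem_idFam_nonpos le_rfl b) := fun _ => rfl
    have hqc : (q.comap β).IsPrime := Ideal.comap_isPrime _ q
    by_cases hle : G.F 1 ≤ q.comap β
    · obtain ⟨f, hf, hfP, hc⟩ := hch _ hqc hle
      obtain ⟨-, -, h1, -⟩ := chart_facts K G σB σ hσK e hfix hG1 f hf (hne hfP) hc
      exact Prin.descend _ (fun h0 => hne hfP (hinj (by rw [h0, map_zero])))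
        (by rw [hσK, hf]) hδ h1 q (by rw [← hβ]; exact hfP) hex
    · obtain ⟨h, hh1, hhP⟩ := SetLike.not_le_iff_exists.1 hle
      have hT : (1 : K) ∈ (idFam k K G).s (-((1 : ℕ) : ℤ)) := one_mem_idFam (by norm_num)
      have htq : (idFam k K G).el hT ∉ q := by
        intro ht
        apply hhP
        rw [Ideal.mem_comap, hβ]
        have h1 : algebraMap B K h ∈ (idFam k K G).s (0 + ((1 : ℕ) : ℤ)) :=
          map_mem_idFam (by simpa using hh1)
        rw [← el_T_mul (idFam k K G) hT h1 (map_mem_idFam_nonpos le_rfl h)]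
        exact Ideal.mul_mem_right _ _ ht
      have hb : ∃ b, β (σB b - b) ∉ q := by
        by_contra hcon
        push Not at hcon
        apply hle
        rw [← hfix]
        refine hqc.radical_le_iff.2 (Ideal.span_le.2 ?_)
        rintro _ ⟨b, rfl⟩
        exact hcon b
      obtain ⟨b, hb⟩ := hb
      refine ⟨0, algebraMap B K b, map_mem_idFam_nonpos le_rfl b, fun hcon => hb ?_⟩
      have hTe : (1 : K) ∈ (idFam k K G).s (-(e : ℤ)) := one_mem_idFam (by omega)
      have h2 : σ (algebraMap B K b) - algebraMap B K b ∈ (idFam k K G).s 0 := by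
        rw [hσK, ← map_sub]; exact map_mem_idFam_nonpos le_rfl _
      have h3 := el_T_mul (idFam k K G) hTe
        (hδ 0 (algebraMap B K b) (map_mem_idFam_nonpos le_rfl b)) h2
      have h4 : β (σB b - b) = (idFam k K G).el h2 := by
        rw [hβ]
        refine Fam.el_eq _ _ h2 rfl ?_
        rw [hσK, ← map_sub]
      rw [h4, ← h3]
      exact Ideal.mul_mem_left _ _ hcon

end chart

end Pool.Agent.MP_b525bf_ag_h5
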