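import Mathlib
import Pool.Agent.Lib.MP_b525bf_ag_h5.Chart
import Pool.Agent.Lib.MP_b525bf_ag_h5.Local2

/-!
Good families from filtrations which are locally weighted, for adapted charts.
-/

set_option autoImplicit false

namespace Pool.Agent.MP_b525bf_ag_h5

open Pool.Agent.MP_b525bf_ag AddMonoidAlgebra

section chart

variable {k : Type} [Field k] {B : Type} [CommRing B] [IsDomain B] [Algebra k B]

/-- The canonical algebra structure of the fraction field over a localisation. -/
noncomputable def awayAlg (K : Type) [Field K] [Algebra B K] [IsFractionRing B K] {f : B}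
    (hf0 : f ≠ 0) : Algebra (Localization.Away f) K :=
  IsLocalization.localizationAlgebraOfSubmonoidLe (Localization.Away f) K
    (Submonoid.powers f) (nonZeroDivisors B) (powers_le_nonZeroDivisors_of_noZeroDivisors hf0)

omit [Algebra k B] in
lemma awayAlg_tower (K : Type) [Field K] [Algebra B K] [IsFractionRing B K] {f : B}
    (hf0 : f ≠ 0) : letI := awayAlg K hf0; IsScalarTower B (Localization.Away f) K :=
  IsLocalization.localization_isScalarTower_of_submonoid_le (Localization.Away f) K
    (Submonoid.powers f) (nonZeroDivisors B) (powers_le_nonZeroDivisors_of_noZeroDivisors hf0)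

lemma awayAlg_tower' (K : Type) [Field K] [Algebra k K] [Algebra B K] [IsScalarTower k B K]
    [IsFractionRing B K] {f : B}
    (hf0 : f ≠ 0) : letI := awayAlg K hf0; IsScalarTower k (Localization.Away f) K := by
  let := awayAlg K hf0
  have := awayAlg_tower K hf0
  exact IsScalarTower.of_algebraMap_eq fun c => by
    rw [IsScalarTower.algebraMap_apply k B (Localization.Away f),
      ← IsScalarTower.algebraMap_apply B (Localization.Away f) K,
      ← IsScalarTower.algebraMap_apply]

omit [Algebra k B] in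
lemma awayAlg_frac (K : Type) [Field K] [Algebra B K] [IsFractionRing B K] {f : B}
    (hf0 : f ≠ 0) : letI := awayAlg K hf0; IsFractionRing (Localization.Away f) K := by
  let := awayAlg K hf0
  have := awayAlg_tower K hf0
  exact IsFractionRing.isFractionRing_of_isDomain_of_isLocalization (Submonoid.powers f)
    (Localization.Away f) K

lemma awayMap_algebraMap (σ : B ≃ₐ[k] B) (f : B) (hf : σ f = f) (b : B) :
    awayMap σ f hf (algebraMap B _ b) = algebraMap B _ (σ b) := by
  rw [awayMap, IsLocalization.map_eq]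
  rfl

lemma awayMap_frac (K : Type) [Field K] [Algebra k K] [Algebra B K] [IsScalarTower k B K]
    [IsFractionRing B K] (σB : B ≃ₐ[k] B) (σ : K ≃ₐ[k] K)
    (hσK : ∀ b, σ (algebraMap B K b) = algebraMap B K (σB b)) {f : B} (hf : σB f = f)
    (hf0 : f ≠ 0) (b : Localization.Away f) : letI := awayAlg K hf0
    σ (algebraMap (Localization.Away f) K b) =
      algebraMap (Localization.Away f) K (awayMap σB f hf b) := by
  let := awayAlg K hf0
  have := awayAlg_tower K hf0
  have h1 : ((σ : K →+* K).comp (algebraMap (Localization.Away f) K)) =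
      ((algebraMap (Localization.Away f) K).comp (awayMap σB f hf)) := by
    refine IsLocalization.ringHom_ext (Submonoid.powers f) ?_
    refine RingHom.ext fun c => ?_
    change σ (algebraMap _ K (algebraMap B (Localization.Away f) c)) =
      algebraMap _ K (awayMap σB f hf (algebraMap B _ c))
    rw [awayMap_algebraMap, ← IsScalarTower.algebraMap_apply,
      ← IsScalarTower.algebraMap_apply, hσK]
  exact DFunLike.congr_fun h1 b

/-- What we need about a chart. -/
structure Facts (K : Type) [Field K] [Algebra k K] [Algebra B K] [IsScalarTower k B K]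
    (G : Filt B) (σB : B ≃ₐ[k] B) (σ : K ≃ₐ[k] K) (e : ℕ) (f : B) : Prop where
  fg : Algebra.FiniteType k ((idFam k K G).loc (map_mem_idFam_nonpos le_rfl f)).alg
  smooth : Algebra.FormallySmooth k ((idFam k K G).loc (map_mem_idFam_nonpos le_rfl f)).alg
  prin : Prin ((idFam k K G).loc (map_mem_idFam_nonpos le_rfl f)) σ e
  delta : ∀ (a : ℕ), ∀ b ∈ G.F a, ∃ m : ℕ, f ^ m * (σB b - b) ∈ G.F (a + e)

/-- An adapted chart on `Spec B[1/f]` in which `F` is the weighted filtration. -/
def AChart (σ : B ≃ₐ[k] B) (F : ℕ → Ideal B) (e : ℕ) (f : B) (hf : σ f = f) : Prop :=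
  ∃ (n : ℕ) (x : Fin n → Localization.Away f) (w : Fin n → ℕ),
    IsChart k (awayMap σ f hf) e x w ∧
    ∀ a, (F a).map (algebraMap B (Localization.Away f)) = wIdeal x w a

theorem AChart.facts (K : Type) [Field K] [Algebra k K] [Algebra B K] [IsScalarTower k B K]
    [IsFractionRing B K] (G : Filt B) (σB : B ≃ₐ[k] B) (σ : K ≃ₐ[k] K)
    (hσK : ∀ b, σ (algebraMap B K b) = algebraMap B K (σB b)) (e : ℕ) (hG1 : G.F 1 ≠ ⊥)
    (f : B) (hf : σB f = f) (hf0 : f ≠ 0) (hch : AChart σB G.F e f hf) :
    Facts K G σB σ e f := by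
  have hinj : Function.Injective (algebraMap B K) := IsFractionRing.injective B K
  let i1 := awayAlg K hf0
  have i2 := awayAlg_tower K hf0
  have i3 := awayAlg_tower' (k := k) K hf0
  have i4 := awayAlg_frac K hf0
  have hinjL : Function.Injective (algebraMap (Localization.Away f) K) :=
    IsFractionRing.injective _ K
  have hBL : Function.Injective (algebraMap B (Localization.Away f)) := by
    intro a b hab
    apply hinj
    rw [IsScalarTower.algebraMap_apply B (Localization.Away f) K, hab,
      ← IsScalarTower.algebraMap_apply]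
  obtain ⟨n, x, w, hx, hF⟩ := hch
  have hσLK := awayMap_frac K σB σ hσK hf hf0
  have hc1 : cIdeal x w = (G.F 1).map (algebraMap B (Localization.Away f)) := by
    rw [← wIdeal_one, hF]
  have hw : ∃ i, 0 < w i := by
    by_contra hcon
    have h1 : cIdeal x w = ⊥ := by
      rw [cIdeal, Ideal.span_eq_bot]
      rintro _ ⟨i, hi, rfl⟩
      exact absurd ⟨i, hi⟩ hcon
    rw [hc1, Ideal.map_eq_bot_iff_of_injective hBL] at h1
    exact hG1 h1
  have heq := loc_idFam_eq_wFam (k := k) (K := K) (G := G) hinj hf0 (Localization.Away f) x w hF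
  obtain ⟨hft, hsm⟩ := wFam_smooth_fg (k := k) (K := K) hinjL x hx.etale w hw
  refine ⟨by rw [heq]; exact hft, by rw [heq]; exact hsm, by rw [heq]; exact hx.prin hσLK, ?_⟩
  intro a b hb
  have h1 : algebraMap B (Localization.Away f) b ∈ wIdeal x w a := by
    rw [← hF]; exact Ideal.mem_map_of_mem _ hb
  have h2 := hx.delta _ _ h1
  rw [awayMap_algebraMap, ← map_sub, ← hF,
    IsLocalization.algebraMap_mem_map_algebraMap_iff (Submonoid.powers f)] at h2
  obtain ⟨_, ⟨m, rfl⟩, h3⟩ := h2
  exact ⟨m, h3⟩

/-- The initial good family of a filtration which is locally weighted. -/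
theorem good_of_facts (p : ℕ) [Fact p.Prime] [CharP k p] [Algebra.Smooth k B]
    (K : Type) [Field K] [Algebra k K] [Algebra B K] [IsScalarTower k B K]
    [IsFractionRing B K] (G : Filt B) (σB : B ≃ₐ[k] B) (σ : K ≃ₐ[k] K)
    (hσK : ∀ b, σ (algebraMap B K b) = algebraMap B K (σB b)) (hσ : σ ^ p = 1)
    (e : ℕ) (he : 0 < e)
    (hfix : (Ideal.span (Set.range fun b => σB b - b)).radical = G.F 1) (hG1 : G.F 1 ≠ ⊥)
    (hch : ∀ P : Ideal B, P.IsPrime → G.F 1 ≤ P →
      ∃ f : B, σB f = f ∧ f ∉ P ∧ Facts K G σB σ e f) :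
    (∀ a, ∀ z ∈ (idFam k K G).s a, σ z - z ∈ (idFam k K G).s (a + e)) ∧
    ∃ w', 0 < w' ∧ Good (invFam (idFam k K G) σ) w' := by
  classical
  have hinj : Function.Injective (algebraMap B K) := IsFractionRing.injective B K
  have hne : ∀ {P : Ideal B} {f : B}, f ∉ P → f ≠ 0 := by
    rintro P f hf rfl
    exact hf P.zero_mem
  -- charts away from the centre
  have haway : ∀ h : B, h ≠ 0 → h ∈ G.F 1 →
      Algebra.FiniteType k ((idFam k K G).loc (map_mem_idFam_nonpos le_rfl h)).alg ∧
      Algebra.FormallySmooth k ((idFam k K G).loc (map_mem_idFam_nonpos le_rfl h)).alg := by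
    intro h hh0 hh1
    let i1 := awayAlg K hh0
    have i2 := awayAlg_tower K hh0
    have i3 := awayAlg_tower' (k := k) K hh0
    have i4 := awayAlg_frac K hh0
    have hinjL : Function.Injective (algebraMap (Localization.Away h) K) :=
      IsFractionRing.injective _ K
    rw [loc_idFam_eq_const (k := k) (K := K) (G := G) hinj hh0 hh1 (Localization.Away h)]
    have h1 : Algebra.Smooth B (Localization.Away h) := Algebra.Smooth.of_isLocalization_Away h
    have h2 : Algebra.Smooth k (Localization.Away h) := Algebra.Smooth.comp k B _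
    refine smooth_constFam _ ?_
    exact Algebra.Smooth.of_equiv
      (AlgEquiv.ofInjective (IsScalarTower.toAlgHom k (Localization.Away h) K) hinjL)
  obtain ⟨hft, hsm⟩ := fg_smooth_idFam (k := k) (K := K) (G := G) (fun P hP => by
    by_cases hle : G.F 1 ≤ P
    · obtain ⟨f, hf, hfP, hc⟩ := hch P hP hle
      exact ⟨f, hfP, hne hfP, hc.fg, hc.smooth⟩
    · obtain ⟨h, hh1, hhP⟩ := SetLike.not_le_iff_exists.1 hle
      obtain ⟨h2, h3⟩ := haway h (hne hhP) hh1
      exact ⟨h, hhP, hne hhP, h2, h3⟩) hinj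
  have hfg : (idFam k K G).alg.FG := (Subalgebra.fg_iff_finiteType _).2 hft
  have hδB : ∀ (a : ℕ), ∀ b ∈ G.F a, σB b - b ∈ G.F (a + e) := by
    intro a b hb
    let I : Ideal B := Submodule.comap (LinearMap.mulRight B (σB b - b)) (G.F (a + e))
    have hI : ∀ c, c ∈ I ↔ c * (σB b - b) ∈ G.F (a + e) := fun c => Iff.rfl
    by_contra hcon
    have hI1 : I ≠ ⊤ := by
      intro h
      apply hcon
      have h1 : (1 : B) ∈ I := by rw [h]; trivial
      rwa [hI, one_mul] at h1
    obtain ⟨P, hP, hIP⟩ := Ideal.exists_le_maximal _ hI1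
    have hP' := hP.isPrime
    by_cases hle : G.F 1 ≤ P
    · obtain ⟨f, hf, hfP, hc⟩ := hch P hP.isPrime hle
      obtain ⟨m, hm⟩ := hc.delta a b hb
      exact hfP (hP'.mem_of_pow_mem m (hIP ((hI _).2 hm)))
    · obtain ⟨h, hh1, hhP⟩ := SetLike.not_le_iff_exists.1 hle
      refine hhP (hP'.mem_of_pow_mem (a + e) (hIP ((hI _).2 ?_)))
      exact Ideal.mul_mem_right _ _ (pow_mem_F hh1 _)
  have hδ : ∀ a, ∀ z ∈ (idFam k K G).s a, σ z - z ∈ (idFam k K G).s (a + e) := by
    rintro a _ ⟨b, hb, rfl⟩
    change σ (algebraMap B K b) - algebraMap B K b ∈ _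
    rw [hσK, ← map_sub]
    exact map_mem_idFam (G.anti (by omega) (hδB _ _ hb))
  have hst : Stable (idFam k K G) σ := by
    intro a z hz
    have h1 : σ z - z ∈ (idFam k K G).s a :=
      Fam.mem_of_le _ (one_mem_idFam (by norm_num)) (by omega) (hδ a z hz)
    have h2 := Submodule.add_mem _ h1 hz
    rwa [sub_add_cancel] at h2
  refine ⟨hδ, good_of_action p (idFam k K G) σ hσ hfg hst ?_ ?_ ?_ e he hδ ?_⟩
  · intro d hd z hz hz0
    exact Fam.formallySmooth_loc _ hz hz0 hsm
  · intro d hd
    exact one_mem_idFam hd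
  · obtain ⟨h, hh, hh0⟩ := Submodule.exists_mem_ne_zero_of_ne_bot hG1
    refine ⟨1, one_pos, algebraMap B K h, map_mem_idFam hh, fun h0 => hh0 (hinj ?_)⟩
    rw [h0, map_zero]
  · intro q hq hex
    let β : B →ₐ[k] (idFam k K G).alg :=
      baseMap (idFam k K G) B (fun b => map_mem_idFam_nonpos le_rfl b)
    have hβ : ∀ b, β b = (idFam k K G).el (map_mem_idFam_nonpos le_rfl b) := fun _ => rfl
    have hqc : (q.comap β).IsPrime := Ideal.comap_isPrime _ q
    by_cases hle : G.F 1 ≤ q.comap β
    · obtain ⟨f, hf, hfP, hc⟩ := hch _ hqc hle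
      exact Prin.descend _ (fun h0 => hne hfP (hinj (by rw [h0, map_zero])))
        (by rw [hσK, hf]) hδ hc.prin q (by rw [← hβ]; exact hfP) hex
    · obtain ⟨h, hh1, hhP⟩ := SetLike.not_le_iff_exists.1 hle
      have hT : (1 : K) ∈ (idFam k K G).s (-((1 : ℕ) : ℤ)) := one_mem_idFam (by norm_num)
      have htq : (idFam k K G).el hT ∉ q := by
        intro ht
        apply hhP
        rw [Ideal.mem_comap, hβ]
        have h1 : algebraMap B K h ∈ (idFam k K G).s (0 + ((1 : ℕ) : ℤ)) :=
          map_mem_idFam (by simpa using hh1)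
        rw [← el_T_mul (idFam k K G) hT h1 (map_mem_idFam_nonpos le_rfl h)]
        exact Ideal.mul_mem_right _ _ ht
      have hb : ∃ b, β (σB b - b) ∉ q := by
        by_contra hcon
        push Not at hcon
        apply hle
        rw [← hfix]
        refine hqc.radical_le_iff.2 (Ideal.span_le.2 ?_)
        rintro _ ⟨b, rfl⟩
        exact hcon b
      obtain ⟨b, hb⟩ := hb
      refine ⟨0, algebraMap B K b, map_mem_idFam_nonpos le_rfl b, fun hcon => hb ?_⟩
      have hTe : (1 : K) ∈ (idFam k K G).s (-(e : ℤ)) := one_mem_idFam (by omega)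
      have h2 : σ (algebraMap B K b) - algebraMap B K b ∈ (idFam k K G).s 0 := by
        rw [hσK, ← map_sub]; exact map_mem_idFam_nonpos le_rfl _
      have h3 := el_T_mul (idFam k K G) hTe
        (hδ 0 (algebraMap B K b) (map_mem_idFam_nonpos le_rfl b)) h2
      have h4 : β (σB b - b) = (idFam k K G).el h2 := by
        rw [hβ]
        refine Fam.el_eq _ _ h2 rfl ?_
        rw [hσK, ← map_sub]
      rw [h4, ← h3]
      exact Ideal.mul_mem_left _ _ hcon

end chart

end Pool.Agent.MP_b525bf_ag_h5
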