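import Mathlib
import Pool.Agent.Lib.MP_b525bf_ag_h5.Local3

/-!
Gluing the weighted filtrations of adapted charts.
-/

set_option autoImplicit false

namespace Pool.Agent.MP_b525bf_ag_h5

open Pool.Agent.MP_b525bf_ag AddMonoidAlgebra

section

variable {k K : Type} [Field k] [Field K] [Algebra k K] {B : Type} [CommRing B] [Algebra k B]
  [Algebra B K] [IsScalarTower k B K]

/-- Families over `B` which are closed under taking roots and on which `σ - 1` has degree `e`. -/
structure Adm (B : Type) [CommRing B] [Algebra B K] (σ : K ≃ₐ[k] K) (e : ℕ) (N : Fam k K ℤ) :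
    Prop where
  one : (1 : K) ∈ N.s (-1)
  base : ∀ b : B, algebraMap B K b ∈ N.s 0
  delta : ∀ a, ∀ z ∈ N.s a, σ z - z ∈ N.s (a + e)
  pow : PowClosed N

omit [Algebra k B] [IsScalarTower k B K] in
lemma Adm.smul {σ : K ≃ₐ[k] K} {e : ℕ} {N : Fam k K ℤ} (h : Adm B σ e N) (b : B) {a : ℤ} {z : K}
    (hz : z ∈ N.s a) : algebraMap B K b * z ∈ N.s a := by
  have := N.mul' (h.base b) hz
  rwa [zero_add] at this

omit [Algebra k B] [IsScalarTower k B K] in
lemma Adm.of_le {σ : K ≃ₐ[k] K} {e : ℕ} {N : Fam k K ℤ} (h : Adm B σ e N) {a b : ℤ} {z : K}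
    (hab : a ≤ b) (hz : z ∈ N.s b) : z ∈ N.s a := Fam.mem_of_le N h.one hab hz

variable [IsDomain B] [IsFractionRing B K]

omit [Algebra k B] [IsScalarTower k B K] in
/-- Localisation of admissible families. -/
lemma Adm.loc {σ : K ≃ₐ[k] K} {e : ℕ} {N : Fam k K ℤ} (h : Adm B σ e N) {f : B} (hf0 : f ≠ 0)
    (hσf : σ (algebraMap B K f) = algebraMap B K f) :
    letI := awayAlg K hf0
    Adm (Localization.Away f) σ e (N.loc (h.base f)) := by
  let := awayAlg K hf0
  have := awayAlg_tower K hf0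
  refine ⟨N.le_loc _ _ h.one, ?_, ?_, h.pow.loc _⟩
  · intro b
    obtain ⟨⟨c, ⟨_, m, rfl⟩⟩, hc⟩ := IsLocalization.surj (Submonoid.powers f) b
    change b * algebraMap B _ (f ^ m) = algebraMap B _ c at hc
    refine ⟨m, ?_⟩
    rw [smul_zero, zero_add]
    have h1 := congrArg (algebraMap (Localization.Away f) K) hc
    rw [map_mul, ← IsScalarTower.algebraMap_apply, ← IsScalarTower.algebraMap_apply, map_pow] at h1
    rw [mul_comm, h1]
    exact h.base c
  · rintro a z ⟨m, hm⟩
    refine ⟨m, ?_⟩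
    rw [smul_zero, zero_add] at hm ⊢
    have h1 := h.delta a _ hm
    rw [map_mul, map_pow, hσf, ← mul_sub] at h1
    exact h1

omit [Algebra k B] [IsScalarTower k B K] [IsFractionRing B K] in
/-- The filtration of `B` induced by finitely many admissible families. -/
def interFilt {σ : K ≃ₐ[k] K} {e : ℕ} {T : Finset B} {N : B → Fam k K ℤ}
    (hN : ∀ f ∈ T, Adm B σ e (N f)) : Filt B where
  F a :=
    { carrier := {b | ∀ f ∈ T, algebraMap B K b ∈ (N f).s a}
      add_mem' := by
        intro b c hb hc f hf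
        rw [map_add]
        exact Submodule.add_mem _ (hb f hf) (hc f hf)
      zero_mem' := by
        intro f hf
        rw [map_zero]; exact Submodule.zero_mem _
      smul_mem' := by
        intro c b hb f hf
        rw [smul_eq_mul, map_mul]
        exact (hN f hf).smul c (hb f hf) }
  zero := by
    rw [eq_top_iff]
    intro b _ f hf
    exact (hN f hf).base b
  anti := by
    intro a b hab z hz f hf
    exact (hN f hf).of_le (by exact_mod_cast hab) (hz f hf)
  mul := by
    intro a b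
    refine Ideal.mul_le.2 fun y hy z hz f hf => ?_
    rw [map_mul, Nat.cast_add]
    exact (N f).mul' (hy f hf) (hz f hf)

omit [Algebra k B] [IsScalarTower k B K] [IsDomain B] [IsFractionRing B K] in
lemma mem_interFilt {σ : K ≃ₐ[k] K} {e : ℕ} {T : Finset B} {N : B → Fam k K ℤ}
    {hN : ∀ f ∈ T, Adm B σ e (N f)} {a : ℕ} {b : B} :
    b ∈ (interFilt hN).F a ↔ ∀ f ∈ T, algebraMap B K b ∈ (N f).s a := Iff.rfl

lemma adm_idFam {σB : B ≃ₐ[k] B} {σ : K ≃ₐ[k] K}
    (hσK : ∀ b, σ (algebraMap B K b) = algebraMap B K (σB b)) {e : ℕ} {T : Finset B}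
    {N : B → Fam k K ℤ} (hN : ∀ f ∈ T, Adm B σ e (N f)) :
    Adm B σ e (idFam k K (interFilt hN)) := by
  have hinj : Function.Injective (algebraMap B K) := IsFractionRing.injective B K
  refine ⟨one_mem_idFam (by norm_num), fun b => map_mem_idFam_nonpos le_rfl b, ?_, ?_⟩
  · rintro a _ ⟨b, hb, rfl⟩
    change σ (algebraMap B K b) - algebraMap B K b ∈ _
    rw [hσK, ← map_sub]
    refine map_mem_idFam fun f hf => ?_
    have h1 := (hN f hf).delta _ _ (hb f hf)
    rw [hσK, ← map_sub] at h1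
    exact (hN f hf).of_le (by omega) h1
  · rintro z m c v hm ⟨b, -, rfl⟩ hc hv
    change algebraMap B K b ∈ _
    change (algebraMap B K b) ^ m ∈ _ at hc
    by_cases hv0 : v ≤ 0
    · exact map_mem_idFam_nonpos hv0 b
    · push Not at hv0
      obtain ⟨b', hb', h⟩ := hc
      have h1 : b' = b ^ m := hinj (by rw [map_pow]; exact h)
      subst h1
      obtain ⟨v, rfl⟩ := Int.eq_ofNat_of_zero_le hv0.le
      have hc0 : 0 ≤ c := by
        have h2 : (m : ℤ) * 1 ≤ m * v := by
          refine mul_le_mul_of_nonneg_left ?_ (by positivity)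
          omega
        omega
      obtain ⟨c, rfl⟩ := Int.eq_ofNat_of_zero_le hc0
      refine map_mem_idFam_nat fun f hf => ?_
      have h2 := hb' f hf
      rw [map_pow] at h2
      exact (hN f hf).pow _ m _ _ hm ((hN f hf).base b) h2 hv

/-- The family of an adapted chart. -/
def ChartFam (K : Type) [Field K] [Algebra k K] [Algebra B K] [IsScalarTower k B K]
    [IsFractionRing B K] (σB : B ≃ₐ[k] B) (e : ℕ) (f : B) (N : Fam k K ℤ) : Prop :=
  ∃ (hf0 : f ≠ 0) (hf : σB f = f) (n : ℕ) (x : Fin n → Localization.Away f) (w : Fin n → ℕ),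
    IsChart k (awayMap σB f hf) e x w ∧ (∃ i, 0 < w i) ∧
    N = letI := awayAlg K hf0
      letI := awayAlg_tower' (k := k) K hf0
      wFam k K x w

lemma ChartFam.adm {σB : B ≃ₐ[k] B} {σ : K ≃ₐ[k] K}
    (hσK : ∀ b, σ (algebraMap B K b) = algebraMap B K (σB b)) {e : ℕ} {f : B} {N : Fam k K ℤ}
    (h : ChartFam K σB e f N) : Adm B σ e N := by
  obtain ⟨hf0, hf, n, x, w, hx, hw, rfl⟩ := h
  let i1 := awayAlg K hf0
  have i2 := awayAlg_tower K hf0
  have i3 := awayAlg_tower' (k := k) K hf0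
  have i4 := awayAlg_frac K hf0
  refine ⟨one_mem_wFam x w (by norm_num), fun b => ?_,
    hx.delta_wFam (awayMap_frac K σB σ hσK hf hf0),
    powClosed_wFam (IsFractionRing.injective _ K) x hx.etale w hw⟩
  rw [IsScalarTower.algebraMap_apply B (Localization.Away f) K]
  exact map_mem_wFam_nonpos le_rfl _

lemma ChartFam.le_loc {σB : B ≃ₐ[k] B} {σ : K ≃ₐ[k] K}
    (hσK : ∀ b, σ (algebraMap B K b) = algebraMap B K (σB b)) {e : ℕ} (he : 0 < e) {f : B}
    {N : Fam k K ℤ} (h : ChartFam K σB e f N) {N' : Fam k K ℤ} (hN' : Adm B σ e N') (a : ℤ) :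
    N.s a ≤ (N'.loc (hN'.base f)).s a := by
  obtain ⟨hf0, hf, n, x, w, hx, hw, rfl⟩ := h
  let i1 := awayAlg K hf0
  have i2 := awayAlg_tower K hf0
  have i3 := awayAlg_tower' (k := k) K hf0
  have i4 := awayAlg_frac K hf0
  have h1 := hN'.loc hf0 (by rw [hσK, hf])
  exact wFam_le x w σ e he (hx.rel_wFam (awayMap_frac K σB σ hσK hf hf0)) _ h1.one h1.base h1.delta
    h1.pow a

/-- In its own chart the glued filtration is the weighted filtration. -/
theorem ChartFam.aChart {σB : B ≃ₐ[k] B} {σ : K ≃ₐ[k] K}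
    (hσK : ∀ b, σ (algebraMap B K b) = algebraMap B K (σB b)) {e : ℕ} (he : 0 < e)
    {T : Finset B} {N : B → Fam k K ℤ} (hN : ∀ f ∈ T, ChartFam K σB e f (N f)) {f : B}
    (hf : f ∈ T) : ∃ hσf : σB f = f,
    AChart σB (interFilt fun f hf => (hN f hf).adm hσK).F e f hσf := by
  classical
  have hle := fun h (hh : h ∈ T) => (hN f hf).le_loc hσK he ((hN h hh).adm hσK)
  have hNf := hN f hf
  obtain ⟨hf0, hσf, n, x, w, hx, hw, hNeq⟩ := hNf
  let i1 := awayAlg K hf0
  have i2 := awayAlg_tower K hf0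
  have i3 := awayAlg_tower' (k := k) K hf0
  have i4 := awayAlg_frac K hf0
  have hinjL : Function.Injective (algebraMap (Localization.Away f) K) :=
    IsFractionRing.injective _ K
  refine ⟨hσf, n, x, w, hx, fun a => ?_⟩
  apply le_antisymm
  · refine Ideal.map_le_iff_le_comap.2 fun b hb => ?_
    rw [Ideal.mem_comap]
    have h1 := mem_interFilt.1 hb f hf
    rw [hNeq] at h1
    obtain ⟨b', hb', h2⟩ := h1
    have h3 : b' = algebraMap B _ b := hinjL (by
      rw [← IsScalarTower.algebraMap_apply]; exact h2)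
    rw [← h3]
    exact hb'
  · intro y hy
    obtain ⟨⟨b, ⟨_, m, rfl⟩⟩, hb⟩ := IsLocalization.surj (Submonoid.powers f) y
    change y * algebraMap B _ (f ^ m) = algebraMap B _ b at hb
    have h1 : algebraMap B K b ∈ (N f).s a := by
      rw [hNeq]
      rw [IsScalarTower.algebraMap_apply B (Localization.Away f) K]
      refine map_mem_wFam_nat ?_
      rw [← hb]
      exact Ideal.mul_mem_right _ _ hy
    have h2 : ∀ h : B, ∃ m : ℕ, h ∈ T → algebraMap B K (f ^ m * b) ∈ (N h).s a := by
      intro h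
      by_cases hh : h ∈ T
      · obtain ⟨m, hm⟩ := hle h hh a h1
        rw [smul_zero, zero_add] at hm
        exact ⟨m, fun _ => by rw [map_mul, map_pow]; exact hm⟩
      · exact ⟨0, fun h => absurd h hh⟩
    choose μ hμ using h2
    have h3 : f ^ (∑ h ∈ T, μ h) * b ∈ (interFilt fun f hf => (hN f hf).adm hσK).F a := by
      intro h hh
      have h4 : μ h ≤ ∑ h ∈ T, μ h := Finset.single_le_sum (fun _ _ => Nat.zero_le _) hh
      obtain ⟨r, hr⟩ := Nat.exists_eq_add_of_le h4
      have h5 := ((hN h hh).adm hσK).smul (f ^ r) (hμ h hh)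
      rw [← map_mul] at h5
      rw [hr]
      convert h5 using 2
      ring
    rw [IsLocalization.mem_map_algebraMap_iff (Submonoid.powers f)]
    refine ⟨⟨⟨_, h3⟩, ⟨_, m + ∑ h ∈ T, μ h, rfl⟩⟩, ?_⟩
    change y * algebraMap B _ (f ^ (m + ∑ h ∈ T, μ h)) = algebraMap B _ (f ^ (∑ h ∈ T, μ h) * b)
    rw [pow_add, map_mul, ← mul_assoc, hb, map_mul, mul_comm]

/-- The glued filtration is the smallest admissible one. -/
theorem idFam_le {σB : B ≃ₐ[k] B} {σ : K ≃ₐ[k] K}
    (hσK : ∀ b, σ (algebraMap B K b) = algebraMap B K (σB b)) {e : ℕ} (he : 0 < e)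
    {T : Finset B} {N : B → Fam k K ℤ} (hN : ∀ f ∈ T, ChartFam K σB e f (N f))
    (hT : Ideal.span (Set.range fun b => σB b - b) ⊔ Ideal.span (T : Set B) = ⊤)
    {N' : Fam k K ℤ} (hN' : Adm B σ e N') (a : ℤ) :
    (idFam k K (interFilt fun f hf => (hN f hf).adm hσK)).s a ≤ N'.s a := by
  rintro _ ⟨b, hb, rfl⟩
  have hb' : ∀ f ∈ T, algebraMap B K b ∈ (N f).s (a.toNat : ℤ) := hb
  change algebraMap B K b ∈ N'.s a
  let Q : Ideal B :=
    { carrier := {c | algebraMap B K (c * b) ∈ N'.s a}
      add_mem' := by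
        intro c d hc hd
        change algebraMap B K ((c + d) * b) ∈ N'.s a
        rw [add_mul, map_add]
        exact Submodule.add_mem _ hc hd
      zero_mem' := by
        change algebraMap B K (0 * b) ∈ N'.s a
        rw [zero_mul, map_zero]; exact Submodule.zero_mem _
      smul_mem' := by
        intro c d hd
        change algebraMap B K (c * d * b) ∈ N'.s a
        rw [mul_assoc, map_mul]
        exact hN'.smul c hd }
  have hQ : ∀ c, c ∈ Q ↔ algebraMap B K (c * b) ∈ N'.s a := fun _ => Iff.rfl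
  suffices h : Q = ⊤ by
    have h1 : (1 : B) ∈ Q := by rw [h]; trivial
    rwa [hQ, one_mul] at h1
  by_contra hne
  obtain ⟨P, hP, hle⟩ := Ideal.exists_le_maximal _ hne
  have hP' := hP.isPrime
  apply hP.ne_top
  rw [eq_top_iff, ← hT]
  refine sup_le (Ideal.span_le.2 ?_) (Ideal.span_le.2 ?_)
  · rintro _ ⟨c, rfl⟩
    refine hP'.mem_of_pow_mem a.toNat (hle ((hQ _).2 ?_))
    have h1 := hN'.delta 0 _ (hN'.base c)
    rw [hσK, ← map_sub, zero_add] at h1
    have h2 := hN'.of_le (show (1 : ℤ) ≤ e by exact_mod_cast he) h1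
    have h3 := N'.mul' (N'.pow' h2 a.toNat) (hN'.base b)
    rw [nsmul_eq_mul, mul_one, add_zero, ← map_pow, ← map_mul] at h3
    exact hN'.of_le (Int.self_le_toNat a) h3
  · intro f hf
    obtain ⟨m, hm⟩ := (hN f hf).le_loc hσK he hN' _ (hb' f hf)
    rw [smul_zero, zero_add, ← map_pow, ← map_mul] at hm
    exact hP'.mem_of_pow_mem m (hle ((hQ _).2 (hN'.of_le (Int.self_le_toNat a) hm)))

/-- The centre of the glued filtration is the fixed locus. -/
theorem radical_eq {σB : B ≃ₐ[k] B} {σ : K ≃ₐ[k] K}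
    (hσK : ∀ b, σ (algebraMap B K b) = algebraMap B K (σB b)) {e : ℕ} (he : 0 < e)
    {T : Finset B} {N : B → Fam k K ℤ} (hN : ∀ f ∈ T, ChartFam K σB e f (N f))
    (hT : Ideal.span (Set.range fun b => σB b - b) ⊔ Ideal.span (T : Set B) = ⊤) :
    (Ideal.span (Set.range fun b => σB b - b)).radical =
      (interFilt fun f hf => (hN f hf).adm hσK).F 1 := by
  apply le_antisymm
  · rintro z ⟨m, hm⟩
    have hle : Ideal.span (Set.range fun b => σB b - b) ≤
        (interFilt fun f hf => (hN f hf).adm hσK).F 1 := by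
      refine Ideal.span_le.2 ?_
      rintro _ ⟨b, rfl⟩ f hf
      have hA := (hN f hf).adm hσK
      have h1 := hA.delta 0 _ (hA.base b)
      rw [hσK, ← map_sub, zero_add] at h1
      exact hA.of_le (by exact_mod_cast he) h1
    intro f hf
    have hA := (hN f hf).adm hσK
    rcases Nat.eq_zero_or_pos m with rfl | hm0
    · rw [pow_zero] at hm
      have h1 := hA.smul z (hle hm f hf)
      rwa [← map_mul, mul_one] at h1
    · refine hA.pow _ m 1 1 hm0 (hA.base z) ?_ (by omega)
      rw [← map_pow]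
      exact_mod_cast hle hm f hf
  · intro b hb
    rw [Ideal.radical_eq_sInf, Submodule.mem_sInf]
    rintro P ⟨hIP, hP⟩
    obtain ⟨f, hf, hfP⟩ : ∃ f ∈ T, f ∉ P := by
      by_contra hcon
      push Not at hcon
      apply hP.ne_top
      rw [eq_top_iff, ← hT]
      exact sup_le hIP (Ideal.span_le.2 hcon)
    obtain ⟨hσf, n, x, w, hx, hF⟩ := ChartFam.aChart hσK he hN hf
    have h1 : algebraMap B (Localization.Away f) b ∈ cIdeal x w := by
      rw [← wIdeal_one, ← hF]
      exact Ideal.mem_map_of_mem _ hb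
    have h2 := hx.mem_radical (J := (Ideal.span (Set.range fun b => σB b - b)).map
      (algebraMap B (Localization.Away f))) (fun y => by
        obtain ⟨⟨c, ⟨_, m, rfl⟩⟩, hc⟩ := IsLocalization.surj (Submonoid.powers f) y
        change y * algebraMap B _ (f ^ m) = algebraMap B _ c at hc
        have hu : IsUnit (algebraMap B (Localization.Away f) (f ^ m)) :=
          IsLocalization.map_units _ (⟨f ^ m, m, rfl⟩ : Submonoid.powers f)
        have h1 : (awayMap σB f hσf y - y) * algebraMap B _ (f ^ m) =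
            algebraMap B (Localization.Away f) (σB c - c) := by
          have h2 : σB (f ^ m) = f ^ m := by rw [map_pow, hσf]
          rw [map_sub, ← hc, sub_mul, ← awayMap_algebraMap σB f hσf c, ← hc, map_mul,
            awayMap_algebraMap, h2]
        have h3 : algebraMap B (Localization.Away f) (σB c - c) ∈
            (Ideal.span (Set.range fun b => σB b - b)).map (algebraMap B (Localization.Away f)) :=
          Ideal.mem_map_of_mem _ (Ideal.subset_span ⟨c, rfl⟩)
        rw [← h1, mul_comm] at h3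
        exact (Ideal.unit_mul_mem_iff_mem _ hu).1 h3) h1
    obtain ⟨m, hm⟩ := h2
    rw [← map_pow, IsLocalization.algebraMap_mem_map_algebraMap_iff (Submonoid.powers f)] at hm
    obtain ⟨_, ⟨r, rfl⟩, h3⟩ := hm
    have h4 : f ^ r * b ^ m ∈ P := hIP h3
    rcases hP.mem_or_mem h4 with h5 | h5
    · exact absurd (hP.mem_of_pow_mem _ h5) hfP
    · exact hP.mem_of_pow_mem _ h5

end

end Pool.Agent.MP_b525bf_ag_h5
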