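import Mathlib
import Pool.Agent.Lib.MP_b525bf_ag_h5.Glue

/-!
The good family of an action with adapted charts at all closed fixed points.
-/

set_option autoImplicit false

namespace Pool.Agent.MP_b525bf_ag_h5

open Pool.Agent.MP_b525bf_ag AddMonoidAlgebra

section

variable {k K : Type} [Field k] [Field K] [Algebra k K] {B : Type} [CommRing B] [IsDomain B]
  [Algebra k B] [Algebra B K] [IsScalarTower k B K] [IsFractionRing B K]

lemma ChartFam.scale {σB : B ≃ₐ[k] B} {e : ℕ} {f : B} {N : Fam k K ℤ}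
    (h : ChartFam K σB e f N) {s : ℕ} (hs : 0 < s) :
    ∃ N' : Fam k K ℤ, ChartFam K σB (s * e) f N' := by
  obtain ⟨hf0, hf, n, x, w, hx, ⟨i, hi⟩, rfl⟩ := h
  exact ⟨_, hf0, hf, n, x, _, hx.scale hs, ⟨i, Nat.mul_pos hs hi⟩, rfl⟩

lemma IsChart.exists_pos {L : Type} [CommRing L] [Algebra k L] {n : ℕ} {x : Fin n → L}
    {w : Fin n → ℕ} {τ : L →+* L} {e : ℕ} (h : IsChart k τ e x w) (he : 0 < e)
    (hne : ∃ b, τ b ≠ b) : ∃ i, 0 < w i := by
  by_contra hcon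
  obtain ⟨b, hb⟩ := hne
  have h1 := h.sub_mem he b
  have h2 : cIdeal x w = ⊥ := by
    rw [cIdeal, Ideal.span_eq_bot]
    rintro _ ⟨i, hi, rfl⟩
    exact absurd ⟨i, hi⟩ hcon
  rw [h2, Ideal.mem_bot, sub_eq_zero] at h1
  exact hb h1

theorem exists_good (p : ℕ) [Fact p.Prime] [CharP k p] [Algebra.Smooth k B]
    (σB : B ≃ₐ[k] B) (σ : K ≃ₐ[k] K)
    (hσK : ∀ b, σ (algebraMap B K b) = algebraMap B K (σB b)) (hσ : σ ^ p = 1)
    (hne : ∃ b, σB b ≠ b)
    (hch : ∀ P : Ideal B, P.IsMaximal → (∀ b, σB b - b ∈ P) →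
      ∃ (f : B) (hf : σB f = f), f ∉ P ∧ ∃ (e n : ℕ) (x : Fin n → Localization.Away f)
        (w : Fin n → ℕ), 0 < e ∧ IsChart k (awayMap σB f hf) e x w) :
    ∃ (N : Fam k K ℤ) (e : ℕ), 0 < e ∧ Adm B σ e N ∧
      (∀ N' : Fam k K ℤ, Adm B σ e N' → ∀ a, N.s a ≤ N'.s a) ∧
      (∀ z, z ∈ N.s 0 ↔ ∃ b, algebraMap B K b = z) ∧ ∃ w, 0 < w ∧ Good (invFam N σ) w := by
  classical
  have hinj : Function.Injective (algebraMap B K) := IsFractionRing.injective B K
  set I : Ideal B := Ideal.span (Set.range fun b => σB b - b) with hI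
  let S : Set B := {f | ∃ (e : ℕ) (N : Fam k K ℤ), 0 < e ∧ ChartFam K σB e f N}
  have hS : I ⊔ Ideal.span S = ⊤ := by
    by_contra hcon
    obtain ⟨P, hP, hle⟩ := Ideal.exists_le_maximal _ hcon
    have hP' := hP.isPrime
    obtain ⟨f, hf, hfP, e, n, x, w, he, hx⟩ := hch P hP fun b =>
      hle (Ideal.mem_sup_left (Ideal.subset_span ⟨b, rfl⟩))
    have hf0 : f ≠ 0 := by
      rintro rfl
      exact hfP P.zero_mem
    have hBL : Function.Injective (algebraMap B (Localization.Away f)) :=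
      IsLocalization.injective _ (powers_le_nonZeroDivisors_of_noZeroDivisors hf0)
    obtain ⟨b, hb⟩ := hne
    have hw := hx.exists_pos he ⟨algebraMap B _ b, fun h => hb (hBL (by
      rw [← h, awayMap_algebraMap]))⟩
    exact hfP (hle (Ideal.mem_sup_right (Ideal.subset_span
      ⟨e, _, he, hf0, hf, n, x, w, hx, hw, rfl⟩)))
  obtain ⟨T, hTS, hT⟩ : ∃ T : Finset B, (T : Set B) ⊆ S ∧ I ⊔ Ideal.span (T : Set B) = ⊤ := by
    have h1 : (1 : B) ∈ I ⊔ Ideal.span S := by rw [hS]; trivial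
    obtain ⟨y, hy, z, hz, hyz⟩ := Submodule.mem_sup.1 h1
    obtain ⟨T, hTS, hzT⟩ := Submodule.mem_span_finite_of_mem_span hz
    refine ⟨T, hTS, ?_⟩
    rw [Ideal.eq_top_iff_one, ← hyz]
    exact Submodule.add_mem_sup hy hzT
  have h2 : ∀ f : B, ∃ e : ℕ, 0 < e ∧ (f ∈ T → ∃ N : Fam k K ℤ, ChartFam K σB e f N) := by
    intro f
    by_cases hf : f ∈ T
    · obtain ⟨e, N, he, hN⟩ := hTS hf
      exact ⟨e, he, fun _ => ⟨N, hN⟩⟩
    · exact ⟨1, one_pos, fun h => absurd h hf⟩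
  choose ef hef hN1 using h2
  set e : ℕ := ∏ f ∈ T, ef f with he
  have he0 : 0 < e := Finset.prod_pos fun f _ => hef f
  have h3 : ∀ f : B, ∃ N : Fam k K ℤ, f ∈ T → ChartFam K σB e f N := by
    intro f
    by_cases hf : f ∈ T
    · obtain ⟨N, hN⟩ := hN1 f hf
      obtain ⟨N', hN'⟩ := hN.scale (s := ∏ h ∈ T.erase f, ef h)
        (Finset.prod_pos fun h _ => hef h)
      rw [Finset.prod_erase_mul _ _ hf] at hN'
      exact ⟨N', fun _ => hN'⟩
    · exact ⟨H53.constFam ⊥, fun h => absurd h hf⟩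
  choose N hN using h3
  have hrad := radical_eq hσK he0 hN hT
  set G : Filt B := interFilt fun f hf => (hN f hf).adm hσK with hG
  have hIG : I ≤ G.F 1 := by
    rw [← hrad]
    exact Ideal.le_radical
  have hG1 : G.F 1 ≠ ⊥ := by
    obtain ⟨b, hb⟩ := hne
    intro h
    have h4 : σB b - b ∈ G.F 1 := hIG (Ideal.subset_span ⟨b, rfl⟩)
    rw [h, Ideal.mem_bot, sub_eq_zero] at h4
    exact hb h4
  obtain ⟨hδ, w, hw, hgood⟩ := good_of_facts p K G σB σ hσK hσ e he0 hrad hG1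
    (fun P hP hle => by
      obtain ⟨f, hf, hfP⟩ : ∃ f ∈ T, f ∉ P := by
        by_contra hcon
        push Not at hcon
        apply hP.ne_top
        rw [eq_top_iff, ← hT]
        exact sup_le (hIG.trans hle) (Ideal.span_le.2 hcon)
      obtain ⟨hσf, hA⟩ := ChartFam.aChart hσK he0 hN hf
      refine ⟨f, hσf, hfP, AChart.facts K G σB σ hσK e hG1 f hσf ?_ hA⟩
      rintro rfl
      exact hfP P.zero_mem)
  refine ⟨idFam k K G, e, he0, adm_idFam hσK _, fun N' hN' a => idFam_le hσK he0 hN hT hN' a, ?_,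
    w, hw, hgood⟩
  intro z
  constructor
  · rintro ⟨b, -, rfl⟩
    exact ⟨b, rfl⟩
  · rintro ⟨b, rfl⟩
    exact map_mem_idFam_nonpos le_rfl b

end

end Pool.Agent.MP_b525bf_ag_h5
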