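import Mathlib
import Pool.Agent.Lib.MP_b525bf_ag_h5.Chart

/-!
From nondegenerate leading forms at a point to an adapted chart, ring-theoretic part.
-/

set_option autoImplicit false

namespace Pool.Agent.MP_b525bf_ag_h5

open MvPolynomial

section ring

variable {L : Type} [CommRing L] {n : ℕ} {x : Fin n → L} {w : Fin n → ℕ} {τ : L →+* L} {e : ℕ}
  {P : Ideal L}

/-- The relations modulo `P` and modulo higher weight. -/
def tIdeal (x : Fin n → L) (w : Fin n → ℕ) (τ : L →+* L) (e : ℕ) (P : Ideal L) (D : ℕ) : Ideal L :=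
  rIdeal x w τ e D ⊔ P * wIdeal x w D ⊔ wIdeal x w (D + 1)

lemma rIdeal_anti {D D' : ℕ} (h : D ≤ D') : rIdeal x w τ e D' ≤ rIdeal x w τ e D := by
  refine Ideal.span_le.2 ?_
  rintro _ ⟨a, b, z, u, hab, hz, hu, rfl⟩
  exact Ideal.subset_span ⟨a, b, z, u, h.trans hab, hz, hu, rfl⟩

lemma mul_mem_rIdeal {a D : ℕ} {u y : L} (hu : u ∈ wIdeal x w a) (hy : y ∈ rIdeal x w τ e D) :
    u * y ∈ rIdeal x w τ e (a + D) := by
  rw [rIdeal] at hy
  refine Submodule.span_induction (p := fun y _ => u * y ∈ rIdeal x w τ e (a + D)) ?_ ?_ ?_ ?_ hy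
  · rintro _ ⟨a', b, z, v, hab, hz, hv, rfl⟩
    refine Ideal.subset_span ⟨a', a + b, z, u * v, by omega, hz, wIdeal_mul hu hv, by ring⟩
  · rw [mul_zero]; exact Ideal.zero_mem _
  · intro y z _ _ hy hz
    rw [mul_add]; exact Ideal.add_mem _ hy hz
  · intro c y _ hy
    rw [smul_eq_mul, mul_left_comm]; exact Ideal.mul_mem_left _ _ hy

lemma mul_mem_tIdeal {a D : ℕ} {u y : L} (hu : u ∈ wIdeal x w a) (hy : y ∈ tIdeal x w τ e P D) :
    u * y ∈ tIdeal x w τ e P (a + D) := by
  rw [tIdeal] at hy ⊢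
  obtain ⟨y', hy', c, hc, rfl⟩ := Submodule.mem_sup.1 hy
  obtain ⟨s, hs, b, hb, rfl⟩ := Submodule.mem_sup.1 hy'
  rw [mul_add, mul_add]
  refine Submodule.add_mem_sup (Submodule.add_mem_sup (mul_mem_rIdeal hu hs) ?_) ?_
  · refine Submodule.mul_induction_on hb ?_ ?_
    · intro q hq v hv
      rw [mul_left_comm]
      exact Ideal.mul_mem_mul hq (wIdeal_mul hu hv)
    · intro y z hy hz
      rw [mul_add]; exact Ideal.add_mem _ hy hz
  · have := wIdeal_mul hu hc
    rwa [← add_assoc] at this

lemma whc_mul_X (F : MvPolynomial (Fin n) L) (i : Fin n) (D : ℕ) :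
    weightedHomogeneousComponent w D (F * X i) =
      if w i ≤ D then weightedHomogeneousComponent w (D - w i) F * X i else 0 := by
  classical
  have hwt : ∀ d : Fin n →₀ ℕ, i ∈ d.support →
      Finsupp.weight w d = Finsupp.weight w (d - Finsupp.single i 1) + w i := by
    intro d hd
    have h1 : d = (d - Finsupp.single i 1) + Finsupp.single i 1 := by
      rw [tsub_add_cancel_of_le]
      rw [Finsupp.single_le_iff]
      exact Nat.one_le_iff_ne_zero.2 (Finsupp.mem_support_iff.1 hd)
    conv_lhs => rw [h1]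
    rw [map_add, Finsupp.weight_single, one_smul]
  ext d
  rw [coeff_weightedHomogeneousComponent, coeff_mul_X']
  by_cases hd : i ∈ d.support
  · have h1 := hwt d hd
    rw [if_pos hd]
    by_cases hD : w i ≤ D
    · rw [if_pos hD, coeff_mul_X', if_pos hd, coeff_weightedHomogeneousComponent]
      by_cases h2 : Finsupp.weight w d = D
      · rw [if_pos h2, if_pos (by omega)]
      · rw [if_neg h2, if_neg (by omega)]
    · rw [if_neg hD, if_neg (by omega), coeff_zero]
  · rw [if_neg hd]
    by_cases hD : w i ≤ D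
    · rw [if_pos hD, coeff_mul_X', if_neg hd]
      simp
    · rw [if_neg hD, coeff_zero]
      simp

lemma eval_whc_mem {g : Fin n → MvPolynomial (Fin n) L}
    (hg : ∀ i, (g i).IsWeightedHomogeneous w (w i + e))
    (hlead : ∀ i, τ (x i) - x i - eval x (g i) ∈ wIdeal x w (w i + e + 1))
    {F : MvPolynomial (Fin n) L} (hF : F ∈ Ideal.span (Set.range g) ⊔ P.map C) (D : ℕ) :
    eval x (weightedHomogeneousComponent w D F) ∈ tIdeal x w τ e P D := by
  classical
  have hF' : F ∈ Ideal.span (Set.range g ∪ C '' (P : Set L)) := by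
    rw [Ideal.span_union]; exact hF
  revert D
  refine Submodule.span_induction (p := fun F _ => ∀ D,
    eval x (weightedHomogeneousComponent w D F) ∈ tIdeal x w τ e P D) ?_ ?_ ?_ ?_ hF'
  · rintro _ (⟨i, rfl⟩ | ⟨b, hb, rfl⟩) D
    · rw [weightedHomogeneousComponent_of_mem (n := w i + e) (hg i)]
      split_ifs with h
      · subst h
        have h1 : eval x (g i) = 1 * (τ (x i) - x i) - (τ (x i) - x i - eval x (g i)) := by ring
        rw [h1, sub_eq_add_neg]
        refine Submodule.add_mem_sup (Ideal.mem_sup_left ?_) (Ideal.neg_mem_iff _ |>.2 (hlead i))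
        exact Ideal.subset_span ⟨w i, 0, x i, 1, by omega, x_mem i,
          by rw [wIdeal_zero]; trivial, rfl⟩
      · rw [map_zero]; exact Ideal.zero_mem _
    · rw [weightedHomogeneousComponent_of_mem (n := 0) (isWeightedHomogeneous_C w b)]
      split_ifs with h
      · subst h
        rw [eval_C]
        refine Ideal.mem_sup_left (Ideal.mem_sup_right ?_)
        rw [wIdeal_zero, Ideal.mul_top]
        exact hb
      · rw [map_zero]; exact Ideal.zero_mem _
  · intro D
    rw [map_zero, map_zero]; exact Ideal.zero_mem _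
  · intro F G _ _ hF hG D
    rw [map_add, map_add]
    exact Ideal.add_mem _ (hF D) (hG D)
  · intro a F _ hF
    rw [smul_eq_mul]
    refine MvPolynomial.induction_on (motive := fun a => ∀ D,
      eval x (weightedHomogeneousComponent w D (a * F)) ∈ tIdeal x w τ e P D) a ?_ ?_ ?_
    · intro c D
      rw [weightedHomogeneousComponent_C_mul, map_mul]
      exact Ideal.mul_mem_left _ _ (hF D)
    · intro a b ha hb D
      rw [add_mul, map_add, map_add]
      exact Ideal.add_mem _ (ha D) (hb D)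
    · intro a i ha D
      have h1 : a * X i * F = a * F * X i := by ring
      rw [h1, whc_mul_X]
      split_ifs with h
      · rw [map_mul, eval_X, mul_comm]
        have h2 := mul_mem_tIdeal (P := P) (x_mem (x := x) i) (ha (D - w i))
        rwa [Nat.add_sub_cancel' h] at h2
      · rw [map_zero]; exact Ideal.zero_mem _

/-- Monomials of large weight are divisible by large powers of coordinates. -/
lemma wIdeal_le_of_pow {T : ℕ → Ideal L} (hT : ∀ a D u y, u ∈ wIdeal x w a → y ∈ T D →
      u * y ∈ T (a + D)) (hanti : ∀ D D', D ≤ D' → T D' ≤ T D)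
    (M : Fin n → ℕ) (hM : ∀ i, 0 < w i → x i ^ M i ∈ T (M i * w i)) {D : ℕ}
    (hD : ∑ i, M i * w i < D) : wIdeal x w D ≤ T D := by
  classical
  refine Ideal.span_le.2 ?_
  rintro _ ⟨α, hα, rfl⟩
  obtain ⟨i, hi⟩ : ∃ i, M i * w i < α i * w i := by
    by_contra hcon
    push Not at hcon
    have := Finset.sum_le_sum fun i (_ : i ∈ Finset.univ) => hcon i
    omega
  have hw : 0 < w i := by
    rcases Nat.eq_zero_or_pos (w i) with h | h
    · rw [h] at hi; simp at hi
    · exact h
  have hMα : M i ≤ α i := (Nat.lt_of_mul_lt_mul_right hi).le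
  let β : Fin n → ℕ := Function.update α i (α i - M i)
  have hβi : β i = α i - M i := Function.update_self i _ α
  have hβj : ∀ j ∈ Finset.univ.erase i, β j = α j := fun j hj =>
    Function.update_of_ne (Finset.ne_of_mem_erase hj) _ _
  have e1 : ∏ j, x j ^ α j = (∏ j, x j ^ β j) * x i ^ M i := by
    rw [← Finset.mul_prod_erase _ (fun j => x j ^ α j) (Finset.mem_univ i),
      ← Finset.mul_prod_erase _ (fun j => x j ^ β j) (Finset.mem_univ i), hβi,
      Finset.prod_congr rfl fun j hj => by rw [← hβj j hj]]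
    obtain ⟨m, hm⟩ := Nat.exists_eq_add_of_le' hMα
    rw [hm, Nat.add_sub_cancel, pow_add]
    ring
  have e2 : ∑ j, α j * w j = (∑ j, β j * w j) + M i * w i := by
    rw [← Finset.add_sum_erase _ (fun j => α j * w j) (Finset.mem_univ i),
      ← Finset.add_sum_erase _ (fun j => β j * w j) (Finset.mem_univ i), hβi,
      Finset.sum_congr rfl fun j hj => by rw [← hβj j hj]]
    obtain ⟨m, hm⟩ := Nat.exists_eq_add_of_le' hMα
    rw [hm, Nat.add_sub_cancel]
    ring
  have h1 := hT _ _ _ _ (monom_mem (x := x) (w := w) (α := β) le_rfl) (hM i hw)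
  rw [e1]
  exact hanti _ _ (by omega) h1

lemma tIdeal_anti {D D' : ℕ} (h : D ≤ D') : tIdeal x w τ e P D' ≤ tIdeal x w τ e P D :=
  sup_le_sup (sup_le_sup (rIdeal_anti h) (Ideal.mul_mono_right (wIdeal_anti h)))
    (wIdeal_anti (by omega))

lemma wIdeal_le_P_mul (hP : ∀ i, 0 < w i → x i ∈ P) (D : ℕ) :
    wIdeal x w (D + ∑ i, w i + 1) ≤ P * wIdeal x w D := by
  intro b hb
  refine wIdeal_induction (p := fun b => b ∈ P * wIdeal x w D) (Nat.succ_pos _)
    (Ideal.zero_mem _) (fun y _ z _ hy hz => Ideal.add_mem _ hy hz) ?_ hb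
  intro i hi y hy
  refine Ideal.mul_mem_mul (hP i hi) (wIdeal_anti ?_ hy)
  have : w i ≤ ∑ i, w i := Finset.single_le_sum (f := w) (fun _ _ => Nat.zero_le _)
    (Finset.mem_univ i)
  omega

/-- Nakayama's lemma for the relations. -/
theorem exists_rel [IsNoetherianRing L] (hP : ∀ i, 0 < w i → x i ∈ P) {D0 : ℕ}
    (hT : ∀ D, D0 ≤ D → wIdeal x w D ≤ tIdeal x w τ e P D) {D : ℕ} (hD : D0 ≤ D) :
    ∃ r : L, r - 1 ∈ P ∧ ∀ y ∈ wIdeal x w D, r * y ∈ rIdeal x w τ e D := by
  have h1 : ∀ j, wIdeal x w D ≤ rIdeal x w τ e D ⊔ P * wIdeal x w D ⊔ wIdeal x w (D + j) := by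
    intro j
    induction j with
    | zero => exact le_sup_right
    | succ j ih =>
      refine ih.trans (sup_le le_sup_left ?_)
      refine (hT (D + j) (by omega)).trans (sup_le (sup_le ?_ ?_) ?_)
      · exact (rIdeal_anti (by omega)).trans (le_sup_left.trans le_sup_left)
      · exact (Ideal.mul_mono_right (wIdeal_anti (by omega))).trans
          (le_sup_right.trans le_sup_left)
      · exact le_sup_right
  have h2 : wIdeal x w D ≤ rIdeal x w τ e D ⊔ P • wIdeal x w D := by
    refine (h1 (∑ i, w i + 1)).trans (sup_le le_rfl ?_)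
    refine le_trans ?_ le_sup_right
    have := wIdeal_le_P_mul (x := x) hP D
    rwa [add_assoc] at this
  obtain ⟨r, hr, hr'⟩ := Submodule.exists_sub_one_mem_and_smul_le_of_fg_of_le_sup
    (IsNoetherian.noetherian (wIdeal x w D)) le_rfl h2
  refine ⟨r, hr, fun y hy => hr' ?_⟩
  rw [← smul_eq_mul]
  exact Submodule.smul_mem_pointwise_smul y r _ hy

end ring

end Pool.Agent.MP_b525bf_ag_h5
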