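import Mathlib
import Pool.Agent.Lib.MP_b525bf_ag_h5.Point
import Pool.Agent.Lib.MP_b525bf_ag_h5.Main

/-!
From nondegenerate leading forms at a point to an adapted chart.
-/

set_option autoImplicit false

namespace Pool.Agent.MP_b525bf_ag_h5

open Pool.Agent.MP_b525bf_ag MvPolynomial

section ring

variable {k L : Type} [Field k] [CommRing L] [Algebra k L] {n : ℕ} {x : Fin n → L} {w : Fin n → ℕ}
  {g : Fin n → MvPolynomial (Fin n) L} {e : ℕ} {P : Ideal L}

lemma LeadingAt.sub_mem {τ : L →+* L} (h : LeadingAt k τ P e x w g) (i : Fin n) :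
    τ (x i) - x i ∈ wIdeal x w (w i + e) := by
  have h1 := Ideal.add_mem _ (wIdeal_anti (Nat.le_succ _) (h.lead i))
    (eval_mem_wIdeal x (h.homog i))
  rwa [sub_add_cancel] at h1

theorem LeadingAt.exists_local [IsNoetherianRing L] [P.IsPrime] {τ : L →ₐ[k] L}
    (h : LeadingAt k (τ : L →+* L) P e x w g) (he : 0 < e) (hP : ∀ b, τ b - b ∈ P) :
    ∃ r : L, r ∉ P ∧ (∀ b, r * (τ b - b) ∈ wIdeal x w e) ∧
      ∀ i, 0 < w i → ∃ M, 0 < M ∧ r * x i ^ M ∈ rIdeal x w (τ : L →+* L) e (M * w i) := by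
  classical
  have hc : wIdeal x w e ≤ P := by
    refine (wIdeal_anti (show 1 ≤ e from he)).trans ?_
    rw [wIdeal_one]
    refine Ideal.span_le.2 ?_
    rintro _ ⟨i, hi, rfl⟩
    exact h.center i hi
  -- the degree of `τ - 1`
  obtain ⟨r0, hr0, hr0'⟩ : ∃ r : L, r ∉ P ∧ ∀ b, r * (τ b - b) ∈ wIdeal x w e := by
    set J : Ideal L := wIdeal x w e ⊔ Ideal.span (Set.range fun b => τ b - b) with hJ
    have hJP : J ≤ P := by
      refine sup_le hc (Ideal.span_le.2 ?_)
      rintro _ ⟨b, rfl⟩
      exact hP b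
    have hδJ : ∀ b, τ b - b ∈ J := fun b => Ideal.mem_sup_right (Ideal.subset_span ⟨b, rfl⟩)
    have h1 : ∀ b, τ b - b ∈ wIdeal x w e ⊔ J * J := by
      refine fun b => sub_mem_of_coord x h.etale τ _ J (m := 2) ?_ ?_ hδJ b
      · rw [pow_two]; exact le_sup_right
      · intro i
        exact Ideal.mem_sup_left (wIdeal_anti (Nat.le_add_left _ _) (h.sub_mem i))
    have h2 : J ≤ wIdeal x w e ⊔ J • J := by
      refine sup_le le_sup_left (Ideal.span_le.2 ?_)
      rintro _ ⟨b, rfl⟩
      exact h1 b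
    obtain ⟨r, hr, hr'⟩ := Submodule.exists_sub_one_mem_and_smul_le_of_fg_of_le_sup
      (IsNoetherian.noetherian J) le_rfl h2
    refine ⟨r, fun hrP => ?_, fun b => hr' ?_⟩
    · apply ‹P.IsPrime›.ne_top
      rw [Ideal.eq_top_iff_one]
      have := Ideal.sub_mem _ hrP (hJP hr)
      rwa [sub_sub_cancel] at this
    · rw [← smul_eq_mul]
      exact Submodule.smul_mem_pointwise_smul _ r _ (hδJ b)
  -- the relations
  have hM : ∀ i, ∃ M : ℕ, 0 < w i → x i ^ M ∈ tIdeal x w (τ : L →+* L) e P (M * w i) := by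
    intro i
    by_cases hi : 0 < w i
    · obtain ⟨M, hM⟩ := h.nondeg i hi
      refine ⟨M, fun _ => ?_⟩
      have h1 := eval_whc_mem (P := P) h.homog h.lead hM (M * w i)
      have h2 : ((X i : MvPolynomial (Fin n) L) ^ M).IsWeightedHomogeneous w (M * w i) := by
        have := (isWeightedHomogeneous_X L w i).pow M
        rwa [smul_eq_mul] at this
      rw [weightedHomogeneousComponent_eq_self h2, map_pow, eval_X] at h1
      exact h1
    · exact ⟨0, fun h => absurd h hi⟩
  choose M hM using hM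
  have hT : ∀ D, ∑ i, M i * w i + 1 ≤ D → wIdeal x w D ≤ tIdeal x w (τ : L →+* L) e P D :=
    fun D hD => wIdeal_le_of_pow (T := tIdeal x w (τ : L →+* L) e P)
      (fun _ _ _ _ hu hy => mul_mem_tIdeal hu hy) (fun _ _ h => tIdeal_anti h) M hM hD
  have hri : ∀ i, ∃ r : L, r ∉ P ∧ (0 < w i →
      ∃ M, 0 < M ∧ r * x i ^ M ∈ rIdeal x w (τ : L →+* L) e (M * w i)) := by
    intro i
    by_cases hi : 0 < w i
    · set D0 := ∑ i, M i * w i + 1 with hD0
      obtain ⟨r, hr, hr'⟩ := exists_rel (τ := (τ : L →+* L)) (e := e) h.center hT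
        (D := D0 * w i) (Nat.le_mul_of_pos_right _ hi)
      refine ⟨r, fun hrP => ?_, fun _ => ⟨D0, Nat.succ_pos _, hr' _ (wIdeal_pow (x_mem i) _)⟩⟩
      apply ‹P.IsPrime›.ne_top
      rw [Ideal.eq_top_iff_one]
      have := Ideal.sub_mem _ hrP hr
      rwa [sub_sub_cancel] at this
    · exact ⟨1, fun h1 => ‹P.IsPrime›.ne_top ((Ideal.eq_top_iff_one _).2 h1),
        fun h => absurd h hi⟩
  choose r hr hr' using hri
  refine ⟨r0 * ∏ i, r i, ?_, ?_, ?_⟩
  · intro h1
    rcases ‹P.IsPrime›.mem_or_mem h1 with h2 | h2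
    · exact hr0 h2
    · obtain ⟨i, -, hi⟩ := (‹P.IsPrime›.prod_mem_iff).1 h2
      exact hr i hi
  · intro b
    rw [mul_comm r0, mul_assoc]
    exact Ideal.mul_mem_left _ _ (hr0' b)
  · intro i hi
    obtain ⟨M, hM, h1⟩ := hr' i hi
    refine ⟨M, hM, ?_⟩
    rw [← Finset.mul_prod_erase _ _ (Finset.mem_univ i)]
    have h2 : r0 * (r i * ∏ j ∈ Finset.univ.erase i, r j) * x i ^ M =
        (r0 * ∏ j ∈ Finset.univ.erase i, r j) * (r i * x i ^ M) := by ring
    rw [h2]
    exact Ideal.mul_mem_left _ _ h1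

lemma map_mem_wIdeal {L' : Type} [CommRing L'] (ψ : L →+* L') {a : ℕ} {y : L}
    (hy : y ∈ wIdeal x w a) : ψ y ∈ wIdeal (fun i => ψ (x i)) w a := by
  refine (show wIdeal x w a ≤ (wIdeal (fun i => ψ (x i)) w a).comap ψ from Ideal.span_le.2 ?_) hy
  rintro _ ⟨α, hα, rfl⟩
  rw [SetLike.mem_coe, Ideal.mem_comap, map_prod]
  simp only [map_pow]
  exact monom_mem hα

lemma map_mem_rIdeal {L' : Type} [CommRing L'] (ψ : L →+* L') {τ : L →+* L} {τ' : L' →+* L'}
    (hψ : ∀ y, ψ (τ y) = τ' (ψ y)) {D : ℕ} {y : L}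
    (hy : y ∈ rIdeal x w τ e D) : ψ y ∈ rIdeal (fun i => ψ (x i)) w τ' e D := by
  refine (show rIdeal x w τ e D ≤ (rIdeal (fun i => ψ (x i)) w τ' e D).comap ψ from
    Ideal.span_le.2 ?_) hy
  rintro _ ⟨a, b, z, u, hab, hz, hu, rfl⟩
  rw [SetLike.mem_coe, Ideal.mem_comap]
  refine Ideal.subset_span ⟨a, b, ψ z, ψ u, hab, map_mem_wIdeal ψ hz, map_mem_wIdeal ψ hu, ?_⟩
  rw [map_mul, map_sub, hψ]

end ring

section shrink

variable {k : Type} [Field k] {B : Type} [CommRing B] [IsDomain B] [Algebra k B]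

omit [IsDomain B] in
lemma iter_notMem {σ : B ≃ₐ[k] B} {P : Ideal B} (hP : ∀ b, σ b - b ∈ P) {b : B} (hb : b ∉ P)
    (j : ℕ) : (σ ^ j) b ∉ P := by
  induction j with
  | zero => exact hb
  | succ j ih =>
    intro h
    apply ih
    have h1 := Ideal.sub_mem _ h (hP ((σ ^ j) b))
    rw [pow_succ', AlgEquiv.mul_apply, sub_sub_cancel] at h1
    exact h1

/-- Nondegenerate leading forms at a fixed point give an adapted chart. -/
theorem exists_isChart (p : ℕ) [Fact p.Prime] [Algebra.FiniteType k B] (σ : B ≃ₐ[k] B)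
    (hσ : σ ^ p = 1) (P : Ideal B) [hPp : P.IsPrime] (hP : ∀ b, σ b - b ∈ P) (f : B)
    (hf : σ f = f) (hfP : f ∉ P) {n e : ℕ} (he : 0 < e) (x : Fin n → Localization.Away f)
    (w : Fin n → ℕ) (g : Fin n → MvPolynomial (Fin n) (Localization.Away f))
    (h : LeadingAt k (awayMap σ f hf) (P.map (algebraMap B (Localization.Away f))) e x w g) :
    ∃ (f' : B) (hf' : σ f' = f'), f' ∉ P ∧ ∃ (x' : Fin n → Localization.Away f'),
      IsChart k (awayMap σ f' hf') e x' w := by
  classical
  have hprime : (P.map (algebraMap B (Localization.Away f))).IsPrime := by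
    refine IsLocalization.isPrime_of_isPrime_disjoint (Submonoid.powers f) _ P hPp ?_
    rw [Set.disjoint_left]
    rintro _ ⟨m, rfl⟩ h
    exact hfP (hPp.mem_of_pow_mem m h)
  have hft : Algebra.FiniteType k (Localization.Away f) :=
    Algebra.FiniteType.trans (S := B) inferInstance
      (IsLocalization.finiteType_of_monoid_fg (Submonoid.powers f) _)
  have hnoeth : IsNoetherianRing (Localization.Away f) :=
    Algebra.FiniteType.isNoetherianRing k _
  have hunit : ∀ m : ℕ, IsUnit (algebraMap B (Localization.Away f) (f ^ m)) := fun m =>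
    IsLocalization.map_units _ (⟨f ^ m, m, rfl⟩ : Submonoid.powers f)
  have hδP : ∀ b : Localization.Away f, awayHom σ f hf b - b ∈
      P.map (algebraMap B (Localization.Away f)) := by
    intro y
    obtain ⟨⟨c, ⟨_, m, rfl⟩⟩, hc⟩ := IsLocalization.surj (Submonoid.powers f) y
    change y * algebraMap B _ (f ^ m) = algebraMap B _ c at hc
    have h1 : (awayHom σ f hf y - y) * algebraMap B _ (f ^ m) =
        algebraMap B (Localization.Away f) (σ c - c) := by
      have h2 : σ (f ^ m) = f ^ m := by rw [map_pow, hf]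
      rw [map_sub, ← hc, sub_mul, ← awayHom_algebraMap σ f hf c, ← hc, map_mul,
        awayHom_algebraMap, h2]
    have h3 : algebraMap B (Localization.Away f) (σ c - c) ∈
        P.map (algebraMap B (Localization.Away f)) := Ideal.mem_map_of_mem _ (hP c)
    rw [← h1, mul_comm] at h3
    exact (Ideal.unit_mul_mem_iff_mem _ (hunit m)).1 h3
  have h' : LeadingAt k (awayHom σ f hf : Localization.Away f →+* Localization.Away f)
    (P.map (algebraMap B (Localization.Away f))) e x w g := h
  obtain ⟨r, hrP, hr1, hr2⟩ := h'.exists_local he hδP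
  -- an invariant multiple
  obtain ⟨⟨b, ⟨_, m, rfl⟩⟩, hb⟩ := IsLocalization.surj (Submonoid.powers f) r
  change r * algebraMap B _ (f ^ m) = algebraMap B _ b at hb
  have hbP : b ∉ P := by
    intro h1
    apply hrP
    have h2 : algebraMap B (Localization.Away f) b ∈ P.map (algebraMap B (Localization.Away f)) :=
      Ideal.mem_map_of_mem _ h1
    rw [← hb, mul_comm] at h2
    exact (Ideal.unit_mul_mem_iff_mem _ (hunit m)).1 h2
  set h : B := ∏ j ∈ Finset.range p, (σ ^ j) b with hh
  have hσh : σ h = h := by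
    rw [hh, map_prod]
    have h1 : ∏ j ∈ Finset.range p, σ ((σ ^ j) b) = ∏ j ∈ Finset.range p, (σ ^ (j + 1)) b :=
      Finset.prod_congr rfl fun j _ => by rw [pow_succ', AlgEquiv.mul_apply]
    obtain ⟨p', hp'⟩ : ∃ p', p = p' + 1 := ⟨p - 1, by have := (Fact.out : p.Prime).pos; omega⟩
    rw [h1]
    subst hp'
    rw [Finset.prod_range_succ, Finset.prod_range_succ' _ p', hσ]
    rfl
  have hhP : h ∉ P := by
    intro h1
    rw [hh, hPp.prod_mem_iff] at h1
    obtain ⟨j, -, hj⟩ := h1
    exact iter_notMem hP hbP j hj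
  have hbh : b ∣ h := by
    have h1 : (σ ^ 0) b ∣ h := Finset.dvd_prod_of_mem _
      (Finset.mem_range.2 (Fact.out : p.Prime).pos)
    exact h1
  have hf' : σ (f * h) = f * h := by rw [map_mul, hf, hσh]
  -- the smaller open subset
  have hu' : ∀ m : ℕ, IsUnit (algebraMap B (Localization.Away (f * h)) ((f * h) ^ m)) := fun m =>
    IsLocalization.map_units _ (⟨(f * h) ^ m, m, rfl⟩ : Submonoid.powers (f * h))
  have hufh : IsUnit (algebraMap B (Localization.Away (f * h)) (f * h)) := by
    have := hu' 1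
    rwa [pow_one] at this
  have huf : IsUnit (algebraMap B (Localization.Away (f * h)) f) :=
    isUnit_of_dvd_unit (map_dvd _ (dvd_mul_right f h)) hufh
  have hub : IsUnit (algebraMap B (Localization.Away (f * h)) b) :=
    isUnit_of_dvd_unit (map_dvd _ (hbh.trans (dvd_mul_left h f))) hufh
  let ψ : Localization.Away f →+* Localization.Away (f * h) := IsLocalization.Away.lift f huf
  have hψ : ∀ c, ψ (algebraMap B _ c) = algebraMap B _ c := fun c =>
    IsLocalization.Away.lift_eq f huf c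
  let i1 : Algebra (Localization.Away f) (Localization.Away (f * h)) := ψ.toAlgebra
  have i2 : IsScalarTower B (Localization.Away f) (Localization.Away (f * h)) :=
    IsScalarTower.of_algebraMap_eq fun c => (hψ c).symm
  have i3 : Algebra.Etale B (Localization.Away f) := Algebra.Etale.of_isLocalizationAway f
  have i4 : Algebra.Etale B (Localization.Away (f * h)) :=
    Algebra.Etale.of_isLocalizationAway (f * h)
  have i5 : Algebra.Etale (Localization.Away f) (Localization.Away (f * h)) :=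
    Algebra.Etale.of_restrictScalars B _ _
  have hψr : IsUnit (ψ r) := by
    have h1 := congrArg ψ hb
    rw [map_mul, hψ, hψ] at h1
    rw [← h1] at hub
    exact isUnit_of_mul_isUnit_left hub
  have hψτ : ∀ y, ψ (awayMap σ f hf y) = awayMap σ (f * h) hf' (ψ y) := by
    have h1 : ψ.comp (awayMap σ f hf) = (awayMap σ (f * h) hf').comp ψ := by
      refine IsLocalization.ringHom_ext (Submonoid.powers f) ?_
      refine RingHom.ext fun c => ?_
      change ψ (awayMap σ f hf (algebraMap B _ c)) = awayMap σ (f * h) hf' (ψ (algebraMap B _ c))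
      rw [awayMap_algebraMap, hψ, hψ, awayMap_algebraMap]
    exact fun y => DFunLike.congr_fun h1 y
  have hx'e : (aeval (fun i => ψ (x i)) : MvPolynomial (Fin n) k →ₐ[k]
      Localization.Away (f * h)).toRingHom.Etale := by
    have h1 : (aeval (fun i => ψ (x i)) : MvPolynomial (Fin n) k →ₐ[k]
        Localization.Away (f * h)).toRingHom =
        ψ.comp (aeval x : MvPolynomial (Fin n) k →ₐ[k] Localization.Away f).toRingHom := by
      refine MvPolynomial.ringHom_ext (fun c => ?_) fun i => ?_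
      · change aeval _ (C c) = ψ (aeval x (C c))
        rw [aeval_C, aeval_C, IsScalarTower.algebraMap_apply k B (Localization.Away f), hψ,
          ← IsScalarTower.algebraMap_apply]
      · change aeval _ (X i) = ψ (aeval x (X i))
        rw [aeval_X, aeval_X]
    rw [h1]
    exact RingHom.Etale.stableUnderComposition _ _ h'.etale i5
  refine ⟨f * h, hf', fun h1 => ?_, fun i => ψ (x i), hx'e, ?_, ?_⟩
  · rcases hPp.mem_or_mem h1 with h2 | h2
    · exact hfP h2
    · exact hhP h2
  · intro a y hy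
    refine sub_mem_wIdeal (fun i => ψ (x i)) w (awayHom σ (f * h) hf') e ?_ ?_ hy
    · intro i
      have h1 := map_mem_wIdeal ψ (h'.sub_mem i)
      rw [map_sub] at h1
      change ψ (awayMap σ f hf (x i)) - ψ (x i) ∈ _ at h1
      rw [hψτ] at h1
      exact h1
    · intro y
      obtain ⟨⟨c, ⟨_, m', rfl⟩⟩, hc⟩ := IsLocalization.surj (Submonoid.powers (f * h)) y
      change y * algebraMap B _ ((f * h) ^ m') = algebraMap B _ c at hc
      have h1 : (awayHom σ (f * h) hf' y - y) * algebraMap B _ ((f * h) ^ m') =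
          ψ (awayMap σ f hf (algebraMap B _ c) - algebraMap B _ c) := by
        have h2 : σ ((f * h) ^ m') = (f * h) ^ m' := by rw [map_pow, hf']
        rw [map_sub, awayMap_algebraMap, hψ, hψ, sub_mul, ← hc,
          ← awayHom_algebraMap σ (f * h) hf' c, ← hc, map_mul, awayHom_algebraMap, h2]
      have h3 := map_mem_wIdeal ψ (hr1 (algebraMap B _ c))
      rw [map_mul] at h3
      have h4 := (Ideal.unit_mul_mem_iff_mem _ hψr).1 h3
      change ψ (awayMap σ f hf (algebraMap B _ c) - algebraMap B _ c) ∈ _ at h4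
      rw [← h1, mul_comm (awayHom σ (f * h) hf' y - y)] at h4
      exact (Ideal.unit_mul_mem_iff_mem _ (hu' m')).1 h4
  · intro i hi
    obtain ⟨M, hM, h1⟩ := hr2 i hi
    refine ⟨M, hM, ?_⟩
    have h2 := map_mem_rIdeal ψ (τ' := awayMap σ (f * h) hf') hψτ h1
    rw [map_mul, map_pow] at h2
    exact (Ideal.unit_mul_mem_iff_mem _ hψr).1 h2

end shrink

end Pool.Agent.MP_b525bf_ag_h5
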