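import Mathlib
import Pool.Agent.Lib.MP_b525bf_ag_h5.Shrink
import Pool.Agent.Lib.MP_b525bf_ag.GroupFinal

/-!
Resolution of quotients by finite groups with a normal subgroup of order `p` acting with
nondegenerate weighted homogeneous leading forms.
-/

set_option autoImplicit false

namespace Pool.Agent.MP_b525bf_ag_h5

open Pool.Agent.MP_b525bf_ag MvPolynomial

section

variable {k K : Type} [Field k] [Field K] [Algebra k K] {B : Type} [CommRing B]
  [Algebra B K]

lemma Adm.pow_sub {σ : K ≃ₐ[k] K} {e : ℕ} {N : Fam k K ℤ} (h : Adm B σ e N) (r : ℕ) {a : ℤ}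
    {z : K} (hz : z ∈ N.s a) : (σ ^ r) z ∈ N.s a ∧ (σ ^ r) z - z ∈ N.s (a + e) := by
  induction r with
  | zero =>
    refine ⟨hz, ?_⟩
    rw [pow_zero, AlgEquiv.one_apply, sub_self]
    exact Submodule.zero_mem _
  | succ r ih =>
    have h1 := h.delta _ _ ih.1
    have h2 : (σ ^ (r + 1)) z - z = (σ ((σ ^ r) z) - (σ ^ r) z) + ((σ ^ r) z - z) := by
      rw [pow_succ', AlgEquiv.mul_apply]; ring
    have h3 := Submodule.add_mem _ h1 ih.2
    rw [← h2] at h3
    refine ⟨?_, h3⟩
    have h4 := Submodule.add_mem _ (h.of_le (by omega) h3) hz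
    rwa [sub_add_cancel] at h4

lemma Adm.pull {σ h : K ≃ₐ[k] K} {e : ℕ} {N : Fam k K ℤ} (hN : Adm B σ e N)
    (hB : ∀ b : B, ∃ b' : B, h (algebraMap B K b) = algebraMap B K b')
    (hconj : ∃ r : ℕ, h * σ = σ ^ r * h) : Adm B σ e (N.pull h) := by
  refine ⟨?_, ?_, ?_, ?_⟩
  · change h 1 ∈ N.s (-1)
    rw [map_one]
    exact hN.one
  · intro b
    change h (algebraMap B K b) ∈ N.s 0
    obtain ⟨b', hb'⟩ := hB b
    rw [hb']
    exact hN.base b'
  · intro a z hz
    obtain ⟨r, hr⟩ := hconj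
    change h (σ z - z) ∈ N.s (a + e)
    have h1 : h (σ z - z) = (σ ^ r) (h z) - h z := by
      rw [map_sub, ← AlgEquiv.mul_apply, hr, AlgEquiv.mul_apply]
    rw [h1]
    exact (hN.pow_sub r hz).2
  · intro z m c v hm hz hc hv
    change h z ∈ N.s v
    change h (z ^ m) ∈ N.s c at hc
    rw [map_pow] at hc
    exact hN.pow _ m c v hm hz hc hv

end

section

variable {k : Type} [Field k] {B : Type} [CommRing B] [IsDomain B] [Algebra k B]

theorem hasResolution_group_weighted (p : ℕ) [Fact p.Prime] (k : Type) [Field k] [CharP k p]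
    (B : Type) [CommRing B] [IsDomain B] [Algebra k B] [Algebra.Smooth k B]
    (G : Subgroup (B ≃ₐ[k] B)) [Finite G] (σ : B ≃ₐ[k] B) (hσG : σ ∈ G) (hσ : σ ^ p = 1)
    (hnd : ∀ P : Ideal B, P.IsMaximal → (∀ b, σ b - b ∈ P) → Nondegenerate σ P)
    (hcomm : ⁅G, G⁆ ≤ Subgroup.zpowers σ)
    (hindex : ¬ p ∣ (Subgroup.zpowers σ).relIndex G)
    (hk : IsSepClosed k ∨ G = Subgroup.zpowers σ) :
    HasResolution k (FixedPoints.subalgebra k B G) := by
  have hE : ∀ (K : Type) [Field K] [Algebra k K] (M : Fam k K ℤ) (w : ℕ), 0 < w → M.alg.FG →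
      Algebra.FormallySmooth k M.alg → Algebra.FormallySmooth k (M.wrees w).alg :=
    fun K _ _ M w hw h1 h2 => Fam.formallySmooth_wrees M w hw h1 h2
  by_cases hne : ∃ b, σ b ≠ b
  · have hft : Algebra.FiniteType k B := inferInstance
    obtain ⟨N, e, he, hadm, hmin, hzero, w, hw, hgood⟩ := exists_good (K := FractionRing B) p σ
      (fracEquiv σ) (fracEquiv_algebraMap σ) (fracEquiv_pow σ hσ) hne (fun P hP hfix => by
        obtain ⟨f, hf, hfP, n, e, x, w, g, he, hL⟩ := hnd P hP hfix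
        have := hP.isPrime
        obtain ⟨f', hf', hfP', x', hx'⟩ := exists_isChart p σ hσ P hfix f hf hfP he x w g hL
        exact ⟨f', hf', hfP', e, n, x', w, he, hx'⟩)
    have h1 : fracEquiv σ ∈ G.map fracHom := ⟨σ, hσG, rfl⟩
    have h3 := comm_map hσG hcomm
    refine hasResolution_group_of_family p hE G σ hσG hcomm hindex hk hw hgood.goodC ?_ ?_ ?_
    · intro x
      rw [mem_invFam, hzero, mem_copy]
    · intro h hh v x hx
      have h2 : fracEquiv h ∈ G.map fracHom := ⟨h, hh, rfl⟩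
      rw [mem_invFam] at hx ⊢
      refine ⟨?_, ?_⟩
      · exact hmin (N.pull (fracEquiv h)) (hadm.pull (fun b => ⟨h b, fracEquiv_algebraMap h b⟩)
          (conj_of_comm h1 h3 h2)) v hx.1
      · obtain ⟨i, hi⟩ := h3 _ h1 _ h2
        have hpow : ∀ i : ℕ, (fracEquiv σ ^ i) x = x := by
          intro i
          induction i with
          | zero => rfl
          | succ i ih => rw [pow_succ, AlgEquiv.mul_apply, hx.2, ih]
        rw [← AlgEquiv.mul_apply, hi, AlgEquiv.mul_apply, hpow, AlgEquiv.mul_apply, hx.2]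
    · intro v x hx
      exact (mem_invFam.1 hx).2
  · push Not at hne
    have hσ1 : fracEquiv σ = 1 := fracEquiv_ext fun b => by
      rw [fracEquiv_algebraMap, hne]; rfl
    have hsm : Algebra.FormallySmooth k (copy k B) := formallySmooth_copy
    have hfg : (copy k B).FG := copy_fg
    have hgc : GoodC (constFam (copy k B)) 1 := goodC_constFam hfg hsm
    have h1 : ∀ x, x ∈ (constFam (copy k B)).s 0 ↔ x ∈ copy k B ∧ fracEquiv σ x = x := by
      intro x
      rw [hσ1]
      exact ⟨fun h => ⟨h, rfl⟩, fun h => h.1⟩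
    have h2 : ∀ h ∈ G, (constFam (copy k B)).Stable (fracEquiv h) := by
      intro h _ v x hx
      exact copy_stable h x hx
    have h3 : ∀ (v : ℤ) (x : FractionRing B), x ∈ (constFam (copy k B)).s v →
        fracEquiv σ x = x := by
      intro v x _
      rw [hσ1]; rfl
    exact hasResolution_group_of_family p hE G σ hσG hcomm hindex hk Nat.one_pos hgc h1 h2 h3

end

end Pool.Agent.MP_b525bf_ag_h5
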