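import Mathlib
import Pool.Agent.Lib.MP_b525bf_ag_h5.Final

/-!
Étale-locally linear actions have nondegenerate weighted homogeneous leading forms.
-/

set_option autoImplicit false

namespace Pool.Agent.MP_b525bf_ag_h5

open Pool.Agent.MP_b525bf_ag MvPolynomial

variable {k : Type} [Field k] {B : Type} [CommRing B] [Algebra k B]

theorem nondegenerate_of_locallyLinear (p : ℕ) [Fact p.Prime] [CharP k p] (σ : B ≃ₐ[k] B)
    (hlin : LocallyLinear p σ) (P : Ideal B) (hP : P.IsPrime) (hfix : ∀ b, σ b - b ∈ P) :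
    Nondegenerate σ P := by
  classical
  obtain ⟨f, hf, hfP, n, g, φ, hg, hφ, heq⟩ := hlin P hP hfix
  obtain ⟨b, w, hbw, hspan⟩ := H53.exists_adapted_basis n (H53.flag g) (H53.flag_anti g)
    (by rw [H53.flag, pow_zero]; exact LinearMap.range_id) p (H53.flag_bot p g hg)
  set Pm : Matrix (Fin n) (Fin n) k := (Pi.basisFun k (Fin n)).toMatrix b with hPm
  set Q : Matrix (Fin n) (Fin n) k := b.toMatrix (Pi.basisFun k (Fin n)) with hQ
  have hPQ : Pm * Q = 1 := Module.Basis.toMatrix_mul_toMatrix_flip _ _
  -- linear forms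
  let lf : (Fin n → k) →ₗ[k] Localization.Away f :=
    φ.toLinearMap ∘ₗ
      (Fintype.linearCombination k (fun i => (X i : MvPolynomial (Fin n) k)))
  have hlf : ∀ v, lf v = φ (∑ i, C (v i) * X i) := by
    intro v
    simp only [lf, LinearMap.comp_apply, Fintype.linearCombination_apply, smul_eq_C_mul]
    rfl
  let ν : (Fin n → k) →ₗ[k] (Fin n → k) := (g - 1).mulVecLin
  have hδ : ∀ v, awayMap σ f hf (lf v) - lf v = lf (ν v) := by
    intro v
    have h1 : ν v = g.mulVec v - v := by
      change (g - 1).mulVec v = _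
      rw [Matrix.sub_mulVec, Matrix.one_mulVec]
    rw [h1, map_sub, hlf v, ← heq, H53.act_lin, ← hlf, ← hlf]
  let x : Fin n → Localization.Away f := fun j => lf (b j)
  have hlfx : ∀ v, lf v = ∑ l, b.repr v l • x l := by
    intro v
    conv_lhs => rw [← b.sum_repr v]
    rw [map_sum]
    exact Finset.sum_congr rfl fun l _ => map_smul _ _ _
  have hflag : ∀ i v l, v ∈ H53.flag g i → w l < i → b.repr v l = 0 := by
    intro i v l hv hl
    have h1 : Submodule.span k {v | ∃ j, i ≤ w j ∧ v = b j} ≤ LinearMap.ker (b.coord l) := by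
      refine Submodule.span_le.2 ?_
      rintro _ ⟨j, hj, rfl⟩
      rw [SetLike.mem_coe, LinearMap.mem_ker, Module.Basis.coord_apply, b.repr_self]
      exact Finsupp.single_eq_of_ne (by rintro rfl; omega)
    exact h1 (hspan i hv)
  have hνflag : ∀ i v, v ∈ H53.flag g i → ν v ∈ H53.flag g (i + 1) := by
    rintro i _ ⟨u, rfl⟩
    exact ⟨u, by rw [pow_succ']; rfl⟩
  have hantiflag : ∀ i j, i ≤ j → H53.flag g j ≤ H53.flag g i := by
    intro i j hij
    induction j, hij using Nat.le_induction with
    | base => exact le_rfl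
    | succ j _ ih => exact (H53.flag_anti g j).trans ih
  -- the homogeneous parts
  let pr (a : ℕ) : (Fin n → k) →ₗ[k] MvPolynomial (Fin n) (Localization.Away f) :=
    ∑ l, if w l = a then (LinearMap.toSpanSingleton k _ (X l)) ∘ₗ (b.coord l) else 0
  have hpr : ∀ a v, pr a v = ∑ l, if w l = a then b.repr v l •
      (X l : MvPolynomial (Fin n) (Localization.Away f)) else 0 := by
    intro a v
    simp only [pr, LinearMap.sum_apply]
    refine Finset.sum_congr rfl fun l _ => ?_
    split_ifs <;> rfl
  have hpr0 : ∀ a v, v ∈ H53.flag g (a + 1) → pr a v = 0 := by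
    intro a v hv
    rw [hpr]
    refine Finset.sum_eq_zero fun l _ => ?_
    split_ifs with h
    · rw [hflag _ _ l hv (by omega), zero_smul]
    · rfl
  have hprb : ∀ i, pr (w i) (b i) = X i := by
    intro i
    rw [hpr, Finset.sum_eq_single i]
    · rw [if_pos rfl, b.repr_self, Finsupp.single_eq_same, one_smul]
    · intro l _ hl
      split_ifs
      · rw [b.repr_self, Finsupp.single_eq_of_ne hl, zero_smul]
      · rfl
    · intro h
      exact absurd (Finset.mem_univ i) h
  let G : Fin n → MvPolynomial (Fin n) (Localization.Away f) := fun j => pr (w j + 1) (ν (b j))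
  refine ⟨f, hf, hfP, n, 1, x, w, G, one_pos, ?_, ?_, ?_, ?_, ?_⟩
  · have h1 : (aeval x : MvPolynomial (Fin n) k →ₐ[k] Localization.Away f) =
        φ.comp (H53.actEquiv Pm Q hPQ : MvPolynomial (Fin n) k →ₐ[k] MvPolynomial (Fin n) k) := by
      refine MvPolynomial.algHom_ext fun j => ?_
      rw [aeval_X]
      change lf (b j) = φ (act Pm (X j))
      rw [H53.act_X, hlf]
      rfl
    rw [h1]
    exact RingHom.Etale.stableUnderComposition _ _
      (RingHom.Etale.of_bijective (H53.actEquiv Pm Q hPQ).bijective) hφ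
  · intro j hj
    obtain ⟨a, ha⟩ : ∃ a, w j = a + 1 := ⟨w j - 1, by omega⟩
    have h1 := hbw j
    rw [ha] at h1
    obtain ⟨u, hu⟩ := h1
    have h2 : b j = ν (((g - 1).mulVecLin ^ a) u) := by
      rw [← hu, pow_succ']; rfl
    change lf (b j) ∈ _
    rw [h2, ← hδ]
    -- the automorphism is the identity modulo `P`
    generalize lf (((g - 1).mulVecLin ^ a) u) = y
    obtain ⟨⟨c, ⟨_, m, rfl⟩⟩, hc⟩ := IsLocalization.surj (Submonoid.powers f) y
    change y * algebraMap B _ (f ^ m) = algebraMap B _ c at hc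
    have hunit : IsUnit (algebraMap B (Localization.Away f) (f ^ m)) :=
      IsLocalization.map_units _ (⟨f ^ m, m, rfl⟩ : Submonoid.powers f)
    have h1 : (awayHom σ f hf y - y) * algebraMap B _ (f ^ m) =
        algebraMap B (Localization.Away f) (σ c - c) := by
      have h2 : σ (f ^ m) = f ^ m := by rw [map_pow, hf]
      rw [map_sub, ← hc, sub_mul, ← awayHom_algebraMap σ f hf c, ← hc, map_mul,
        awayHom_algebraMap, h2]
    have h3 : algebraMap B (Localization.Away f) (σ c - c) ∈
        P.map (algebraMap B (Localization.Away f)) := Ideal.mem_map_of_mem _ (hfix c)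
    rw [← h1, mul_comm] at h3
    exact (Ideal.unit_mul_mem_iff_mem _ hunit).1 h3
  · intro j
    change (pr (w j + 1) (ν (b j))).IsWeightedHomogeneous w (w j + 1)
    rw [hpr]
    refine IsWeightedHomogeneous.sum Finset.univ _ _ fun l _ => ?_
    split_ifs with h
    · rw [← h]
      have h1 := (isWeightedHomogeneous_C w (algebraMap k (Localization.Away f)
        (b.repr (ν (b j)) l))).mul (isWeightedHomogeneous_X (Localization.Away f) w l)
      rw [zero_add] at h1
      convert h1 using 1
      rw [Algebra.smul_def]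
      rfl
    · exact isWeightedHomogeneous_zero _ _ _
  · intro j
    change awayMap σ f hf (lf (b j)) - lf (b j) - eval x (pr (w j + 1) (ν (b j))) ∈ _
    rw [hδ, hlfx, hpr, map_sum, ← Finset.sum_sub_distrib]
    refine Ideal.sum_mem _ fun l _ => ?_
    have heval : eval x (b.repr (ν (b j)) l • (X l : MvPolynomial (Fin n)
        (Localization.Away f))) = b.repr (ν (b j)) l • x l := by
      rw [Algebra.smul_def, Algebra.smul_def, map_mul, eval_X]
      congr 1
      exact eval_C _
    rcases lt_trichotomy (w l) (w j + 1) with h | h | h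
    · rw [hflag _ _ l (hνflag _ _ (hbw j)) h, zero_smul, zero_smul]
      simp
    · rw [if_pos h, heval, sub_self]
      exact Ideal.zero_mem _
    · rw [if_neg (by omega), map_zero, sub_zero, Algebra.smul_def]
      exact Ideal.mul_mem_left _ _ (wIdeal_anti h (x_mem l))
  · intro i hi
    refine Ideal.le_radical (Ideal.mem_sup_left ?_)
    obtain ⟨a, ha⟩ : ∃ a, w i = a + 1 := ⟨w i - 1, by omega⟩
    have h1 := hbw i
    rw [ha] at h1
    obtain ⟨u0, hu0⟩ := h1
    set u := ((g - 1).mulVecLin ^ a) u0 with hu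
    have h2 : b i = ν u := by
      rw [← hu0, pow_succ']; rfl
    have huf : u ∈ H53.flag g a := ⟨u0, rfl⟩
    have h3 : pr (a + 1) (ν u) = ∑ l, pr (a + 1) (ν (b.repr u l • b l)) := by
      conv_lhs => rw [← b.sum_repr u]
      rw [map_sum, map_sum]
    rw [← hprb i, ha, h2, h3]
    refine Ideal.sum_mem _ fun l _ => ?_
    rw [map_smul, map_smul]
    rcases lt_trichotomy (w l) a with h | h | h
    · rw [hflag _ _ l huf h, zero_smul]
      exact Ideal.zero_mem _
    · rw [Algebra.smul_def]
      refine Ideal.mul_mem_left _ _ (Ideal.subset_span ⟨l, ?_⟩)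
      change pr (w l + 1) _ = _
      rw [h]
    · rw [hpr0 _ _ (hantiflag _ _ (by omega) (hνflag _ _ (hbw l))), smul_zero]
      exact Ideal.zero_mem _

end Pool.Agent.MP_b525bf_ag_h5
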