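import Mathlib
import Pool.Agent.Lib.MP_b525bf_ag_h5.WMain

/-!
Resolution of quotients by actions of order `p` with weighted homogeneous leading forms.
-/

set_option autoImplicit false

namespace Pool.Agent.MP_b525bf_ag_h5

open Pool.Agent.MP_b525bf_ag AddMonoidAlgebra

theorem hasResolution_weighted
    (hE : ∀ (k K : Type) [Field k] [Field K] [Algebra k K] (M : Fam k K ℤ) (w : ℕ), 0 < w →
      M.alg.FG → Algebra.FormallySmooth k M.alg → Algebra.FormallySmooth k (M.wrees w).alg)
    (p : ℕ) [Fact p.Prime] (k : Type) [Field k] [CharP k p]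
    (B : Type) [CommRing B] [IsDomain B] [Algebra k B] (σ : B ≃ₐ[k] B) (hσ : σ ^ p = 1)
    (n : ℕ) (x : Fin n → B)
    (hx : (MvPolynomial.aeval x : MvPolynomial (Fin n) k →ₐ[k] B).toRingHom.Etale)
    (w : Fin n → ℕ) (e : ℕ) (he : 0 < e)
    (g : Fin n → MvPolynomial (Fin n) B) (hg : ∀ i, (g i).IsWeightedHomogeneous w (w i + e))
    (hrad : ∀ i, 0 < w i → MvPolynomial.X i ∈
      (Ideal.span (Set.range g) ⊔ (cIdeal x w).map MvPolynomial.C).radical)
    (hlead : ∀ i, σ (x i) - x i - MvPolynomial.eval x (g i) ∈ wIdeal x w (w i + e + 1))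
    (hfix : (Ideal.span (Set.range fun b => σ b - b)).radical = cIdeal x w) :
    HasResolution k (fixedAlg σ) := by
  classical
  have hfix1 : ∀ b, σ b - b ∈ cIdeal x w := by
    intro b
    rw [← hfix]
    exact Ideal.le_radical (Ideal.subset_span ⟨b, rfl⟩)
  by_cases hw : ∃ i, 0 < w i
  · let K := FractionRing B
    let σK : K ≃ₐ[k] K := IsFractionRing.algEquivOfAlgEquiv σ
    have hσK : ∀ b, σK (algebraMap B K b) = algebraMap B K (σ b) := fun b =>
      IsFractionRing.algEquivOfAlgEquiv_algebraMap σ b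
    have hpow : ∀ (j : ℕ) b, (σK ^ j) (algebraMap B K b) = algebraMap B K ((σ ^ j) b) := by
      intro j b
      induction j with
      | zero => rfl
      | succ j ih => rw [pow_succ', AlgEquiv.mul_apply, ih, hσK, pow_succ']; rfl
    have hσKp : σK ^ p = 1 := by
      refine AlgEquiv.ext fun z => ?_
      obtain ⟨a, b, hb, rfl⟩ := IsFractionRing.div_surjective (A := B) z
      rw [map_div₀, hpow, hpow, hσ]
      rfl
    have hinj : Function.Injective (algebraMap B K) := IsFractionRing.injective B K
    obtain ⟨w', hw', hgood⟩ := good_wFam p hinj x hx (σ : B →ₐ[k] B) σK hσK hσKp w hw e he g hg hrad hlead hfix1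
      (fun i hi => by
        change x i ∈ (Ideal.span (Set.range fun b => σ b - b)).radical
        rw [hfix]; exact Ideal.subset_span ⟨i, hi, rfl⟩)
    obtain ⟨M, hM, hM0⟩ := Good.exists_one_aux (hE k K) w' hw' _ hgood
    have hinjA : Function.Injective (algebraMap (fixedAlg σ) K) := by
      intro a b hab
      exact Subtype.ext (hinj hab)
    refine hasResolution_of_good_one k (fixedAlg σ) K hinjA M hM fun z => ?_
    rw [hM0, mem_invFam]
    constructor
    · rintro ⟨⟨b, -, rfl⟩, hb⟩
      have h1 : σ b = b := hinj (by rw [← hσK]; exact hb)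
      exact ⟨⟨b, h1⟩, rfl⟩
    · rintro ⟨b, rfl⟩
      refine ⟨map_mem_wFam_nonpos le_rfl (b : B), ?_⟩
      have h1 : σ (b : B) = b := b.2
      change σK (algebraMap B K (b : B)) = algebraMap B K (b : B)
      rw [hσK, h1]
  · have h1 : cIdeal x w = ⊥ := by
      rw [cIdeal, Ideal.span_eq_bot]
      rintro _ ⟨i, hi, rfl⟩
      exact absurd ⟨i, hi⟩ hw
    have h2 : fixedAlg σ = ⊤ := by
      rw [eq_top_iff]
      intro b _
      have := hfix1 b
      rw [h1, Ideal.mem_bot, sub_eq_zero] at this
      exact this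
    let i1 : Algebra (MvPolynomial (Fin n) k) B :=
      (MvPolynomial.aeval x : MvPolynomial (Fin n) k →ₐ[k] B).toRingHom.toAlgebra
    have hi1 : ∀ f, algebraMap (MvPolynomial (Fin n) k) B f = MvPolynomial.aeval x f :=
      fun _ => rfl
    have i2 : Algebra.Etale (MvPolynomial (Fin n) k) B := hx
    have i5 : IsScalarTower k (MvPolynomial (Fin n) k) B := IsScalarTower.of_algebraMap_eq
      fun c => by rw [hi1, MvPolynomial.algebraMap_eq, MvPolynomial.aeval_C]
    have h3 : Algebra.Smooth k (MvPolynomial (Fin n) k) := ⟨inferInstance, inferInstance⟩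
    have h4 : Algebra.Smooth (MvPolynomial (Fin n) k) B := inferInstance
    have h5 : Algebra.Smooth k B := Algebra.Smooth.comp k (MvPolynomial (Fin n) k) B
    have h6 : Algebra.Smooth k (⊤ : Subalgebra k B) :=
      Algebra.Smooth.of_equiv Subalgebra.topEquiv.symm
    rw [h2]
    exact hasResolution_of_smooth k _

end Pool.Agent.MP_b525bf_ag_h5
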